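import Pool.Agent.Helper13.LZ.Core
import Pool.Graph.R_pool_sql_team_seeded_63374d34.N784.CZ.Crx

/-!
# Zeros of bounded height: the product of all the L-functions of the characters modulo `𝔮`
(helper13)

Adapted from the library modules `A856.BH.Fin2` (owner helper856) and `N784.CZ.Crv`, `N784.CZ.Crw`
(helper784).
-/

set_option autoImplicit false
set_option linter.unusedSectionVars false
set_option linter.unusedVariables false

open NumberField Complex Filter Topology Set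

namespace Pool.Agent.Helper13.LZ

open Pool.Agent.Y773 (TPos LI)
open Pool.Agent.Y773.G (cj cj_cj cj_apply)
open Pool.Agent.Y767 (Mq Cls cls eq_of_LI)
open Pool.Agent.Y773.IQ (ofM' tM LL LL_eq absNorm_pos')
open Pool.Agent.N784.HC
open Pool.Agent.N784.AD (pi1 pi1_coe Un one_le_Un cls_card_le hK T1)
open Pool.Agent.N833.CZ (norm_ofM'_le)
open Pool.Agent.N786 (kc)
open H370 (zset mult NN Nd Ns)
open Pool.Agent.H82R3.EK (cnt cnt_eq_sum cnt_prod NN_eq Ns_le strip line)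
open Pool.Agent.W164.RC (cnt_mul)
open Pool.Agent.N784.CZ

/-- the critical strip, `|Im s| ≤ τ` -/
def Wc (τ : ℝ) : Set ℂ := {s | 0 < s.re ∧ s.re < 1 ∧ |s.im| ≤ τ}

/-- the critical line, `|Im s| ≤ τ` -/
def Lc (τ : ℝ) : Set ℂ := {s | s.re = 1 / 2 ∧ |s.im| ≤ τ}

lemma Lc_sub (τ : ℝ) : Lc τ ⊆ Wc τ := by
  rintro s ⟨h1, h2⟩
  exact ⟨by rw [h1]; norm_num, by rw [h1]; norm_num, h2⟩

lemma Wc_bdd {τ : ℝ} : ∀ s ∈ Wc τ, ‖s‖ ≤ 1 + |τ| := by
  rintro s ⟨a, b, c⟩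
  refine (Complex.norm_le_abs_re_add_abs_im s).trans (add_le_add ?_ (c.trans (le_abs_self τ)))
  rw [abs_of_pos a]
  exact b.le

/-- translation of the multiplicity -/
lemma mult_trans (L : ℂ → ℂ) (c s : ℂ) : mult (fun z => L (z - c)) (s + c) = mult L s := by
  have hg : AnalyticAt ℂ (fun z : ℂ => z - c) (s + c) := by fun_prop
  have hd : deriv (fun z : ℂ => z - c) (s + c) ≠ 0 := by
    simp
  have h := analyticOrderAt_comp_of_deriv_ne_zero (f := L) hg hd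
  unfold mult analyticOrderNatAt
  have h2 : (fun z : ℂ => L (z - c)) = L ∘ (fun z : ℂ => z - c) := rfl
  rw [h2, h]
  simp

lemma inj_trans (c : ℂ) : Function.Injective (fun s : ℂ => s + c) := fun a b h => by
  simpa using h

/-- translation of the counting function -/
lemma cnt_trans (L : ℂ → ℂ) (c : ℂ) (W W' : Set ℂ)
    (h : ∀ s : ℂ, L s = 0 → (s ∈ W ↔ s + c ∈ W')) :
    cnt (fun z => L (z - c)) W' = cnt L W := by
  unfold cnt
  have hset : {s : ℂ | s ∈ W' ∧ L (s - c) = 0} = (fun s : ℂ => s + c) '' {s | s ∈ W ∧ L s = 0} := by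
    ext s
    constructor
    · rintro ⟨h1, h2⟩
      refine ⟨s - c, ⟨?_, h2⟩, by ring⟩
      rw [h _ h2, sub_add_cancel]
      exact h1
    · rintro ⟨t, ⟨h1, h2⟩, rfl⟩
      refine ⟨(h t h2).1 h1, ?_⟩
      show L (t + c - c) = 0
      rw [add_sub_cancel_right]
      exact h2
  rw [hset, finsum_mem_image ((inj_trans c).injOn)]
  refine finsum_congr fun s => finsum_congr fun _ => ?_
  exact mult_trans L c s

/-- the zeros of one L-function -/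
theorem one_cnt {K : Type} [Field K] [NumberField K] (ψ : Ideal (𝓞 K) →*₀ ℂ) {τ T : ℝ}
    (hT : 2 * τ < T) (hfin : (zset (FH K ψ T) T (2 * T)).Finite)
    (hgap : ∀ ρ : ℂ, LL K ψ ρ = 0 → 0 < ρ.re → ρ.re < 1 → |ρ.im| ≤ T / 2 → |ρ.im| ≤ τ) :
    NN (FH K ψ T) T (2 * T) = cnt (LL K ψ) (Wc τ) ∧
      Ns (FH K ψ T) T (2 * T) ≤ cnt (LL K ψ) (Lc τ) := by
  obtain ⟨c, hc⟩ : ∃ c : ℂ, c = ((3 / 2 * T : ℝ) : ℂ) * I := ⟨_, rfl⟩
  have hcre : c.re = 0 := by rw [hc]; simp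
  have hcim : c.im = 3 / 2 * T := by rw [hc]; simp
  have hFS : FH K ψ T = fun z => LL K ψ (z - c) := by unfold FH; rw [← hc]
  have key : ∀ s : ℂ, |s.im| ≤ τ → T < (s + c).im ∧ (s + c).im ≤ 2 * T := by
    intro s hs
    rw [abs_le] at hs
    rw [add_im, hcim]
    constructor <;> linarith
  have key2 : ∀ s : ℂ, LL K ψ s = 0 → 0 < s.re → s.re < 1 → T < (s + c).im → (s + c).im ≤ 2 * T →
      |s.im| ≤ τ := by
    intro s h1 h2 h3 h4 h5
    rw [add_im, hcim] at h4 h5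
    apply hgap s h1 h2 h3
    rw [abs_le]
    constructor <;> linarith
  have hre : ∀ s : ℂ, (s + c).re = s.re := fun s => by rw [add_re, hcre, add_zero]
  have e1 : cnt (FH K ψ T) (strip T (2 * T)) = cnt (LL K ψ) (Wc τ) := by
    rw [hFS]
    apply cnt_trans
    intro s h0
    constructor
    · rintro ⟨h1, h2, h3⟩
      exact ⟨by rw [hre]; exact h1, by rw [hre]; exact h2, (key s h3).1, (key s h3).2⟩
    · rintro ⟨h1, h2, h3, h4⟩
      rw [hre] at h1 h2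
      exact ⟨h1, h2, key2 s h0 h1 h2 h3 h4⟩
  have e2 : cnt (FH K ψ T) (line T (2 * T)) = cnt (LL K ψ) (Lc τ) := by
    rw [hFS]
    apply cnt_trans
    intro s h0
    constructor
    · rintro ⟨h1, h3⟩
      exact ⟨by rw [hre]; exact h1, (key s h3).1, (key s h3).2⟩
    · rintro ⟨h1, h3, h4⟩
      rw [hre] at h1
      exact ⟨h1, key2 s h0 (by rw [h1]; norm_num) (by rw [h1]; norm_num) h3 h4⟩
  refine ⟨?_, ?_⟩
  · rw [NN_eq, e1]
  · rw [← e2]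
    exact Ns_le _ _ _ hfin

/-- a gap above `τ` in the absolute values of the ordinates of finitely many points -/
theorem exists_gap (Z : Set ℂ) (hZ : Z.Finite) (τ : ℝ) : ∃ e : ℝ, 0 < e ∧ e < 1 ∧
    ∀ ρ ∈ Z, |ρ.im| ≤ τ + e → |ρ.im| ≤ τ := by
  have h1 : ∀ᶠ e : ℝ in 𝓝[>] 0, ∀ ρ ∈ Z, |ρ.im| ≤ τ + e → |ρ.im| ≤ τ := by
    rw [Filter.eventually_all_finite hZ]
    intro ρ _
    by_cases h : |ρ.im| ≤ τ
    · exact Eventually.of_forall fun _ _ => h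
    · push Not at h
      have h2 : ∀ᶠ e : ℝ in 𝓝[>] 0, e < |ρ.im| - τ :=
        (eventually_lt_nhds (show (0 : ℝ) < |ρ.im| - τ by linarith)).filter_mono
          nhdsWithin_le_nhds
      filter_upwards [h2] with e he h3
      linarith
  have h2 : ∀ᶠ e : ℝ in 𝓝[>] 0, e < 1 :=
    (eventually_lt_nhds (show (0 : ℝ) < 1 by norm_num)).filter_mono nhdsWithin_le_nhds
  have h3 : ∀ᶠ e : ℝ in 𝓝[>] 0, 0 < e := eventually_mem_nhdsWithin
  obtain ⟨e, he1, he2, he3⟩ := (h1.and (h2.and h3)).exists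
  exact ⟨e, he3, he2, he1⟩

section

variable {K : Type} [Field K] [NumberField K] {n : (K →+* ℂ) → ℕ}

/-- few zeros of the L-functions of the characters of conductor one -/
theorem dn0_boundL (hGro : StGro) (hCru : StCru) (hn : CTyp n) (hn0 : n ≠ 0) :
    ∃ B : ℝ, 0 ≤ B ∧ ∀ (𝔮 : Ideal (𝓞 K)) (_ : 𝔮 ≠ ⊥) (htop : 𝔮 ≠ ⊤) (F : Mq 𝔮 →* ℂˣ),
      F ∈ Dn0 n 𝔮 → ∀ L : ℂ → ℂ, Differentiable ℂ L → (∀ s : ℂ, 1 < s.re → L s = LI (ofM' htop F) s) →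
      ∀ T : ℝ, 1 ≤ T → (cnt L (Wc T) : ℝ) ≤ B * T ^ 2 ∧
        (cnt (cf L) (Wc T) : ℝ) ≤ B * T ^ 2 := by
  classical
  obtain ⟨b2, t2⟩ := span_two K
  obtain ⟨A₀, hA₀, hD⟩ := Pool.Agent.Y772.DK.t_dirK K
  obtain ⟨hfin, -⟩ := Dn_card_le (n := n) b2 t2
  have hex : ∀ F'' : Mq (Ideal.span {(2 : 𝓞 K)}) →* ℂˣ, ∃ (L : ℂ → ℂ) (C' : ℝ),
      F'' ∈ Dn n t2 → Differentiable ℂ L ∧ (∀ s : ℂ, 1 < s.re → L s = LI (ofM' t2 F'') s) ∧
      L 2 ≠ 0 ∧ ∀ T : ℝ, 1 ≤ T →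
        ∑ᶠ s ∈ {s : ℂ | 0 < s.re ∧ s.re < 1 ∧ |s.im| ≤ 2 * T ∧ L s = 0},
          (analyticOrderNatAt L s : ℝ) ≤ C' * T ^ 2 := by
    intro F''
    by_cases h : F'' ∈ Dn n t2
    · obtain ⟨L, C, h1, h2, h3⟩ := hGro K n hn hn0 _ b2 t2 F'' h
      have hn1 := norm_ofM'_le b2 t2 h
      obtain ⟨-, -, d3, -, -, d6, -⟩ := hD _ hn1
      obtain ⟨C', hC'⟩ := hCru L C A₀⁻¹ h1 (by positivity) (fun s hs => by
        rw [h2 s (by rw [hs]; norm_num)]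
        exact d6 s hs.ge) h3
      refine ⟨L, C', fun _ => ⟨h1, h2, ?_, fun T hT => (hC' T hT).2⟩⟩
      rw [h2 2 (by norm_num)]
      exact d3 2 (by norm_num)
    · exact ⟨fun _ => 0, 0, fun h' => absurd h' h⟩
  choose L2 C2 h2 using hex
  refine ⟨∑ F'' ∈ hfin.toFinset, |C2 F''|, Finset.sum_nonneg fun _ _ => abs_nonneg _, ?_⟩
  intro 𝔮 hbot htop F hF L hL hLs T hT
  obtain ⟨F'', hF'', hord⟩ := dn0_red hbot htop hF
  obtain ⟨g1, g2, g3, g4⟩ := h2 F'' hF''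
  have ho := hord L (L2 F'') hL g1 hLs g2
  have hT2 : 0 ≤ T ^ 2 := by positivity
  have hC : C2 F'' ≤ ∑ F'' ∈ hfin.toFinset, |C2 F''| :=
    (le_abs_self _).trans (Finset.single_le_sum (f := fun F => |C2 F|) (fun _ _ => abs_nonneg _)
      (hfin.mem_toFinset.mpr hF''))
  have hbxb : ∀ s ∈ bx T, ‖s‖ ≤ 1 + 2 * T := by
    rintro s ⟨a, b, c⟩
    refine (Complex.norm_le_abs_re_add_abs_im s).trans (add_le_add ?_ c)
    rw [abs_of_pos a]
    exact b.le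
  have hbfin : {s : ℂ | s ∈ bx T ∧ L2 F'' s = 0}.Finite := zeros_bdd g1 g3 hbxb
  have hcnt : (cnt (L2 F'') (bx T) : ℝ) ≤ C2 F'' * T ^ 2 := by
    refine le_trans (le_of_eq ?_) (g4 T hT)
    have hset : {s : ℂ | 0 < s.re ∧ s.re < 1 ∧ |s.im| ≤ 2 * T ∧ L2 F'' s = 0} =
        {s : ℂ | s ∈ bx T ∧ L2 F'' s = 0} := by
      ext s
      simp only [bx, Set.mem_ofPred_eq, and_assoc]
    unfold cnt
    rw [hset, finsum_mem_eq_finite_toFinset_sum _ hbfin,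
      finsum_mem_eq_finite_toFinset_sum _ hbfin]
    push_cast
    rfl
  have hgen : ∀ W : Set ℂ, W ⊆ bx T → (cnt L W : ℝ) ≤
      (∑ F'' ∈ hfin.toFinset, |C2 F''|) * T ^ 2 := by
    intro W hW
    have h5 : cnt L W = cnt (L2 F'') W := cnt_congr hL g1 fun s hs => ho s (hW hs).1
    have h6 : cnt (L2 F'') W ≤ cnt (L2 F'') (bx T) := cnt_mono hW hbfin
    calc (cnt L W : ℝ) = cnt (L2 F'') W := by rw [h5]
      _ ≤ cnt (L2 F'') (bx T) := by exact_mod_cast h6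
      _ ≤ C2 F'' * T ^ 2 := hcnt
      _ ≤ _ := mul_le_mul_of_nonneg_right hC hT2
  constructor
  · apply hgen
    rintro s ⟨a, b, c⟩
    exact ⟨a, b, by linarith⟩
  · rw [cnt_cf hL]
    apply hgen
    rintro s ⟨a, b, c⟩
    rw [Complex.conj_re] at a b
    rw [Complex.conj_im, abs_neg] at c
    exact ⟨a, b, by linarith⟩

end

open Classical in
/-- the zeros of the product of the L-functions of all the characters modulo `𝔮` of type `n` and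
their conjugates, in terms of the family -/
theorem prod_cntL {K : Type} [Field K] [NumberField K] {n : (K →+* ℂ) → ℕ}
    {𝔮 : Ideal (𝓞 K)} (hbot : 𝔮 ≠ ⊥) (htop : 𝔮 ≠ ⊤)
    (L : (Mq 𝔮 →* ℂˣ) → ℂ → ℂ)
    (hL : ∀ F ∈ Dn n htop, Differentiable ℂ (L F) ∧ ∀ s : ℂ, 1 < s.re → L F s = LI (ofM' htop F) s)
    (hLL : ∀ ψ ∈ FamN n 𝔮, Differentiable ℂ (LL K ψ) ∧ ∀ s : ℂ, 1 < s.re → LL K ψ s = LI ψ s)
    (J : Finset (Mq 𝔮 →* ℂˣ)) (hJ : ∀ F, F ∈ J ↔ F ∈ Dn n htop)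
    (Fs : Finset (Ideal (𝓞 K) →*₀ ℂ)) (hFs : ∀ ψ, ψ ∈ Fs ↔ ψ ∈ FamN n 𝔮)
    {T : ℝ} {W : Set ℂ} (hW : W ⊆ Wc T) :
    (∑ ψ ∈ Fs, (cnt (LL K ψ) W + cnt (LL K (cc' ψ)) W) ≤
      cnt (fun s => ∏ F ∈ J, (L F s * cf (L F) s)) W) ∧
    (cnt (fun s => ∏ F ∈ J, (L F s * cf (L F) s)) W ≤
      ∑ ψ ∈ Fs, (cnt (LL K ψ) W + cnt (LL K (cc' ψ)) W) +
      ∑ F ∈ J.filter (fun F => F ∈ Dn0 n 𝔮), (cnt (L F) W + cnt (cf (L F)) W)) := by
  have hW0 : ∀ s ∈ W, 0 < s.re := fun s hs => (hW hs).1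
  have hWb : ∀ s ∈ W, ‖s‖ ≤ 1 + |T| := fun s hs => Wc_bdd s (hW hs)
  have hne : ∀ F ∈ J, L F 2 ≠ 0 := by
    intro F hF
    have hF' := (hJ F).mp hF
    rw [(hL F hF').2 2 (by norm_num)]
    exact LI_ne (norm_ofM'_le hbot htop hF') (by norm_num)
  have hne' : ∀ F ∈ J, cf (L F) 2 ≠ 0 := by
    intro F hF
    unfold cf
    rw [Ne, map_eq_zero, map_ofNat]
    exact hne F hF
  have hd : ∀ F ∈ J, Differentiable ℂ (L F) := fun F hF => (hL F ((hJ F).mp hF)).1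
  have hd' : ∀ F ∈ J, Differentiable ℂ (cf (L F)) := fun F hF => cf_diff (hd F hF)
  have hone : ∀ F ∈ J, cnt (fun s => L F s * cf (L F) s) W = cnt (L F) W + cnt (cf (L F)) W := by
    intro F hF
    exact cnt_mul (fun s _ => (hd F hF).analyticAt s) (fun s _ => (hd' F hF).analyticAt s)
      (fun s _ => order_ne_top (hd F hF) (hne F hF) s)
      (fun s _ => order_ne_top (hd' F hF) (hne' F hF) s)
      (zeros_bdd (hd F hF) (hne F hF) hWb) (zeros_bdd (hd' F hF) (hne' F hF) hWb)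
  have hdm : ∀ F ∈ J, Differentiable ℂ (fun s => L F s * cf (L F) s) := fun F hF =>
    (hd F hF).mul (hd' F hF)
  have hnem : ∀ F ∈ J, (fun s => L F s * cf (L F) s) 2 ≠ 0 := fun F hF =>
    mul_ne_zero (hne F hF) (hne' F hF)
  have htot : cnt (fun s => ∏ F ∈ J, (L F s * cf (L F) s)) W =
      ∑ F ∈ J, (cnt (L F) W + cnt (cf (L F)) W) := by
    rw [cnt_prod J (fun F s => L F s * cf (L F) s) (fun F hF s _ => (hdm F hF).analyticAt s)
      (fun F hF s _ => order_ne_top (hdm F hF) (hnem F hF) s)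
      (fun F hF => zeros_bdd (hdm F hF) (hnem F hF) hWb)]
    exact Finset.sum_congr rfl hone
  have hinj : Set.InjOn (tM 𝔮) (Fs : Set (Ideal (𝓞 K) →*₀ ℂ)) := by
    intro ψ hψ ψ' hψ' h
    exact tM_inj hbot htop ((hFs ψ).mp hψ) ((hFs ψ').mp hψ') h
  have himg : ∑ ψ ∈ Fs, (cnt (LL K ψ) W + cnt (LL K (cc' ψ)) W) =
      ∑ F ∈ Fs.image (tM 𝔮), (cnt (L F) W + cnt (cf (L F)) W) := by
    rw [Finset.sum_image hinj]
    refine Finset.sum_congr rfl fun ψ hψ => ?_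
    have hψ' := (hFs ψ).mp hψ
    have hF := hL _ (tM_mem htop hψ')
    obtain ⟨k1, k2⟩ := cnt_tM hbot htop hψ' hF.1 hF.2 (hLL ψ hψ').1 (hLL ψ hψ').2 hW0
    rw [k1, k2]
  rw [htot, himg]
  constructor
  · refine Finset.sum_le_sum_of_subset ?_
    intro F hF
    obtain ⟨ψ, h1, rfl⟩ := Finset.mem_image.mp hF
    exact (hJ _).mpr (tM_mem htop ((hFs ψ).mp h1))
  · rw [← Finset.sum_union_inter]
    refine le_trans ?_ (Nat.le_add_right _ _)
    refine Finset.sum_le_sum_of_subset ?_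
    intro F hF
    rw [Finset.mem_union]
    rcases dn_cases hbot htop ((hJ F).mp hF) with h | ⟨ψ, h2, h3⟩
    · right
      rw [Finset.mem_filter]
      exact ⟨hF, h⟩
    · left
      rw [Finset.mem_image]
      exact ⟨ψ, (hFs ψ).mpr h2, h3⟩

end Pool.Agent.Helper13.LZ
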