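import Pool.Agent.Helper13.LZ.Defs
import Pool.Graph.R_seed8.H385R2.FamAbsD

/-!
`fa_coreB_of` (proved by helper143 for helper856).  This is an adaptation of
`fa_fixed_u_D` and `fa_core_D` in `Pool/Agent/H385R2/FamAbsD.lean` (on origin/main): copy these two proofs and
replace `GoodD d A Q F a` by `GoodB A ℒ E H q0 F a` (file `Pool/Agent/A856/BH/Defs.lean`), `d = 2`, the main
term `d log(Q T)` by `q0 ≤ 2 ℒ`.  Changes: there are two parameters now: `κ` (truncation: `V1` is about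
`T - 3κ`, may be negative) is only used in exponentially small terms, which are killed by the hypothesis
`(T + κ)² ℒ² exp(2Λ - κ²/2) ≤ 1`; in the integral of `‖bt‖²` (`bt_sq_int`) the parameter is `κe` with
`T ≤ exp(κe²/2)`.  The error in the explicit formula `hA1` is `C (E exp(-3u/4) + ℒ² exp(u - κ²/2))` (before:
`exp(-u)`), so that the constant `4 C1` becomes `4 C1 E`; `E ≤ ℒ`.  `BB_formulaB` (hypothesis `hBB`) is
`BB_formula_D` of `Pool/Agent/H385R2/CutD.lean` with `8 κ ≤ T` replaced by `1 ≤ T`.  `hcnt` bounds the number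
of zeros in `(V1, V2]` by `C (T + 6κ) ℒ`-like quantities.
-/

set_option autoImplicit false

open Complex Filter Topology Set MeasureTheory
open H370 (zset mult NN Nd Ns)
open H385 (A1 PP1 BB bt wt Rw)

namespace Pool.Agent.Helper13.LZ


section fb
open H385

theorem fb_fixed_u (A : ℝ)
    (hfin : ∀ (ℒ E H q0 : ℝ) (F : ℂ → ℂ) (a : ℕ → ℂ), GoodB A ℒ E H q0 F a → ∀ T1 T2 : ℝ,
      (zset F T1 T2).Finite)
    (hcnt : ∃ C : ℝ, 0 < C ∧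
      ∀ (ℒ E H q0 : ℝ) (F : ℂ → ℂ) (a : ℕ → ℂ), GoodB A ℒ E H q0 F a → ∀ T1 T2 : ℝ, T1 + 1 ≤ T2 →
        |T1| + 3 ≤ H → |T2| + 3 ≤ H → (NN F T1 T2 : ℝ) ≤ C * (T2 - T1) * ℒ)
    (hA1 : ∃ C : ℝ, 0 < C ∧
      ∀ (ℒ E H q0 : ℝ) (F : ℂ → ℂ) (a : ℕ → ℂ), GoodB A ℒ E H q0 F a →
      ∀ T κ : ℝ, 1 ≤ T → 3 ≤ κ → 2 * T + 3 * κ + 6 ≤ H →
      ∃ V1 V2 : ℝ, T - 3 * κ ≤ V1 ∧ V1 ≤ T - 3 * κ + 1 ∧ 2 * T + 3 * κ - 1 ≤ V2 ∧
        V2 ≤ 2 * T + 3 * κ ∧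
        ∀ u m : ℝ, 0 ≤ u → V1 + κ ≤ m → m ≤ V2 - κ →
          ‖A1 F V1 V2 u m - (1 / (2 * Real.sqrt Real.pi) : ℝ) *
            (((q0 : ℝ) : ℂ) * cexp (I * m * u) * Real.exp (-u ^ 2 / 4) - PP1 a u m)‖ ≤
          C * (E * Real.exp (-(3 / 4) * u) + ℒ ^ 2 * Real.exp (u - κ ^ 2 / 2)))
    (hBB : ∀ (F : ℂ → ℂ) (a : ℕ → ℂ) (d : ℝ), 0 ≤ d →
      (∀ n, ‖a n‖ ≤ d * ArithmeticFunction.vonMangoldt n) → ∀ (Lq V1 V2 T κ u E : ℝ),
      (zset F V1 V2).Finite → 3 ≤ κ → 1 ≤ T → V1 ≤ T - 3 * κ + 1 → 2 * T + 3 * κ - 1 ≤ V2 →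
      (∀ m : ℝ, V1 + κ ≤ m → m ≤ V2 - κ →
        ‖A1 F V1 V2 u m - (1 / (2 * Real.sqrt Real.pi) : ℝ) *
          (Lq * cexp (I * m * u) * Real.exp (-u ^ 2 / 4) - PP1 a u m)‖ ≤ E) →
      ∀ t : ℝ, T - 3 * κ ≤ t → t ≤ 2 * T + 3 * κ →
      ‖BB F V1 V2 T u t - (Lq * bt T u t 0 -
        ∑' n : ℕ, a n * ((Real.sqrt n : ℂ)⁻¹ * bt T u t (Real.log n)))‖ ≤ 2 * E * wt T t) :
    ∃ K : ℝ, 0 < K ∧ ∀ {ι : Type} (s : Finset ι) (ω q0 : ι → ℝ) (F : ι → ℂ → ℂ)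
      (a : ι → ℕ → ℂ) (T κ κe Λ ℒ E H y1 y2 : ℝ) (Y : ℝ → ℝ),
      (∀ i ∈ s, 0 ≤ ω i ∧ GoodB A ℒ E H (q0 i) (F i) (a i)) → 1 ≤ ℒ → 1 ≤ E → E ≤ ℒ →
      1 ≤ T → 3 ≤ κ → 3 ≤ κe → κe ≤ T → T ≤ Real.exp (κe ^ 2 / 2) → 2 * T + 3 * κ + 6 ≤ H →
      1 ≤ Λ → (T + κ) ^ 2 * ℒ ^ 2 * Real.exp (2 * Λ - κ ^ 2 / 2) ≤ 1 → 0 ≤ y1 → 0 ≤ y2 →
      (∀ u ∈ Set.Icc 0 Λ,
        ∫ t : ℝ, ∑ i ∈ s, ω i *
          ‖∑' n : ℕ, a i n * ((Real.sqrt n : ℂ)⁻¹ * bt T u t (Real.log n))‖ ^ 2 ≤ Y u) →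
      (∀ u ∈ Set.Icc 0 Λ, Y u ≤ T * (y1 * (u + 1) + y2)) →
      ∃ V1 V2 : ι → ℝ, (∀ i ∈ s, (zset (F i) (V1 i) (V2 i)).Finite ∧
          T - 3 * κ ≤ V1 i ∧ V1 i ≤ T - 3 * κ + 1 ∧
          2 * T + 3 * κ - 1 ≤ V2 i ∧ V2 i ≤ 2 * T + 3 * κ) ∧
        ∀ u ∈ Set.Icc 0 Λ, ∑ i ∈ s, ω i * ∫ t : ℝ, ‖BB (F i) (V1 i) (V2 i) T u t‖ ^ 2 ≤
          (∑ i ∈ s, ω i) * (2 * ℒ) ^ 2 * (T / (2 * Real.pi) * Real.exp (-u ^ 2)) + Y u +
          K * ((∑ i ∈ s, ω i) * ((2 * ℒ) ^ 2 * κe) + (∑ i ∈ s, ω i) * (E * (2 * ℒ) * T) +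
            Real.sqrt (∑ i ∈ s, ω i) * (2 * ℒ) * T * (Real.sqrt y1 + Real.sqrt y2)) *
              Real.exp (-u / 4) := by
  obtain ⟨C1, hC1, hA1⟩ := hA1
  obtain ⟨C3, hC3, hwt⟩ := wt_sq_int
  obtain ⟨C4, hC4, hbt⟩ := bt_sq_int
  obtain ⟨C5, hC5, hzc⟩ := hcnt
  refine ⟨Real.exp 1 * C4 + 2 * ((1 + C4) * Real.exp 1 + (1 + C4) * (4 * C1) * (1 + C3) +
    4 * C1 * (1 + C3)) + (4 * C1) ^ 2 * (1 + C3) ^ 2 + 100 * (6 * C5) ^ 2 , by positivity, ?_⟩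
  intro ι s ω q0 F a T κ κe Λ ℒ E H y1 y2 Y hs hℒ hE1 hEL hT1 hκ hκe hκeT hTκ hH hΛ hbig hy1 hy2
    hY hYb
  obtain ⟨Lm, hLmd⟩ : ∃ L, L = 2 * ℒ := ⟨_, rfl⟩
  rw [← hLmd]
  have hLm : 1 ≤ Lm := by rw [hLmd]; linarith
  have hT0 : 0 < T := by linarith
  have hℒ0 : 0 < ℒ := by linarith
  have hE0 : 0 < E := by linarith
  have hELm : E ≤ Lm := by rw [hLmd]; linarith
  have hmain : ∀ i : ι, ∃ V : ℝ × ℝ, i ∈ s → T - 3 * κ ≤ V.1 ∧ V.1 ≤ T - 3 * κ + 1 ∧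
      2 * T + 3 * κ - 1 ≤ V.2 ∧ V.2 ≤ 2 * T + 3 * κ ∧
      ∀ u m : ℝ, 0 ≤ u → V.1 + κ ≤ m → m ≤ V.2 - κ →
        ‖A1 (F i) V.1 V.2 u m - (1 / (2 * Real.sqrt Real.pi) : ℝ) *
          (((q0 i : ℝ) : ℂ) * cexp (I * m * u) * Real.exp (-u ^ 2 / 4)
            - PP1 (a i) u m)‖ ≤
        C1 * (E * Real.exp (-(3 / 4) * u) + ℒ ^ 2 * Real.exp (u - κ ^ 2 / 2)) := by
    intro i
    by_cases hi : i ∈ s
    · obtain ⟨-, hg⟩ := hs i hi
      obtain ⟨V1, V2, h1, h2, h3, h4, h5⟩ := hA1 ℒ E H (q0 i) (F i) (a i) hg T κ hT1 hκ hH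
      exact ⟨(V1, V2), fun _ => ⟨h1, h2, h3, h4, h5⟩⟩
    · exact ⟨0, fun h => absurd h hi⟩
  choose V hV using hmain
  have hfin' : ∀ i ∈ s, (zset (F i) (V i).1 (V i).2).Finite := by
    intro i hi
    exact hfin ℒ E H (q0 i) (F i) (a i) (hs i hi).2 _ _
  refine ⟨fun i => (V i).1, fun i => (V i).2, fun i hi => ?_, ?_⟩
  · obtain ⟨h1, h2, h3, h4, h5⟩ := hV i hi
    exact ⟨hfin' i hi, h1, h2, h3, h4⟩
  intro u hu
  obtain ⟨hu0, huΛ⟩ := hu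
  set W := ∑ i ∈ s, ω i with hW
  have hW0 : 0 ≤ W := Finset.sum_nonneg fun i hi => (hs i hi).1
  -- the three functions
  set f : ι → ℝ → ℝ := fun _ t => Lm * ‖bt T u t 0‖ with hf
  set g : ι → ℝ → ℝ := fun i t => ‖Pf (a i) T u t‖ with hg
  set h : ι → ℝ → ℝ := fun _ t => (4 * C1 * (E * Real.exp (-(3 / 4) * u))) * wt T t with hh
  have hfc : ∀ i ∈ s, Continuous (f i) := fun i _ => continuous_const.mul (fa_bt_cont T u 0).norm
  have hgc : ∀ i ∈ s, Continuous (g i) := fun i hi =>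
    (fa_Pf_cont_D (zero_le_one.trans (hs i hi).2.hA : (0 : ℝ) ≤ A) (hs i hi).2.ha T u hT0.le).norm
  have hhc : ∀ i ∈ s, Continuous (h i) := fun i _ => continuous_const.mul (wt_cont T)
  have hbt0 := hbt T κe u 0 (by linarith) hT1
    (hTκ.trans (Real.exp_le_exp.mpr (NL.a2 κe)))
  have hf2 : ∀ i ∈ s, Integrable (fun t => f i t ^ 2) := by
    intro i _
    simp only [hf, mul_pow]
    exact hbt0.1.const_mul _
  have hg2 : ∀ i ∈ s, Integrable (fun t => g i t ^ 2) := fun i hi =>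
    fa_Pf_int_D (zero_le_one.trans (hs i hi).2.hA : (0 : ℝ) ≤ A) (hs i hi).2.ha T u hT0.le
  have hh2 : ∀ i ∈ s, Integrable (fun t => h i t ^ 2) := by
    intro i _
    simp only [hh, mul_pow _ (wt T _)]
    exact (hwt T hT0.le).1.const_mul _
  set X := W * Lm ^ 2 * (T / (2 * Real.pi) * Real.exp (-u ^ 2) + C4 * κe * Real.exp (-u ^ 2 / 2))
    with hXdef
  obtain ⟨G1, hG1⟩ : ∃ G, G = 4 * C1 * (E * Real.exp (-(3 / 4) * u)) := ⟨_, rfl⟩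
  rw [← hG1] at hh
  have hG10 : 0 ≤ G1 := by rw [hG1]; positivity
  set Z := W * G1 ^ 2 * (T + C3) with hZdef
  have hX : ∑ i ∈ s, ω i * ∫ t, f i t ^ 2 ≤ X := by
    simp only [hf, mul_pow]
    rw [integral_const_mul, ← Finset.sum_mul, ← hW, hXdef, mul_assoc W (Lm ^ 2)]
    have := hbt0.2
    rw [sub_zero] at this
    gcongr
  have hY1 : ∑ i ∈ s, ω i * ∫ t, g i t ^ 2 ≤ Y u := by
    refine le_trans (le_of_eq ?_) (hY u ⟨hu0, huΛ⟩)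
    rw [integral_finsetSum]
    · apply Finset.sum_congr rfl
      intro i _
      rw [integral_const_mul]
      rfl
    · intro i hi
      exact (hg2 i hi).const_mul _
  have hZ : ∑ i ∈ s, ω i * ∫ t, h i t ^ 2 ≤ Z := by
    simp only [hh, mul_pow]
    rw [integral_const_mul, ← Finset.sum_mul, ← hW, hZdef]
    have := (hwt T hT0.le).2
    rw [mul_assoc W]
    gcongr
  obtain ⟨hint, hmk⟩ := fa_mink s ω (fun i hi => (hs i hi).1) f g h hfc hgc hhc hf2 hg2 hh2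
    hX hY1 hZ
  have hYu0 : 0 ≤ Y u := le_trans (Finset.sum_nonneg fun i hi =>
    mul_nonneg (hs i hi).1 (integral_nonneg fun t => sq_nonneg _)) hY1
  -- each BB
  have hTk1 : 1 ≤ (T + κ) ^ 2 := one_le_pow₀ (by linarith)
  have hbig2 : (T + κ) ^ 2 * ℒ ^ 2 * Real.exp (u - κ ^ 2 / 2) ≤ Real.exp (-u) := by
    have e0 : Real.exp (u - κ ^ 2 / 2) = Real.exp (2 * u - κ ^ 2 / 2) * Real.exp (-u) := by
      rw [← Real.exp_add]; congr 1; ring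
    have e1 : Real.exp (2 * u - κ ^ 2 / 2) ≤ Real.exp (2 * Λ - κ ^ 2 / 2) :=
      Real.exp_le_exp.mpr (by linarith)
    calc (T + κ) ^ 2 * ℒ ^ 2 * Real.exp (u - κ ^ 2 / 2) =
        ((T + κ) ^ 2 * ℒ ^ 2 * Real.exp (2 * u - κ ^ 2 / 2)) * Real.exp (-u) := by
          rw [e0]; ring
      _ ≤ ((T + κ) ^ 2 * ℒ ^ 2 * Real.exp (2 * Λ - κ ^ 2 / 2)) * Real.exp (-u) := by gcongr
      _ ≤ 1 * Real.exp (-u) := by gcongr
      _ = _ := one_mul _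
  have heu34 : Real.exp (-u) ≤ Real.exp (-(3 / 4) * u) := by
    apply Real.exp_le_exp.mpr; linarith
  have hLmbig : ℒ ^ 2 * Real.exp (u - κ ^ 2 / 2) ≤ E * Real.exp (-(3 / 4) * u) := by
    calc ℒ ^ 2 * Real.exp (u - κ ^ 2 / 2) = 1 * (ℒ ^ 2 * Real.exp (u - κ ^ 2 / 2)) :=
          (one_mul _).symm
      _ ≤ (T + κ) ^ 2 * (ℒ ^ 2 * Real.exp (u - κ ^ 2 / 2)) :=
          mul_le_mul_of_nonneg_right hTk1 (by positivity)
      _ = (T + κ) ^ 2 * ℒ ^ 2 * Real.exp (u - κ ^ 2 / 2) := by ring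
      _ ≤ Real.exp (-u) := hbig2
      _ ≤ Real.exp (-(3 / 4) * u) := heu34
      _ = 1 * Real.exp (-(3 / 4) * u) := (one_mul _).symm
      _ ≤ _ := mul_le_mul_of_nonneg_right hE1 (Real.exp_pos _).le
  have hBB' : ∀ i ∈ s, ∫ t : ℝ, ‖BB (F i) (V i).1 (V i).2 T u t‖ ^ 2 ≤
      (∫ t, (f i t + g i t + h i t) ^ 2) + 100 * (6 * C5) ^ 2 * (T * Real.exp (-u)) := by
    intro i hi
    obtain ⟨h1, h2, h3, h4, h5⟩ := hV i hi
    obtain ⟨hωi, hgd⟩ := hs i hi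
    have hbbi := BB_int (F i) (V i).1 (V i).2 T (hfin' i hi)
    rw [← integral_add_compl (measurableSet_Icc : MeasurableSet
      (Set.Icc (T - 3 * κ) (2 * T + 3 * κ))) (hbbi.1 u)]
    apply add_le_add
    · refine le_trans ?_ (setIntegral_le_integral (s := Set.Icc (T - 3 * κ) (2 * T + 3 * κ))
        (hint i hi) (Filter.Eventually.of_forall fun t => sq_nonneg _))
      apply setIntegral_mono_on (hbbi.1 u).integrableOn (hint i hi).integrableOn measurableSet_Icc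
      intro t ht
      apply pow_le_pow_left₀ (norm_nonneg _)
      have hE : ∀ m : ℝ, (V i).1 + κ ≤ m → m ≤ (V i).2 - κ →
          ‖A1 (F i) (V i).1 (V i).2 u m - (1 / (2 * Real.sqrt Real.pi) : ℝ) *
          (((q0 i : ℝ) : ℂ) * cexp (I * m * u) * Real.exp (-u ^ 2 / 4)
            - PP1 (a i) u m)‖ ≤
          2 * C1 * (E * Real.exp (-(3 / 4) * u)) := by
        intro m hm1 hm2
        refine (h5 u m hu0 hm1 hm2).trans ?_
        exact NL.a3 hC1.le hLmbig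
      have hb := hBB (F i) (a i) A (zero_le_one.trans hgd.hA) hgd.ha (q0 i) (V i).1 (V i).2 T κ u
        (2 * C1 * (E * Real.exp (-(3 / 4) * u))) (hfin' i hi) hκ hT1 h2 h3 hE t ht.1 ht.2
      have hb2 : ‖BB (F i) (V i).1 (V i).2 T u t‖ ≤
          ‖((q0 i : ℝ) : ℂ) * bt T u t 0 - Pf (a i) T u t‖ +
          2 * (2 * C1 * (E * Real.exp (-(3 / 4) * u))) * wt T t := by
        have := norm_le_insert' (BB (F i) (V i).1 (V i).2 T u t)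
          (((q0 i : ℝ) : ℂ) * bt T u t 0 - Pf (a i) T u t)
        unfold Pf at *
        linarith
      have hb3 : ‖((q0 i : ℝ) : ℂ) * bt T u t 0 - Pf (a i) T u t‖ ≤
          Lm * ‖bt T u t 0‖ + ‖Pf (a i) T u t‖ := by
        refine (norm_sub_le _ _).trans ?_
        rw [norm_mul, Complex.norm_real, Real.norm_eq_abs, abs_of_nonneg hgd.hq0]
        have hdl : q0 i ≤ Lm := by
          rw [hLmd]; exact hgd.hq1
        gcongr
      simp only [hf, hg, hh]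
      have e9 : G1 * wt T t = 2 * (2 * C1 * (E * Real.exp (-(3 / 4) * u))) * wt T t := by
        rw [hG1]; ring
      linarith
    · refine (BB_far (F i) (V i).1 (V i).2 T κ u (hfin' i hi) hT0.le (by linarith) hu0).trans ?_
      have hNN : (NN (F i) (V i).1 (V i).2 : ℝ) ≤ 6 * C5 * ((T + κ) * ℒ) := by
        refine (hzc ℒ E H (q0 i) (F i) (a i) hgd (V i).1 (V i).2 (by linarith) ?_ ?_).trans ?_
        · have : |(V i).1| ≤ T + 3 * κ + 1 := by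
            rw [abs_le]; constructor <;> linarith
          linarith
        · have : |(V i).2| ≤ 2 * T + 3 * κ := by
            rw [abs_le]; constructor <;> linarith
          linarith
        have e1 : (V i).2 - (V i).1 ≤ 6 * (T + κ) := by linarith
        calc C5 * ((V i).2 - (V i).1) * ℒ ≤
            C5 * (6 * (T + κ)) * ℒ := by gcongr
          _ = _ := by ring
      have hNN2 : (NN (F i) (V i).1 (V i).2 : ℝ) ^ 2 ≤ (6 * C5 * ((T + κ) * ℒ)) ^ 2 :=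
        pow_le_pow_left₀ (by positivity) hNN 2
      calc 100 * (NN (F i) (V i).1 (V i).2 : ℝ) ^ 2 * Real.exp (u - κ ^ 2)
          ≤ 100 * (6 * C5 * ((T + κ) * ℒ)) ^ 2 * Real.exp (u - κ ^ 2 / 2) := by
            have := NL.a2 κ
            gcongr
        _ = 100 * (6 * C5) ^ 2 * ((T + κ) ^ 2 * ℒ ^ 2 * Real.exp (u - κ ^ 2 / 2)) := by
            ring
        _ ≤ 100 * (6 * C5) ^ 2 * (Real.exp (-u)) := by gcongr
        _ ≤ 100 * (6 * C5) ^ 2 * (T * Real.exp (-u)) := by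
            have : Real.exp (-u) ≤ T * Real.exp (-u) :=
              le_mul_of_one_le_left (Real.exp_pos _).le hT1
            gcongr
  have hsum : ∑ i ∈ s, ω i * ∫ t : ℝ, ‖BB (F i) (V i).1 (V i).2 T u t‖ ^ 2 ≤
      (∑ i ∈ s, ω i * ∫ t, (f i t + g i t + h i t) ^ 2) +
        W * (100 * (6 * C5) ^ 2 * (T * Real.exp (-u))) := by
    rw [hW, Finset.sum_mul, ← Finset.sum_add_distrib]
    apply Finset.sum_le_sum
    intro i hi
    rw [← mul_add]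
    exact mul_le_mul_of_nonneg_left (hBB' i hi) (hs i hi).1
  -- square roots
  set E2 := Real.exp (-u / 4) with hE2
  have hE2p : 0 < E2 := Real.exp_pos _
  have heu2 : Real.exp (-u / 2) ≤ E2 := by
    rw [hE2]; apply Real.exp_le_exp.mpr; linarith
  have heu : Real.exp (-u) ≤ E2 := by
    rw [hE2]; apply Real.exp_le_exp.mpr; linarith
  have he34 : Real.exp (-(3 / 4) * u) ≤ E2 := by
    rw [hE2]; apply Real.exp_le_exp.mpr; linarith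
  have he341 : Real.exp (-(3 / 4) * u) ≤ 1 := by
    rw [Real.exp_le_one_iff]; linarith
  have hsq34 : Real.exp (-(3 / 4) * u) * Real.sqrt (u + 1) ≤ E2 := by
    have h1 : Real.sqrt (u + 1) ≤ Real.exp (u / 2) := by
      rw [Real.sqrt_le_left (Real.exp_pos _).le, ← Real.exp_nat_mul]
      have := Real.add_one_le_exp u
      convert this using 2
      push_cast; ring
    calc Real.exp (-(3 / 4) * u) * Real.sqrt (u + 1) ≤
        Real.exp (-(3 / 4) * u) * Real.exp (u / 2) := by gcongr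
      _ = E2 := by rw [hE2, ← Real.exp_add]; congr 1; ring
  have sX : Real.sqrt X ≤ Real.sqrt W * Lm * Real.sqrt T * (1 + C4) * Real.exp (-u ^ 2 / 4) := by
    rw [Real.sqrt_le_left (by positivity)]
    have e1 : (Real.sqrt W * Lm * Real.sqrt T * (1 + C4) * Real.exp (-u ^ 2 / 4)) ^ 2 =
        W * Lm ^ 2 * (T * (1 + C4) ^ 2 * Real.exp (-u ^ 2 / 2)) := by
      rw [mul_pow, mul_pow, mul_pow, mul_pow, Real.sq_sqrt hW0, Real.sq_sqrt hT0.le,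
        ← Real.exp_nat_mul]
      have : ((2 : ℕ) : ℝ) * (-u ^ 2 / 4) = -u ^ 2 / 2 := by push_cast; ring
      rw [this]; ring
    rw [e1, hXdef]
    have e2 : Real.exp (-u ^ 2) ≤ Real.exp (-u ^ 2 / 2) := by
      exact Real.exp_le_exp.mpr (NL.a4 u)
    have e3 : T / (2 * Real.pi) ≤ T := by
      rw [div_le_iff₀ (by positivity)]
      exact NL.a5 hT0.le
    have e5 : T / (2 * Real.pi) * Real.exp (-u ^ 2) + C4 * κe * Real.exp (-u ^ 2 / 2) ≤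
        T * (1 + C4) ^ 2 * Real.exp (-u ^ 2 / 2) := by
      calc T / (2 * Real.pi) * Real.exp (-u ^ 2) + C4 * κe * Real.exp (-u ^ 2 / 2) ≤
          T * Real.exp (-u ^ 2 / 2) + C4 * T * Real.exp (-u ^ 2 / 2) := by gcongr
        _ = T * (1 + C4) * Real.exp (-u ^ 2 / 2) := by ring
        _ ≤ T * (1 + C4) ^ 2 * Real.exp (-u ^ 2 / 2) := by
          have : (1 + C4) ≤ (1 + C4) ^ 2 := NL.a6 hC4.le
          gcongr
    gcongr
  have sY : Real.sqrt (Y u) ≤ Real.sqrt T * Real.sqrt (u + 1) * (Real.sqrt y1 + Real.sqrt y2) := by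
    rw [Real.sqrt_le_left (by positivity)]
    rw [mul_pow, mul_pow, Real.sq_sqrt hT0.le, Real.sq_sqrt (by linarith)]
    refine (hYb u ⟨hu0, huΛ⟩).trans ?_
    have e1 : (Real.sqrt y1 + Real.sqrt y2) ^ 2 ≥ y1 + y2 := by
      exact NL.a7 hy1 hy2
    calc T * (y1 * (u + 1) + y2) ≤ T * ((u + 1) * (y1 + y2)) := by
          apply mul_le_mul_of_nonneg_left _ hT0.le
          exact NL.a8 hu0 hy2
      _ ≤ T * ((u + 1) * (Real.sqrt y1 + Real.sqrt y2) ^ 2) := by gcongr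
      _ = _ := by ring
  have sZ : Real.sqrt Z ≤ Real.sqrt W * G1 * Real.sqrt T * (1 + C3) := by
    rw [Real.sqrt_le_left (by positivity)]
    have e1 : (Real.sqrt W * G1 * Real.sqrt T * (1 + C3)) ^ 2 =
        W * G1 ^ 2 * (T * (1 + C3) ^ 2) := by
      calc (Real.sqrt W * G1 * Real.sqrt T * (1 + C3)) ^ 2 =
          (Real.sqrt W) ^ 2 * G1 ^ 2 *
            ((Real.sqrt T) ^ 2 * (1 + C3) ^ 2) := by ring
        _ = _ := by rw [Real.sq_sqrt hW0, Real.sq_sqrt hT0.le]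
    rw [e1, hZdef]
    have : T + C3 ≤ T * (1 + C3) ^ 2 := NL.a9 hT1 hC3
    exact mul_le_mul_of_nonneg_left this (by positivity)
  set S := Real.sqrt y1 + Real.sqrt y2 with hS
  have hS0 : 0 ≤ S := by positivity
  set rW := Real.sqrt W with hrW
  have hrW0 : 0 ≤ rW := Real.sqrt_nonneg _
  have hrWW : rW * rW = W := Real.mul_self_sqrt hW0
  have hTT : Real.sqrt T * Real.sqrt T = T := Real.mul_self_sqrt hT0.le
  have cXY : Real.sqrt X * Real.sqrt (Y u) ≤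
      (1 + C4) * Real.exp 1 * (rW * Lm * T * S) * E2 := by
    calc Real.sqrt X * Real.sqrt (Y u) ≤
        (rW * Lm * Real.sqrt T * (1 + C4) * Real.exp (-u ^ 2 / 4)) *
          (Real.sqrt T * Real.sqrt (u + 1) * S) := by gcongr
      _ = (1 + C4) * (rW * Lm * (Real.sqrt T * Real.sqrt T) * S) *
          (Real.exp (-u ^ 2 / 4) * Real.sqrt (u + 1)) := by ring
      _ ≤ (1 + C4) * (rW * Lm * (Real.sqrt T * Real.sqrt T) * S) *
          (Real.exp 1 * Real.exp (-u / 2)) :=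
          mul_le_mul_of_nonneg_left (fa_arith1 u) (by positivity)
      _ ≤ (1 + C4) * (rW * Lm * (Real.sqrt T * Real.sqrt T) * S) *
          (Real.exp 1 * E2) := by gcongr
      _ = _ := by rw [hTT]; ring
  have cXZ : Real.sqrt X * Real.sqrt Z ≤
      (1 + C4) * (4 * C1) * (1 + C3) * (W * (E * Lm * T)) * E2 := by
    calc Real.sqrt X * Real.sqrt Z ≤
        (rW * Lm * Real.sqrt T * (1 + C4) * Real.exp (-u ^ 2 / 4)) *
          (rW * G1 * Real.sqrt T * (1 + C3)) := by gcongr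
      _ = (1 + C4) * (4 * C1) * (1 + C3) * ((rW * rW) * (E * Lm * (Real.sqrt T * Real.sqrt T))) *
          (Real.exp (-u ^ 2 / 4) * Real.exp (-(3 / 4) * u)) := by rw [hG1]; ring
      _ ≤ (1 + C4) * (4 * C1) * (1 + C3) * ((rW * rW) * (E * Lm * (Real.sqrt T * Real.sqrt T))) *
          (1 * E2) := by
          have : Real.exp (-u ^ 2 / 4) ≤ 1 := by
            exact Real.exp_le_one_iff.mpr (NL.a10 u)
          gcongr
      _ = _ := by rw [hTT, hrWW]; ring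
  have cYZ : Real.sqrt (Y u) * Real.sqrt Z ≤
      4 * C1 * (1 + C3) * (rW * Lm * T * S) * E2 := by
    calc Real.sqrt (Y u) * Real.sqrt Z ≤
        (Real.sqrt T * Real.sqrt (u + 1) * S) *
          (rW * G1 * Real.sqrt T * (1 + C3)) := by gcongr
      _ = 4 * C1 * (1 + C3) * (rW * E * (Real.sqrt T * Real.sqrt T) * S) *
          (Real.exp (-(3 / 4) * u) * Real.sqrt (u + 1)) := by rw [hG1]; ring
      _ ≤ 4 * C1 * (1 + C3) * (rW * Lm * (Real.sqrt T * Real.sqrt T) * S) * E2 := by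
          gcongr
      _ = _ := by rw [hTT]
  have cZ : Z ≤ (4 * C1) ^ 2 * (1 + C3) ^ 2 * (W * (E * Lm * T)) * E2 := by
    calc Z ≤ W * G1 ^ 2 * (T * (1 + C3) ^ 2) := by
          have : T + C3 ≤ T * (1 + C3) ^ 2 := NL.a9 hT1 hC3
          rw [hZdef]
          gcongr
      _ = (4 * C1) ^ 2 * (1 + C3) ^ 2 * (W * (E * E * T)) *
          (Real.exp (-(3 / 4) * u) * Real.exp (-(3 / 4) * u)) := by rw [hG1]; ring
      _ ≤ (4 * C1) ^ 2 * (1 + C3) ^ 2 * (W * (E * Lm * T)) * (1 * E2) := by gcongr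
      _ = _ := by ring
  have cX : X ≤ W * Lm ^ 2 * (T / (2 * Real.pi) * Real.exp (-u ^ 2)) +
      Real.exp 1 * C4 * (W * (Lm ^ 2 * κe)) * E2 := by
    have := fa_arith3 u
    have e1 : W * Lm ^ 2 * (C4 * κe * Real.exp (-u ^ 2 / 2)) ≤
        W * Lm ^ 2 * (C4 * κe * (Real.exp 1 * E2)) := by
      have : 0 ≤ κe := by linarith
      have e7 : Real.exp (-u ^ 2 / 2) ≤ Real.exp 1 * E2 :=
        (fa_arith3 u).trans (by gcongr)
      gcongr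
    rw [hXdef, mul_add]
    have e2 : W * Lm ^ 2 * (C4 * κe * (Real.exp 1 * E2)) =
      Real.exp 1 * C4 * (W * (Lm ^ 2 * κe)) * E2 := by ring
    linarith
  have cO : W * (100 * (6 * C5) ^ 2 * (T * Real.exp (-u))) ≤
      100 * (6 * C5) ^ 2 * (W * (E * Lm * T)) * E2 := by
    have e3 : T ≤ E * Lm * T := le_mul_of_one_le_left hT0.le (NL.a1 hE1 hLm)
    calc W * (100 * (6 * C5) ^ 2 * (T * Real.exp (-u))) =
        100 * (6 * C5) ^ 2 * (W * T) * Real.exp (-u) := by ring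
      _ ≤ _ := by gcongr
  -- final
  set D1 := W * (Lm ^ 2 * κe) with hD1
  set D2 := W * (E * Lm * T) with hD2
  set D3 := rW * Lm * T * S with hD3
  have d1 : 0 ≤ D1 * E2 := by
    have : 0 ≤ κe := by linarith
    positivity
  have d2 : 0 ≤ D2 * E2 := by positivity
  have d3 : 0 ≤ D3 * E2 := by positivity
  have k1 : 0 < Real.exp 1 * C4 := by positivity
  have k2 : 0 < (1 + C4) * Real.exp 1 := by positivity
  have k3 : 0 < (1 + C4) * (4 * C1) * (1 + C3) := by positivity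
  have k4 : 0 < 4 * C1 * (1 + C3) := by positivity
  have k5 : 0 < (4 * C1) ^ 2 * (1 + C3) ^ 2 := by positivity
  have k6 : 0 < 100 * (6 * C5) ^ 2 := by positivity
  set K1 := Real.exp 1 * C4 with hK1
  set K2 := (1 + C4) * Real.exp 1
  set K3 := (1 + C4) * (4 * C1) * (1 + C3)
  set K4 := 4 * C1 * (1 + C3)
  set K5 := (4 * C1) ^ 2 * (1 + C3) ^ 2
  set K6 := 100 * (6 * C5) ^ 2
  have key : (K1 * (D1 * E2) + 2 * (K2 * (D3 * E2) + K3 * (D2 * E2) + K4 * (D3 * E2)) +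
      K5 * (D2 * E2) + K6 * (D2 * E2)) ≤
      (K1 + 2 * (K2 + K3 + K4) + K5 + K6) * (D1 * E2 + D2 * E2 + D3 * E2) := by
    generalize D1 * E2 = g1 at *
    generalize D2 * E2 = g2 at *
    generalize D3 * E2 = g3 at *
    have e1 : (K1 + 2 * (K2 + K3 + K4) + K5 + K6) * (g1 + g2 + g3) -
        (K1 * g1 + 2 * (K2 * g3 + K3 * g2 + K4 * g3) + K5 * g2 + K6 * g2) =
        K1 * (g2 + g3) + 2 * (K2 * (g1 + g2) + K3 * (g1 + g3) + K4 * (g1 + g2)) +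
        K5 * (g1 + g3) + K6 * (g1 + g3) := by ring
    have e2 : 0 ≤ K1 * (g2 + g3) + 2 * (K2 * (g1 + g2) + K3 * (g1 + g3) + K4 * (g1 + g2)) +
        K5 * (g1 + g3) + K6 * (g1 + g3) := by positivity
    linarith
  have e0 : (K1 + 2 * (K2 + K3 + K4) + K5 + K6) * (D1 * E2 + D2 * E2 + D3 * E2) =
      (K1 + 2 * (K2 + K3 + K4) + K5 + K6) * (D1 + D2 + D3) * E2 := by ring
  calc ∑ i ∈ s, ω i * ∫ t : ℝ, ‖BB (F i) (V i).1 (V i).2 T u t‖ ^ 2 ≤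
      X + Y u + Z + 2 * (Real.sqrt X * Real.sqrt (Y u) + Real.sqrt X * Real.sqrt Z +
        Real.sqrt (Y u) * Real.sqrt Z) + W * (K6 * (T * Real.exp (-u))) := by
        linarith
    _ ≤ W * Lm ^ 2 * (T / (2 * Real.pi) * Real.exp (-u ^ 2)) + Y u +
        (K1 * (D1 * E2) + 2 * (K2 * (D3 * E2) + K3 * (D2 * E2) + K4 * (D3 * E2)) +
      K5 * (D2 * E2) + K6 * (D2 * E2)) := by
        linarith
    _ ≤ _ := by linarith

theorem fb_exp_int (Λ : ℝ) : ∫ u in (0 : ℝ)..Λ, Real.exp (-u / 4) ≤ 4 := by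
  have : ∫ u in (0 : ℝ)..Λ, Real.exp (-u / 4) = 4 - 4 * Real.exp (-Λ / 4) := by
    have hd : ∀ x ∈ Set.uIcc 0 Λ, HasDerivAt (fun u : ℝ => -4 * Real.exp (-u / 4))
        (Real.exp (-x / 4)) x := by
      intro x _
      have h1 : HasDerivAt (fun u : ℝ => -u / 4) (-1 / 4) x := by
        simpa using (hasDerivAt_id x).neg.div_const 4
      have h2 := (h1.exp).const_mul (-4)
      exact h2.congr_deriv (by ring)
    rw [intervalIntegral.integral_eq_sub_of_hasDerivAt hd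
      ((by fun_prop : Continuous (fun u : ℝ => Real.exp (-u / 4))).intervalIntegrable _ _)]
    simp
    ring
  rw [this]
  have := Real.exp_pos (-Λ / 4)
  linarith

end fb

theorem fa_coreB_of (γ : ℝ) (h0 : 0 < γ) (hπ : γ < Real.pi) (A : ℝ) (hA : 1 ≤ A)
    (hfin : ∀ (ℒ E H q0 : ℝ) (F : ℂ → ℂ) (a : ℕ → ℂ), GoodB A ℒ E H q0 F a → ∀ T1 T2 : ℝ,
      (zset F T1 T2).Finite)
    (hcnt : ∃ C : ℝ, 0 < C ∧
      ∀ (ℒ E H q0 : ℝ) (F : ℂ → ℂ) (a : ℕ → ℂ), GoodB A ℒ E H q0 F a → ∀ T1 T2 : ℝ, T1 + 1 ≤ T2 →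
        |T1| + 3 ≤ H → |T2| + 3 ≤ H → (NN F T1 T2 : ℝ) ≤ C * (T2 - T1) * ℒ)
    (hA1 : ∃ C : ℝ, 0 < C ∧
      ∀ (ℒ E H q0 : ℝ) (F : ℂ → ℂ) (a : ℕ → ℂ), GoodB A ℒ E H q0 F a →
      ∀ T κ : ℝ, 1 ≤ T → 3 ≤ κ → 2 * T + 3 * κ + 6 ≤ H →
      ∃ V1 V2 : ℝ, T - 3 * κ ≤ V1 ∧ V1 ≤ T - 3 * κ + 1 ∧ 2 * T + 3 * κ - 1 ≤ V2 ∧
        V2 ≤ 2 * T + 3 * κ ∧
        ∀ u m : ℝ, 0 ≤ u → V1 + κ ≤ m → m ≤ V2 - κ →
          ‖A1 F V1 V2 u m - (1 / (2 * Real.sqrt Real.pi) : ℝ) *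
            (((q0 : ℝ) : ℂ) * cexp (I * m * u) * Real.exp (-u ^ 2 / 4) - PP1 a u m)‖ ≤
          C * (E * Real.exp (-(3 / 4) * u) + ℒ ^ 2 * Real.exp (u - κ ^ 2 / 2)))
    (hBB : ∀ (F : ℂ → ℂ) (a : ℕ → ℂ) (d : ℝ), 0 ≤ d →
      (∀ n, ‖a n‖ ≤ d * ArithmeticFunction.vonMangoldt n) → ∀ (Lq V1 V2 T κ u E : ℝ),
      (zset F V1 V2).Finite → 3 ≤ κ → 1 ≤ T → V1 ≤ T - 3 * κ + 1 → 2 * T + 3 * κ - 1 ≤ V2 →
      (∀ m : ℝ, V1 + κ ≤ m → m ≤ V2 - κ →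
        ‖A1 F V1 V2 u m - (1 / (2 * Real.sqrt Real.pi) : ℝ) *
          (Lq * cexp (I * m * u) * Real.exp (-u ^ 2 / 4) - PP1 a u m)‖ ≤ E) →
      ∀ t : ℝ, T - 3 * κ ≤ t → t ≤ 2 * T + 3 * κ →
      ‖BB F V1 V2 T u t - (Lq * bt T u t 0 -
        ∑' n : ℕ, a n * ((Real.sqrt n : ℂ)⁻¹ * bt T u t (Real.log n)))‖ ≤ 2 * E * wt T t) :
    ∃ K : ℝ, 0 < K ∧ ∀ {ι : Type} (s : Finset ι) (ω q0 : ι → ℝ) (F : ι → ℂ → ℂ)
      (a : ι → ℕ → ℂ) (T κ κe Λ ℒ E H y1 y2 : ℝ) (Y : ℝ → ℝ),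
      (∀ i ∈ s, 0 ≤ ω i ∧ GoodB A ℒ E H (q0 i) (F i) (a i)) → 1 ≤ ℒ → 1 ≤ E → E ≤ ℒ →
      1 ≤ T → 3 ≤ κ → 3 ≤ κe → κe ≤ T → T ≤ Real.exp (κe ^ 2 / 2) → 2 * T + 3 * κ + 6 ≤ H →
      1 ≤ Λ → (T + κ) ^ 2 * ℒ ^ 2 * Real.exp (2 * Λ - κ ^ 2 / 2) ≤ 1 → 0 ≤ y1 → 0 ≤ y2 →
      (∀ u ∈ Set.Icc 0 Λ,
        ∫ t : ℝ, ∑ i ∈ s, ω i *
          ‖∑' n : ℕ, a i n * ((Real.sqrt n : ℂ)⁻¹ * bt T u t (Real.log n))‖ ^ 2 ≤ Y u) →
      (∀ u ∈ Set.Icc 0 Λ, Y u ≤ T * (y1 * (u + 1) + y2)) →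
      IntervalIntegrable Y volume 0 Λ →
      ∃ V1 V2 : ι → ℝ, (∀ i ∈ s, T - 3 * κ ≤ V1 i ∧ V1 i ≤ T - 3 * κ + 1 ∧
          2 * T + 3 * κ - 1 ≤ V2 i ∧ V2 i ≤ 2 * T + 3 * κ) ∧
        ∑ i ∈ s, ω i * ((2 / (Real.sqrt Real.pi * Λ)) * (∫ u in (0 : ℝ)..Λ, Rw γ (u / Λ) *
          ∫ t : ℝ, ‖BB (F i) (V1 i) (V2 i) T u t‖ ^ 2)) ≤
        (∑ i ∈ s, ω i) * (2 * ℒ) ^ 2 * Rw γ 0 * T / (2 * Real.pi * Λ) +
        (2 / (Real.sqrt Real.pi * Λ)) * (∫ u in (0 : ℝ)..Λ, Rw γ (u / Λ) * Y u) +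
        K * ((∑ i ∈ s, ω i) * (ℒ ^ 2 * κe / Λ + E * ℒ * T / Λ) +
          Real.sqrt (∑ i ∈ s, ω i) * ℒ * T * (Real.sqrt y1 + Real.sqrt y2) / Λ) := by
  obtain ⟨K, hK, hfix⟩ := fb_fixed_u A hfin hcnt hA1 hBB
  have hR0 : 0 ≤ Rw γ 0 := H385.Rw_nonneg γ h0 hπ 0
  have hRc := H385.fa_Rw_cont γ h0 hπ
  refine ⟨32 * (Rw γ 0 + 1) * K / Real.sqrt Real.pi, by positivity, ?_⟩
  intro ι s ω q0 F a T κ κe Λ ℒ E H y1 y2 Y hs hℒ hE1 hEL hT1 hκ hκe hκeT hTκ hH hΛ hbig hy1 hy2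
    hY hYb hYi
  obtain ⟨V1, V2, hV, hu⟩ := hfix s ω q0 F a T κ κe Λ ℒ E H y1 y2 Y hs hℒ hE1 hEL hT1 hκ hκe
    hκeT hTκ hH hΛ hbig hy1 hy2 hY hYb
  refine ⟨V1, V2, fun i hi => (hV i hi).2, ?_⟩
  have hT0 : 0 < T := by linarith
  have hΛ0 : 0 < Λ := by linarith
  have hκ0 : 0 < κe := by linarith
  have hℒ0 : 0 < ℒ := by linarith
  have hE0 : 0 < E := by linarith
  set W := ∑ i ∈ s, ω i with hW
  have hW0 : 0 ≤ W := Finset.sum_nonneg fun i hi => (hs i hi).1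
  set D0 := W * (ℒ ^ 2 * κe) + W * (E * ℒ * T) +
    Real.sqrt W * ℒ * T * (Real.sqrt y1 + Real.sqrt y2) with hD0d
  set D := W * ((2 * ℒ) ^ 2 * κe) + W * (E * (2 * ℒ) * T) +
    Real.sqrt W * (2 * ℒ) * T * (Real.sqrt y1 + Real.sqrt y2) with hD
  have hD0 : 0 ≤ D := by positivity
  have hDD0 : D ≤ 4 * D0 := by
    have p2 : 0 ≤ W * (E * ℒ * T) := by positivity
    have p3 : 0 ≤ Real.sqrt W * ℒ * T * (Real.sqrt y1 + Real.sqrt y2) := by positivity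
    rw [hD, hD0d]
    linarith
  set G : ι → ℝ → ℝ := fun i u => ∫ t : ℝ, ‖BB (F i) (V1 i) (V2 i) T u t‖ ^ 2 with hG
  have hGc : ∀ i ∈ s, Continuous (G i) := fun i hi =>
    (H385.BB_int (F i) (V1 i) (V2 i) T (hV i hi).1).2
  have hRc2 : Continuous (fun u : ℝ => Rw γ (u / Λ)) := hRc.comp (by fun_prop)
  have hlhs : ∑ i ∈ s, ω i * ((2 / (Real.sqrt Real.pi * Λ)) *
      (∫ u in (0 : ℝ)..Λ, Rw γ (u / Λ) * G i u)) =
      (2 / (Real.sqrt Real.pi * Λ)) * ∫ u in (0 : ℝ)..Λ, Rw γ (u / Λ) * ∑ i ∈ s, ω i * G i u := by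
    have e1 : ∀ u, Rw γ (u / Λ) * ∑ i ∈ s, ω i * G i u =
        ∑ i ∈ s, ω i * (Rw γ (u / Λ) * G i u) := by
      intro u
      rw [Finset.mul_sum]
      apply Finset.sum_congr rfl
      intro i _
      ring
    simp_rw [e1]
    rw [intervalIntegral.integral_finsetSum, Finset.mul_sum]
    · apply Finset.sum_congr rfl
      intro i _
      rw [intervalIntegral.integral_const_mul]
      ring
    · intro i hi
      exact (continuous_const.mul (hRc2.mul (hGc i hi))).intervalIntegrable _ _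
  show ∑ i ∈ s, ω i * ((2 / (Real.sqrt Real.pi * Λ)) *
      (∫ u in (0 : ℝ)..Λ, Rw γ (u / Λ) * G i u)) ≤ _
  rw [hlhs]
  have hgi : IntervalIntegrable (fun u : ℝ => Rw γ 0 * (W * (2 * ℒ) ^ 2 * (T / (2 * Real.pi)) *
      Real.exp (-u ^ 2))) volume 0 Λ :=
    (by fun_prop : Continuous (fun u : ℝ => Rw γ 0 * (W * (2 * ℒ) ^ 2 * (T / (2 * Real.pi)) *
      Real.exp (-u ^ 2)))).intervalIntegrable _ _
  have hYi2 : IntervalIntegrable (fun u : ℝ => Rw γ (u / Λ) * Y u) volume 0 Λ :=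
    hYi.continuousOn_mul hRc2.continuousOn
  have hei : IntervalIntegrable (fun u : ℝ => Rw γ 0 * (K * D * Real.exp (-u / 4))) volume 0 Λ :=
    (by fun_prop : Continuous (fun u : ℝ => Rw γ 0 * (K * D *
      Real.exp (-u / 4)))).intervalIntegrable _ _
  have hint : ∫ u in (0 : ℝ)..Λ, Rw γ (u / Λ) * ∑ i ∈ s, ω i * G i u ≤
      ∫ u in (0 : ℝ)..Λ, (Rw γ 0 * (W * (2 * ℒ) ^ 2 * (T / (2 * Real.pi)) * Real.exp (-u ^ 2)) +
        Rw γ (u / Λ) * Y u + Rw γ 0 * (K * D * Real.exp (-u / 4))) := by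
    apply intervalIntegral.integral_mono_on hΛ0.le _ ((hgi.add hYi2).add hei)
    · intro u hu'
      have h1 := hu u hu'
      have hr0 := H385.Rw_nonneg γ h0 hπ (u / Λ)
      have hr1 : Rw γ (u / Λ) ≤ Rw γ 0 := H385.fa_Rw_le γ h0 hπ (div_nonneg hu'.1 hΛ0.le)
      calc Rw γ (u / Λ) * ∑ i ∈ s, ω i * G i u ≤
          Rw γ (u / Λ) * (W * (2 * ℒ) ^ 2 * (T / (2 * Real.pi) * Real.exp (-u ^ 2)) + Y u +
          K * D * Real.exp (-u / 4)) := mul_le_mul_of_nonneg_left h1 hr0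
        _ = Rw γ (u / Λ) * (W * (2 * ℒ) ^ 2 * (T / (2 * Real.pi)) * Real.exp (-u ^ 2)) +
            Rw γ (u / Λ) * Y u + Rw γ (u / Λ) * (K * D * Real.exp (-u / 4)) := by ring
        _ ≤ _ := by gcongr
    · apply Continuous.intervalIntegrable
      exact hRc2.mul (continuous_finsetSum _ fun i hi => continuous_const.mul (hGc i hi))
  rw [intervalIntegral.integral_add (hgi.add hYi2) hei,
    intervalIntegral.integral_add hgi hYi2, intervalIntegral.integral_const_mul,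
    intervalIntegral.integral_const_mul, intervalIntegral.integral_const_mul,
    intervalIntegral.integral_const_mul] at hint
  have hg1 := H385.fa_gauss_int Λ hΛ0.le
  have he1 := fb_exp_int Λ
  have hsp : 0 < Real.sqrt Real.pi := Real.sqrt_pos.mpr Real.pi_pos
  have hc0 : 0 < 2 / (Real.sqrt Real.pi * Λ) := by positivity
  set IY := ∫ u in (0 : ℝ)..Λ, Rw γ (u / Λ) * Y u with hIY
  have hfin2 : ∫ u in (0 : ℝ)..Λ, Rw γ (u / Λ) * ∑ i ∈ s, ω i * G i u ≤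
      Rw γ 0 * (W * (2 * ℒ) ^ 2 * (T / (2 * Real.pi)) * (Real.sqrt Real.pi / 2)) + IY +
        (Rw γ 0 + 1) * (K * (4 * D0) * 4) := by
    refine hint.trans ?_
    have e1 : Rw γ 0 * (W * (2 * ℒ) ^ 2 * (T / (2 * Real.pi)) *
        ∫ u in (0 : ℝ)..Λ, Real.exp (-u ^ 2)) ≤
        Rw γ 0 * (W * (2 * ℒ) ^ 2 * (T / (2 * Real.pi)) * (Real.sqrt Real.pi / 2)) := by gcongr
    have e2 : Rw γ 0 * (K * D * ∫ u in (0 : ℝ)..Λ, Real.exp (-u / 4)) ≤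
        (Rw γ 0 + 1) * (K * (4 * D0) * 4) := by
      calc Rw γ 0 * (K * D * ∫ u in (0 : ℝ)..Λ, Real.exp (-u / 4)) ≤
          Rw γ 0 * (K * D * 4) := by gcongr
        _ ≤ (Rw γ 0 + 1) * (K * D * 4) := by
          apply mul_le_mul_of_nonneg_right (by linarith) (by positivity)
        _ ≤ _ := by gcongr
    linarith
  calc (2 / (Real.sqrt Real.pi * Λ)) * ∫ u in (0 : ℝ)..Λ, Rw γ (u / Λ) * ∑ i ∈ s, ω i * G i u
      ≤ (2 / (Real.sqrt Real.pi * Λ)) * (Rw γ 0 * (W * (2 * ℒ) ^ 2 * (T / (2 * Real.pi)) *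
        (Real.sqrt Real.pi / 2)) + IY + (Rw γ 0 + 1) * (K * (4 * D0) * 4)) :=
        mul_le_mul_of_nonneg_left hfin2 hc0.le
    _ = _ := by
        rw [hD0d]
        field_simp
        ring

end Pool.Agent.Helper13.LZ
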