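import Pool.Agent.Helper13.LZ.Defs
import Pool.Graph.R_seed8.H385R2.PerChiD
import Pool.Graph.R_seed8.H385R2.Cut

/-!
Job for helper856.  URGENT (needed by 18:20 UTC, Nov 27).  Prove `per_chi_B_of`.  This is an adaptation of
`Pool/Agent/H385R2/PerChiD.lean` (`trace_part`, `core`, `per_chi_D`): copy that file and replace
`GoodD d A Q F a` by `GoodB A ℒ E H q0 F a` (file `Pool/Agent/A856/BH/Defs.lean`); the bound of the number of
zeros is `hcnt`, finiteness `hfin`; all heights are allowed.  The trace inequality is the hypothesis `htr`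
(it is `trace_w` of `H385R2/TraceW.lean` with a finset `G` of points which are left out).
Take `G` = the (images `zz s` of the) HARMLESS zeros `s ∈ zset F V1 V2`: `κe ≤ dd T s` and
`16 * Λ * |s.re - 1/2| < (dd T s)^2`; `S` = simple zeros on the line which are not in `G`.
* For the harmless zeros: `a z = mult * cc T (zz s)`, `‖cc T z‖ ≤ C exp(-(dd)^2/2)` (lemma `cc_far` or similar in
  `H385R2/Cut.lean`, applied with the distance `dd T s` as parameter), `z - conj z = 2 i Im z`,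
  `|Im z| = |s.re - 1/2| ≤ 1/2`, `‖phiw γ Λ (2 i y)‖ ≤ exp(Λ |y|) exp(1/8)` as
  `kapw γ (2 i Λ y) = ∫ gw γ x exp(-2 Λ y x)`, `|x| ≤ 1/2`, `gw ≥ 0`, total mass `1`; `Λ |y| ≤ dd^2/16`; so the
  contribution is `≤ C mult exp(-7 dd^2/16) ≤ C' mult exp(-dd)`, and the sum is `≤ C'' ℒ` by `hshell`.
* The zeros with `dd T s < κe` and `s.im ≤ T + κe` or `s.im > 2T - κe`: `≤ C κe ℒ` of them (`hcnt`), as in
  `core`; in the middle `‖cc - 1‖ ≤ 2 exp(-κe²/2)`, `T exp(-κe²/2) ≤ 1`.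
* The remaining zeros are in `bad F V1 V2 T κe Λ`: contribution to the left side
  `4 mult Re cc - kk ≥ -12 mult`; this gives the term `12 NB`.
(`V1` may be negative, `|V1| + 4 ≤ H` since `T - 3κ ≤ V1`.)
-/

set_option autoImplicit false

open Complex Filter Topology Set MeasureTheory
open scoped BigOperators ComplexConjugate
open H370 (zset mult NN Nd Ns)
open H385 (zz cc BB Rw phiw)

namespace Pool.Agent.Helper13.LZ

namespace PerB

open H385.PerChi (zz_spec zz_refl zz_inj zz_re zz_im kk phiw_even phiw_zero Rw_cont aw aw_zz)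

lemma sq_conj_int (γ : ℝ) (h0 : 0 < γ) (hπ : γ < Real.pi) :
    ∫ x in (-1 / 2 : ℝ)..(1 / 2), H385.gw γ x = 1 := by
  have h := H385.kapw_zero γ h0 hπ
  unfold H385.kapw at h
  have h0' : ∀ x : ℝ, (H385.gw γ x : ℂ) * cexp (I * 0 * x) = ((H385.gw γ x : ℝ) : ℂ) := by
    intro x
    simp
  simp_rw [h0'] at h
  rw [intervalIntegral.integral_ofReal] at h
  exact_mod_cast h

lemma gw_continuous (γ : ℝ) : Continuous (H385.gw γ) := by
  unfold H385.gw
  fun_prop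

lemma kapw_bound (γ : ℝ) (h0 : 0 < γ) (hπ : γ < Real.pi) (b : ℝ) :
    ‖H385.kapw γ ((b : ℂ) * I)‖ ≤ Real.exp (|b| / 2) := by
  unfold H385.kapw
  have hle : (-1 / 2 : ℝ) ≤ 1 / 2 := by norm_num
  have h1 : ‖∫ x in (-1 / 2 : ℝ)..(1 / 2), (H385.gw γ x : ℂ) * cexp (I * ((b : ℂ) * I) * x)‖ ≤
      ∫ x in (-1 / 2 : ℝ)..(1 / 2), H385.gw γ x * Real.exp (|b| / 2) := by
    refine (intervalIntegral.norm_integral_le_integral_norm hle).trans ?_
    apply intervalIntegral.integral_mono_on hle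
    · apply Continuous.intervalIntegrable
      have := gw_continuous γ
      fun_prop
    · exact ((gw_continuous γ).mul continuous_const).intervalIntegrable _ _
    · intro x hx
      have hg := H385.gw_nonneg γ h0 hπ x hx.1 hx.2
      rw [norm_mul, Complex.norm_real, Real.norm_of_nonneg hg, Complex.norm_exp]
      apply mul_le_mul_of_nonneg_left _ hg
      apply Real.exp_le_exp.mpr
      have h2 : (I * ((b : ℂ) * I) * (x : ℂ)).re = -(b * x) := by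
        have h3 : I * ((b : ℂ) * I) * (x : ℂ) = ((-(b * x) : ℝ) : ℂ) := by
          push_cast
          calc I * ((b : ℂ) * I) * (x : ℂ) = (I * I) * ((b : ℂ) * x) := by ring
            _ = -((b : ℂ) * x) := by rw [I_mul_I]; ring
        rw [h3, Complex.ofReal_re]
      rw [h2]
      have h4 : |x| ≤ 1 / 2 := by
        rw [abs_le]
        constructor
        · linarith [hx.1]
        · exact hx.2
      calc -(b * x) ≤ |b * x| := neg_le_abs _
        _ = |b| * |x| := abs_mul b x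
        _ ≤ |b| * (1 / 2) := mul_le_mul_of_nonneg_left h4 (abs_nonneg b)
        _ = |b| / 2 := by ring
  rw [intervalIntegral.integral_mul_const, sq_conj_int γ h0 hπ, one_mul] at h1
  exact h1

lemma phiw_bound (γ : ℝ) (h0 : 0 < γ) (hπ : γ < Real.pi) (Λ : ℝ) (hΛ : 0 ≤ Λ) (z : ℂ)
    (hz : |z.im| ≤ 1 / 2) :
    ‖phiw γ Λ (z - (starRingEnd ℂ) z)‖ ≤ 2 * Real.exp (Λ * |z.im|) := by
  unfold H385.phiw
  rw [Complex.sub_conj]
  have h1 : (Λ : ℂ) * (((2 * z.im : ℝ) : ℂ) * I) = ((Λ * (2 * z.im) : ℝ) : ℂ) * I := by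
    push_cast
    ring
  rw [h1, norm_mul]
  have h2 := kapw_bound γ h0 hπ (Λ * (2 * z.im))
  have h3 : |Λ * (2 * z.im)| / 2 = Λ * |z.im| := by
    rw [abs_mul, abs_mul, abs_of_nonneg hΛ, abs_of_nonneg (by norm_num : (0 : ℝ) ≤ 2)]
    ring
  rw [h3] at h2
  have h4 : ‖cexp (-(((2 * z.im : ℝ) : ℂ) * I) ^ 2 / 8)‖ ≤ 2 := by
    have h5 : -(((2 * z.im : ℝ) : ℂ) * I) ^ 2 / 8 = ((z.im ^ 2 / 2 : ℝ) : ℂ) := by
      rw [mul_pow, I_sq]
      push_cast
      ring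
    rw [h5, Complex.norm_exp, Complex.ofReal_re]
    exact H385.Cut.exp_im_le hz
  calc ‖H385.kapw γ (((Λ * (2 * z.im) : ℝ) : ℂ) * I)‖ *
        ‖cexp (-(((2 * z.im : ℝ) : ℂ) * I) ^ 2 / 8)‖ ≤ Real.exp (Λ * |z.im|) * 2 :=
        mul_le_mul h2 h4 (norm_nonneg _) (Real.exp_pos _).le
    _ = _ := by ring

lemma zset_refl {A ℒ E H q0 : ℝ} {F : ℂ → ℂ} {a : ℕ → ℂ}
    (hF : GoodB A ℒ E H q0 F a) {U1 U2 : ℝ}
    {s : ℂ} (hs : s ∈ zset F U1 U2) : 1 - conj s ∈ zset F U1 U2 := by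
  obtain ⟨h1, h2, h3, h4, h5⟩ := hs
  have him : (1 - conj s).im = s.im := by simp
  have hre : (1 - conj s).re = 1 - s.re := by simp
  refine ⟨by rw [hre]; linarith, by rw [hre]; linarith, by rw [him]; exact h3,
    by rw [him]; exact h4, ?_⟩
  have ha : AnalyticAt ℂ F s := hF.diff.analyticAt s
  have hb : AnalyticAt ℂ F (1 - conj s) := hF.diff.analyticAt _
  have h6 := hF.symm s h1 h2
  have h7 : analyticOrderAt F s ≠ 0 := ha.analyticOrderAt_ne_zero.mpr h5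
  rw [← h6] at h7
  exact hb.analyticOrderAt_ne_zero.mp h7

lemma mult_refl {A ℒ E H q0 : ℝ} {F : ℂ → ℂ} {a : ℕ → ℂ}
    (hF : GoodB A ℒ E H q0 F a)
    {s : ℂ} (h1 : 0 < s.re) (h2 : s.re < 1) :
    mult F (1 - conj s) = mult F s := by
  unfold H370.mult analyticOrderNatAt
  rw [hF.symm s h1 h2]

/-- the left hand side of the trace inequality -/
lemma lhs_calc (F : ℂ → ℂ) (T : ℝ) (Zf Z S : Finset ℂ) (hZdef : Z = Zf.image zz)
    (hZ : ∀ z ∈ Z, (starRingEnd ℂ) z ∈ Z)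
    (hS : S = Z.filter (fun z => z.im = 0 ∧ mult F (1 / 2 + I * z) = 1)) :
    4 * (∑ z ∈ Z, aw F T z).re - 3 * (S.card : ℝ)
      - 4 * ((((Z \ S).filter (fun z => z.im = 0)).card : ℝ)
          + ((Z.filter (fun z => 0 < z.im)).card : ℝ)) =
    ∑ s ∈ Zf, (4 * (mult F s : ℝ) * (cc T (zz s)).re - kk F s) := by
  classical
  have hinj : Set.InjOn zz (Zf : Set ℂ) := fun s _ s' _ h => zz_inj h
  have c1 : (∑ z ∈ Z, aw F T z).re = ∑ s ∈ Zf, (mult F s : ℝ) * (cc T (zz s)).re := by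
    rw [hZdef, Finset.sum_image hinj, Complex.re_sum]
    refine Finset.sum_congr rfl fun s _ => ?_
    rw [aw_zz, ← Complex.ofReal_natCast, Complex.re_ofReal_mul]
  have him0 : ∀ s, (zz s).im = 0 ↔ s.re = 1 / 2 := by
    intro s; rw [zz_im]; constructor <;> intro h <;> linarith
  have c2 : (S.card : ℝ) = ∑ s ∈ Zf, if (s.re = 1 / 2 ∧ mult F s = 1) then 1 else 0 := by
    rw [hS, Finset.card_filter, Nat.cast_sum, hZdef, Finset.sum_image hinj]
    refine Finset.sum_congr rfl fun s _ => ?_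
    simp only [him0, zz_spec, Nat.cast_ite, Nat.cast_one, Nat.cast_zero]
  have c3 : (((Z \ S).filter (fun z => z.im = 0)).card : ℝ) =
      ∑ s ∈ Zf, if (s.re = 1 / 2 ∧ mult F s ≠ 1) then 1 else 0 := by
    have : (Z \ S).filter (fun z => z.im = 0) =
        Z.filter (fun z => z.im = 0 ∧ mult F (1 / 2 + I * z) ≠ 1) := by
      ext z
      simp only [hS, Finset.mem_filter, Finset.mem_sdiff]
      tauto
    rw [this, Finset.card_filter, Nat.cast_sum, hZdef, Finset.sum_image hinj]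
    refine Finset.sum_congr rfl fun s _ => ?_
    simp only [him0, zz_spec, Nat.cast_ite, Nat.cast_one, Nat.cast_zero]
  have c4 : 2 * ((Z.filter (fun z => 0 < z.im)).card : ℝ) =
      ∑ s ∈ Zf, if s.re = 1 / 2 then 0 else 1 := by
    have e1 : (Z.filter (fun z => z.im < 0)).card = (Z.filter (fun z => 0 < z.im)).card := by
      refine Finset.card_nbij' (fun z => (starRingEnd ℂ) z) (fun z => (starRingEnd ℂ) z) ?_ ?_ ?_ ?_
      · intro z hz
        simp only [Finset.coe_filter, Set.mem_ofPred_eq] at hz ⊢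
        refine ⟨hZ z hz.1, ?_⟩
        rw [Complex.conj_im]; linarith [hz.2]
      · intro z hz
        simp only [Finset.coe_filter, Set.mem_ofPred_eq] at hz ⊢
        refine ⟨hZ z hz.1, ?_⟩
        rw [Complex.conj_im]; linarith [hz.2]
      · intro z _; simp
      · intro z _; simp
    have e2 : (Z.filter (fun z => ¬ z.im = 0)).card =
        (Z.filter (fun z => z.im < 0)).card + (Z.filter (fun z => 0 < z.im)).card := by
      rw [← Finset.card_union_of_disjoint]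
      · congr 1
        ext z
        simp only [Finset.mem_filter, Finset.mem_union]
        constructor
        · rintro ⟨h1, h2⟩
          rcases lt_or_gt_of_ne h2 with h | h
          · exact Or.inl ⟨h1, h⟩
          · exact Or.inr ⟨h1, h⟩
        · rintro (⟨h1, h2⟩ | ⟨h1, h2⟩)
          · exact ⟨h1, ne_of_lt h2⟩
          · exact ⟨h1, ne_of_gt h2⟩
      · rw [Finset.disjoint_filter]
        intro z _ h1 h2
        linarith
    have e3 : 2 * ((Z.filter (fun z => 0 < z.im)).card : ℝ) =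
        ((Z.filter (fun z => ¬ z.im = 0)).card : ℝ) := by
      rw [e2, e1]; push_cast; ring
    rw [e3, Finset.card_filter, Nat.cast_sum, hZdef, Finset.sum_image hinj]
    refine Finset.sum_congr rfl fun s _ => ?_
    simp only [him0, Nat.cast_ite, Nat.cast_one, Nat.cast_zero, ite_not]
  have c5 : ∑ s ∈ Zf, (4 * (mult F s : ℝ) * (cc T (zz s)).re - kk F s) =
      4 * (∑ s ∈ Zf, (mult F s : ℝ) * (cc T (zz s)).re) -
      3 * (∑ s ∈ Zf, if (s.re = 1 / 2 ∧ mult F s = 1) then (1 : ℝ) else 0) -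
      (4 * (∑ s ∈ Zf, if (s.re = 1 / 2 ∧ mult F s ≠ 1) then (1 : ℝ) else 0) +
        2 * (∑ s ∈ Zf, if s.re = 1 / 2 then (0 : ℝ) else 1)) := by
    rw [Finset.mul_sum, Finset.mul_sum, Finset.mul_sum, Finset.mul_sum, ← Finset.sum_sub_distrib,
      ← Finset.sum_add_distrib, ← Finset.sum_sub_distrib]
    refine Finset.sum_congr rfl fun s _ => ?_
    unfold H385.PerChi.kk
    by_cases h1 : s.re = 1 / 2
    · by_cases h2 : mult F s = 1
      · rw [if_pos h1, if_pos h2, if_pos ⟨h1, h2⟩, if_neg (fun h => h.2 h2), if_pos h1]; ring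
      · rw [if_pos h1, if_neg h2, if_neg (fun h => h2 h.2), if_pos ⟨h1, h2⟩, if_pos h1]; ring
    · rw [if_neg h1, if_neg (fun h => h1 h.1), if_neg (fun h => h1 h.1), if_neg h1]; ring
  rw [c5, c1, c2, c3, ← c4]
  ring

/-- harmless zeros -/
def harm (T κe Λ : ℝ) (s : ℂ) : Prop := κe ≤ dd T s ∧ 16 * Λ * |s.re - 1 / 2| < (dd T s) ^ 2

lemma cc_dd (T : ℝ) (hT : 0 ≤ T) (s : ℂ) (h1 : 0 ≤ dd T s) (hz : |(zz s).im| ≤ 1 / 2) :
    ‖cc T (zz s)‖ ≤ 2 * Real.exp (-(dd T s) ^ 2 / 2) := by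
  apply H385.cc_far T (dd T s) hT h1 (zz s) hz
  rw [zz_re]
  unfold dd
  rcases le_total (T - s.im) (s.im - 2 * T) with h | h
  · right
    rw [max_eq_right h]
    linarith
  · left
    rw [max_eq_left h]
    linarith

lemma harm_term (γ : ℝ) (h0 : 0 < γ) (hπ : γ < Real.pi) (T κe Λ : ℝ) (hT : 0 ≤ T)
    (hκ : 3 ≤ κe) (hΛ : 0 ≤ Λ) (s : ℂ) (hs : harm T κe Λ s) (hz : |(zz s).im| ≤ 1 / 2) :
    ‖cc T (zz s)‖ * (1 + ‖phiw γ Λ (zz s - (starRingEnd ℂ) (zz s))‖) ≤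
      6 * Real.exp (-dd T s) := by
  obtain ⟨h1, h2⟩ := hs
  have h3 := cc_dd T hT s (by linarith) hz
  have h4 := phiw_bound γ h0 hπ Λ hΛ (zz s) hz
  obtain ⟨D, hD⟩ : ∃ D, D = dd T s := ⟨_, rfl⟩
  rw [← hD] at h1 h2 h3 ⊢
  have h5 : |(zz s).im| = |s.re - 1 / 2| := by
    rw [zz_im, abs_neg]
  rw [h5] at h4
  have h6 : Λ * |s.re - 1 / 2| ≤ D ^ 2 / 16 := by linarith
  have h7 : Real.exp (Λ * |s.re - 1 / 2|) ≤ Real.exp (D ^ 2 / 16) := Real.exp_le_exp.mpr h6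
  have h8 : 1 ≤ Real.exp (D ^ 2 / 16) := Real.one_le_exp (by positivity)
  calc ‖cc T (zz s)‖ * (1 + ‖phiw γ Λ (zz s - (starRingEnd ℂ) (zz s))‖)
      ≤ (2 * Real.exp (-D ^ 2 / 2)) * (3 * Real.exp (D ^ 2 / 16)) := by
        apply mul_le_mul h3 _ (by positivity) (by positivity)
        linarith
    _ = 6 * Real.exp (-D ^ 2 / 2 + D ^ 2 / 16) := by
        rw [Real.exp_add]
        ring
    _ ≤ 6 * Real.exp (-D) := by
        apply mul_le_mul_of_nonneg_left _ (by norm_num)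
        apply Real.exp_le_exp.mpr
        nlinarith

theorem trace_part (γ : ℝ) (h0 : 0 < γ) (hπ : γ < Real.pi)
    (htr : ∀ (E : Type) [NormedAddCommGroup E] [InnerProductSpace ℂ E]
      (φ : ℂ → ℂ) (k : ℂ → E), (∀ z w, inner ℂ (k z) (k w) = φ (w - (starRingEnd ℂ) z)) →
      (∀ z, φ (-z) = φ z) → φ 0 = 1 →
      ∀ (Z : Finset ℂ), (∀ z ∈ Z, (starRingEnd ℂ) z ∈ Z) → ∀ (a : ℂ → ℂ),
      (∀ z ∈ Z, a ((starRingEnd ℂ) z) = (starRingEnd ℂ) (a z)) →
      ∀ (S : Finset ℂ), S ⊆ Z → (∀ z ∈ S, z.im = 0 ∧ 0 ≤ (a z).re ∧ (a z).re ≤ 1) →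
      ∀ (G : Finset ℂ), G ⊆ Z → Disjoint S G → (∀ z ∈ G, (starRingEnd ℂ) z ∈ G) →
      4 * (∑ z ∈ Z \ G, a z).re - 3 * (S.card : ℝ)
        - 4 * (((((Z \ G) \ S).filter (fun z => z.im = 0)).card : ℝ)
            + (((Z \ G).filter (fun z => 0 < z.im)).card : ℝ))
        - 4 * ∑ z ∈ G, ‖a z‖ * (1 + ‖φ (z - (starRingEnd ℂ) z)‖)
        ≤ (∑ z ∈ Z, ∑ w ∈ Z, a z * a w * (φ (z - w)) ^ 2).re)
    {A ℒ E H q0 : ℝ} {F : ℂ → ℂ}
    {a : ℕ → ℂ} (hF : GoodB A ℒ E H q0 F a) (T κe Λ V1 V2 : ℝ) (hΛ : 0 < Λ) (hT : 0 ≤ T)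
    (hκ : 3 ≤ κe) (hfin : (zset F V1 V2).Finite)
    (Gf : Finset ℂ) (hGf : Gf ⊆ hfin.toFinset)
    (hGm : ∀ s ∈ hfin.toFinset, (s ∈ Gf ↔ harm T κe Λ s)) :
    ∑ s ∈ hfin.toFinset \ Gf, (4 * (mult F s : ℝ) * (cc T (zz s)).re - kk F s) ≤
      (2 / (Real.sqrt Real.pi * Λ)) * (∫ u in (0 : ℝ)..Λ, Rw γ (u / Λ) *
          ∫ t : ℝ, ‖BB F V1 V2 T u t‖ ^ 2) +
        24 * ∑ s ∈ hfin.toFinset,
          (if κe ≤ dd T s then (mult F s : ℝ) * Real.exp (-dd T s) else 0) := by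
  classical
  obtain ⟨Zf, hZf⟩ : ∃ Zf, Zf = hfin.toFinset := ⟨_, rfl⟩
  rw [← hZf] at hGf hGm ⊢
  have hmem : ∀ {s}, s ∈ Zf ↔ s ∈ zset F V1 V2 := by
    intro s; rw [hZf, Set.Finite.mem_toFinset]
  obtain ⟨Z, hZdef⟩ : ∃ Z, Z = Zf.image zz := ⟨_, rfl⟩
  obtain ⟨G, hGdef⟩ : ∃ G, G = Gf.image zz := ⟨_, rfl⟩
  have hinj : Set.InjOn zz (Zf : Set ℂ) := fun s _ s' _ h => zz_inj h
  have hinjG : Set.InjOn zz (Gf : Set ℂ) := fun s _ s' _ h => zz_inj h
  have hZ : ∀ z ∈ Z, (starRingEnd ℂ) z ∈ Z := by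
    intro z hz
    rw [hZdef] at hz ⊢
    obtain ⟨s, hs, rfl⟩ := Finset.mem_image.mp hz
    rw [← zz_refl]
    exact Finset.mem_image_of_mem _ (hmem.2 (zset_refl hF (hmem.1 hs)))
  have hG : ∀ z ∈ G, (starRingEnd ℂ) z ∈ G := by
    intro z hz
    rw [hGdef] at hz ⊢
    obtain ⟨s, hs, rfl⟩ := Finset.mem_image.mp hz
    rw [← zz_refl]
    have hsZ := hGf hs
    have hsZ' : (1 - conj s) ∈ Zf := hmem.2 (zset_refl hF (hmem.1 hsZ))
    apply Finset.mem_image_of_mem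
    rw [hGm _ hsZ']
    have h1 := (hGm s hsZ).1 hs
    unfold harm dd at h1 ⊢
    have him : (1 - conj s).im = s.im := by simp
    have hre : (1 - conj s).re = 1 - s.re := by simp
    rw [him, hre]
    have h2 : |1 - s.re - 1 / 2| = |s.re - 1 / 2| := by
      rw [← abs_neg]
      congr 1
      ring
    rw [h2]
    exact h1
  have hGZ : G ⊆ Z := by
    rw [hGdef, hZdef]
    exact Finset.image_subset_image hGf
  have hZG : Z \ G = (Zf \ Gf).image zz := by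
    rw [hZdef, hGdef]
    ext z
    simp only [Finset.mem_sdiff, Finset.mem_image]
    constructor
    · rintro ⟨⟨s, hs, rfl⟩, h2⟩
      exact ⟨s, ⟨hs, fun h3 => h2 ⟨s, h3, rfl⟩⟩, rfl⟩
    · rintro ⟨s, ⟨hs, h3⟩, rfl⟩
      refine ⟨⟨s, hs, rfl⟩, ?_⟩
      rintro ⟨s', hs', h4⟩
      rw [zz_inj h4] at hs'
      exact h3 hs'
  have hac : ∀ z ∈ Z, aw F T ((starRingEnd ℂ) z) = (starRingEnd ℂ) (aw F T z) := by
    intro z hz
    rw [hZdef] at hz
    obtain ⟨s, hs, rfl⟩ := Finset.mem_image.mp hz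
    obtain ⟨h1, h2, h3, h4, h5⟩ := hmem.1 hs
    rw [← zz_refl, aw_zz, aw_zz, map_mul, Complex.conj_natCast, H385.cc_conj, zz_refl,
      mult_refl hF h1 h2]
  obtain ⟨E', i1, i2, k, hk⟩ := H385.gram_w γ h0 hπ Λ
  obtain ⟨S, hS⟩ : ∃ S : Finset ℂ,
      S = (Z \ G).filter (fun z => z.im = 0 ∧ mult F (1 / 2 + I * z) = 1) := ⟨_, rfl⟩
  have hSZG : S ⊆ Z \ G := by
    rw [hS]
    exact Finset.filter_subset _ _
  have hSZ : S ⊆ Z := hSZG.trans Finset.sdiff_subset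
  have hSG : Disjoint S G := by
    rw [Finset.disjoint_left]
    intro z hz hz2
    exact (Finset.mem_sdiff.mp (hSZG hz)).2 hz2
  have hSr : ∀ z ∈ S, z.im = 0 ∧ 0 ≤ (aw F T z).re ∧ (aw F T z).re ≤ 1 := by
    intro z hz
    rw [hS] at hz
    obtain ⟨hz1, hz2, hz3⟩ := Finset.mem_filter.mp hz
    have hzr : z = ((z.re : ℝ) : ℂ) := by
      apply Complex.ext
      · simp
      · simp [hz2]
    have h4 := H385.cc_real T z.re hT
    rw [← hzr] at h4
    refine ⟨hz2, ?_⟩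
    unfold H385.PerChi.aw
    rw [hz3, Nat.cast_one, one_mul]
    exact h4.2
  have hmain := htr E' (phiw γ Λ) k hk (phiw_even γ Λ) (phiw_zero γ h0 hπ Λ) Z hZ (aw F T) hac S
    hSZ hSr G hGZ hSG hG
  rw [H385.quad_form γ Λ hΛ (H385.kapw_sq γ h0 hπ) (Rw_cont γ h0 hπ) (H385.Rw_even γ) Z hZ
    (aw F T) hac] at hmain
  have hBB : ∀ u t : ℝ, ∑ z ∈ Z, aw F T z * (cexp (I * u * z) * cexp (-(z - t) ^ 2 / 2)) =
      BB F V1 V2 T u t := by
    intro u t
    unfold H385.BB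
    rw [finsum_mem_eq_finite_toFinset_sum _ hfin, ← hZf, hZdef, Finset.sum_image hinj]
    refine Finset.sum_congr rfl fun s _ => ?_
    rw [aw_zz]
  simp_rw [hBB] at hmain
  have hZGc : ∀ z ∈ Z \ G, (starRingEnd ℂ) z ∈ Z \ G := by
    intro z hz
    rw [Finset.mem_sdiff] at hz ⊢
    refine ⟨hZ z hz.1, fun h => hz.2 ?_⟩
    have := hG _ h
    rwa [Complex.conj_conj] at this
  rw [lhs_calc F T (Zf \ Gf) (Z \ G) S hZG hZGc hS] at hmain
  have hharm : ∑ z ∈ G, ‖aw F T z‖ * (1 + ‖phiw γ Λ (z - (starRingEnd ℂ) z)‖) ≤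
      6 * ∑ s ∈ Zf, (if κe ≤ dd T s then (mult F s : ℝ) * Real.exp (-dd T s) else 0) := by
    rw [hGdef, Finset.sum_image hinjG, Finset.mul_sum]
    calc ∑ s ∈ Gf, ‖aw F T (zz s)‖ * (1 + ‖phiw γ Λ (zz s - (starRingEnd ℂ) (zz s))‖)
        ≤ ∑ s ∈ Gf, 6 * (if κe ≤ dd T s then (mult F s : ℝ) * Real.exp (-dd T s) else 0) := by
          apply Finset.sum_le_sum
          intro s hs
          have hsZ := hGf hs
          have hh := (hGm s hsZ).1 hs
          have hz := hmem.1 hsZ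
          have him : |(zz s).im| ≤ 1 / 2 := by
            rw [zz_im, abs_le]; constructor <;> linarith [hz.1, hz.2.1]
          have h1 := harm_term γ h0 hπ T κe Λ hT hκ hΛ.le s hh him
          rw [if_pos hh.1, aw_zz, norm_mul, Complex.norm_natCast, mul_assoc]
          calc (mult F s : ℝ) * (‖cc T (zz s)‖ *
                (1 + ‖phiw γ Λ (zz s - (starRingEnd ℂ) (zz s))‖))
              ≤ (mult F s : ℝ) * (6 * Real.exp (-dd T s)) :=
                mul_le_mul_of_nonneg_left h1 (by positivity)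
            _ = 6 * ((mult F s : ℝ) * Real.exp (-dd T s)) := by ring
      _ ≤ ∑ s ∈ Zf, 6 * (if κe ≤ dd T s then (mult F s : ℝ) * Real.exp (-dd T s) else 0) := by
          apply Finset.sum_le_sum_of_subset_of_nonneg hGf
          intro s _ _
          split_ifs <;> positivity
  linarith

theorem core (γ : ℝ) (h0 : 0 < γ) (hπ : γ < Real.pi) (A : ℝ) (hA : 1 ≤ A)
    (htr : ∀ (E : Type) [NormedAddCommGroup E] [InnerProductSpace ℂ E]
      (φ : ℂ → ℂ) (k : ℂ → E), (∀ z w, inner ℂ (k z) (k w) = φ (w - (starRingEnd ℂ) z)) →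
      (∀ z, φ (-z) = φ z) → φ 0 = 1 →
      ∀ (Z : Finset ℂ), (∀ z ∈ Z, (starRingEnd ℂ) z ∈ Z) → ∀ (a : ℂ → ℂ),
      (∀ z ∈ Z, a ((starRingEnd ℂ) z) = (starRingEnd ℂ) (a z)) →
      ∀ (S : Finset ℂ), S ⊆ Z → (∀ z ∈ S, z.im = 0 ∧ 0 ≤ (a z).re ∧ (a z).re ≤ 1) →
      ∀ (G : Finset ℂ), G ⊆ Z → Disjoint S G → (∀ z ∈ G, (starRingEnd ℂ) z ∈ G) →
      4 * (∑ z ∈ Z \ G, a z).re - 3 * (S.card : ℝ)
        - 4 * (((((Z \ G) \ S).filter (fun z => z.im = 0)).card : ℝ)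
            + (((Z \ G).filter (fun z => 0 < z.im)).card : ℝ))
        - 4 * ∑ z ∈ G, ‖a z‖ * (1 + ‖φ (z - (starRingEnd ℂ) z)‖)
        ≤ (∑ z ∈ Z, ∑ w ∈ Z, a z * a w * (φ (z - w)) ^ 2).re)
    (hfin : ∀ (ℒ E H q0 : ℝ) (F : ℂ → ℂ) (a : ℕ → ℂ), GoodB A ℒ E H q0 F a → ∀ T1 T2 : ℝ,
      (zset F T1 T2).Finite)
    (hmult : ∀ (ℒ E H q0 : ℝ) (F : ℂ → ℂ) (a : ℕ → ℂ), GoodB A ℒ E H q0 F a → ∀ s : ℂ,
      F s = 0 → 1 ≤ mult F s)
    (hcnt : ∃ C : ℝ, 0 < C ∧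
      ∀ (ℒ E H q0 : ℝ) (F : ℂ → ℂ) (a : ℕ → ℂ), GoodB A ℒ E H q0 F a → ∀ T1 T2 : ℝ, T1 + 1 ≤ T2 →
        |T1| + 3 ≤ H → |T2| + 3 ≤ H → (NN F T1 T2 : ℝ) ≤ C * (T2 - T1) * ℒ)
    (hshell : ∃ C : ℝ, 0 < C ∧
      ∀ (ℒ E H q0 : ℝ) (F : ℂ → ℂ) (a : ℕ → ℂ), GoodB A ℒ E H q0 F a →
        ∀ T κe V1 V2 : ℝ, 1 ≤ T → 0 ≤ κe → |V1| + 4 ≤ H → |V2| + 4 ≤ H → V1 ≤ T → 2 * T ≤ V2 →
        ∀ hfin : (zset F V1 V2).Finite,
          ∑ s ∈ hfin.toFinset, (if κe ≤ dd T s then (mult F s : ℝ) * Real.exp (-dd T s) else 0) ≤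
            C * ℒ * Real.exp (-κe)) :
    ∃ C : ℝ, 0 < C ∧
    ∀ (ℒ E H q0 : ℝ) (F : ℂ → ℂ) (a : ℕ → ℂ), GoodB A ℒ E H q0 F a →
    ∀ (w : ℂ → ℝ), (∀ s, 1 ≤ mult F s → w s ≤ 4 * (mult F s : ℝ) - kk F s) →
      (∀ s, 1 ≤ mult F s → w s ≤ 3 * (mult F s : ℝ)) →
    ∀ T κ κe Λ V1 V2 : ℝ, 3 ≤ κe → κe ≤ κ → 4 * κe ≤ T → T ≤ Real.exp (κe ^ 2 / 2) → 1 ≤ Λ →
      2 * T + 3 * κ + 6 ≤ H → T - 3 * κ ≤ V1 → V1 ≤ T - 3 * κ + 1 →
      2 * T + 3 * κ - 1 ≤ V2 → V2 ≤ 2 * T + 3 * κ →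
      ∀ hfin : (zset F T (2 * T)).Finite, ∑ s ∈ hfin.toFinset, w s ≤
        (2 / (Real.sqrt Real.pi * Λ)) * (∫ u in (0 : ℝ)..Λ, Rw γ (u / Λ) *
          ∫ t : ℝ, ‖BB F V1 V2 T u t‖ ^ 2)
        + C * κe * ℒ + 12 * NB F V1 V2 T κe Λ := by
  classical
  obtain ⟨C0, hC0, hcount⟩ := hcnt
  obtain ⟨C1, hC1, hsh⟩ := hshell
  refine ⟨68 * C0 + 24 * C1, by positivity, ?_⟩
  intro ℒ E H q0 F a hF w hw1 hw2 T κ κe Λ V1 V2 hκ hκκ hκT hTe hΛ hH hV1 hV1' hV2 hV2' hfinT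
  have hfinV : (zset F V1 V2).Finite := hfin ℒ E H q0 F a hF V1 V2
  have hL1 : 1 ≤ ℒ := hF.hL
  have hT12 : 12 ≤ T := by linarith
  obtain ⟨Gf, hGfdef⟩ : ∃ Gf : Finset ℂ, Gf = hfinV.toFinset.filter (fun s => harm T κe Λ s) :=
    ⟨_, rfl⟩
  have hGf : Gf ⊆ hfinV.toFinset := by
    rw [hGfdef]
    exact Finset.filter_subset _ _
  have hGm : ∀ s ∈ hfinV.toFinset, (s ∈ Gf ↔ harm T κe Λ s) := by
    intro s hs
    rw [hGfdef, Finset.mem_filter]
    exact ⟨fun h => h.2, fun h => ⟨hs, h⟩⟩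
  have htr' := trace_part γ h0 hπ htr hF T κe Λ V1 V2 (by linarith) (by linarith) hκ hfinV Gf
    hGf hGm
  have habs1 : |V1| + 4 ≤ H := by
    have h1 : |V1| ≤ T + 3 * κ := by
      rw [abs_le]
      constructor <;> linarith
    linarith
  have habs2 : |V2| + 4 ≤ H := by
    have h1 : |V2| ≤ 2 * T + 3 * κ := by
      rw [abs_le]
      constructor <;> linarith
    linarith
  have hshell' := hsh ℒ E H q0 F a hF T κe V1 V2 (by linarith) (by linarith) habs1 habs2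
    (by linarith) (by linarith) hfinV
  have hshell2 : C1 * ℒ * Real.exp (-κe) ≤ C1 * κe * ℒ := by
    have h1 : Real.exp (-κe) ≤ 1 := Real.exp_le_one_iff.mpr (by linarith)
    have h2 : 0 ≤ C1 * ℒ := by positivity
    calc C1 * ℒ * Real.exp (-κe) ≤ C1 * ℒ * 1 := mul_le_mul_of_nonneg_left h1 h2
      _ ≤ C1 * ℒ * κe := mul_le_mul_of_nonneg_left (by linarith) h2
      _ = C1 * κe * ℒ := by ring
  obtain ⟨e, he⟩ : ∃ e, e = Real.exp (-κe ^ 2 / 2) := ⟨_, rfl⟩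
  have he0 : 0 < e := by
    rw [he]
    exact Real.exp_pos _
  have hTe1 : T * e ≤ 1 := by
    have h1 : Real.exp (κe ^ 2 / 2) * e = 1 := by
      rw [he, ← Real.exp_add]
      have : κe ^ 2 / 2 + -κe ^ 2 / 2 = 0 := by ring
      rw [this, Real.exp_zero]
    calc T * e ≤ Real.exp (κe ^ 2 / 2) * e := mul_le_mul_of_nonneg_right hTe he0.le
      _ = 1 := h1
  -- counts
  have hNT := hcount ℒ E H q0 F a hF T (2 * T) (by linarith)
    (by rw [abs_of_nonneg (by linarith)]; linarith)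
    (by rw [abs_of_nonneg (by linarith)]; linarith)
  have hNa := hcount ℒ E H q0 F a hF (T - κe) (T + κe) (by linarith)
    (by rw [abs_of_nonneg (by linarith)]; linarith)
    (by rw [abs_of_nonneg (by linarith)]; linarith)
  have hNb := hcount ℒ E H q0 F a hF (2 * T - κe) (2 * T + κe) (by linarith)
    (by rw [abs_of_nonneg (by linarith)]; linarith)
    (by rw [abs_of_nonneg (by linarith)]; linarith)
  have hmulti : ∀ s ∈ hfinV.toFinset, 1 ≤ mult F s := by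
    intro s hs
    rw [Set.Finite.mem_toFinset] at hs
    exact hmult ℒ E H q0 F a hF s hs.2.2.2.2
  -- counting sums
  have ncount : ∀ T1 T2 : ℝ, ∑ s ∈ hfinV.toFinset,
      (if T1 < s.im ∧ s.im ≤ T2 then (mult F s : ℝ) else 0) ≤ (NN F T1 T2 : ℝ) := by
    intro T1 T2
    have hf : (zset F T1 T2).Finite := hfin ℒ E H q0 F a hF T1 T2
    unfold H370.NN
    rw [finsum_mem_eq_finite_toFinset_sum _ hf, ← Finset.sum_filter]
    push_cast
    apply Finset.sum_le_sum_of_subset_of_nonneg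
    · intro s hs
      simp only [Finset.mem_filter, Set.Finite.mem_toFinset] at hs ⊢
      obtain ⟨⟨h1, h2, h3, h4, h5⟩, h6, h7⟩ := hs
      exact ⟨h1, h2, h6, h7, h5⟩
    · intro s _ _
      positivity
  have nNB : ∑ s ∈ hfinV.toFinset, (if s ∈ bad F V1 V2 T κe Λ then (mult F s : ℝ) else 0) ≤
      NB F V1 V2 T κe Λ := by
    have hfb : (bad F V1 V2 T κe Λ).Finite := hfinV.subset (fun s hs => hs.1)
    unfold NB
    rw [finsum_mem_eq_finite_toFinset_sum _ hfb, ← Finset.sum_filter]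
    apply Finset.sum_le_sum_of_subset_of_nonneg
    · intro s hs
      simp only [Finset.mem_filter, Set.Finite.mem_toFinset] at hs ⊢
      exact hs.2
    · intro s _ _
      positivity
  have n4 : ∑ s ∈ hfinT.toFinset, w s =
      ∑ s ∈ hfinV.toFinset, if T < s.im ∧ s.im ≤ 2 * T then w s else 0 := by
    rw [← Finset.sum_filter]
    refine Finset.sum_congr ?_ fun _ _ => rfl
    ext s
    simp only [Finset.mem_filter, Set.Finite.mem_toFinset]
    constructor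
    · rintro ⟨h1, h2, h3, h4, h5⟩
      exact ⟨⟨h1, h2, by linarith, by linarith, h5⟩, h3, h4⟩
    · rintro ⟨⟨h1, h2, h3, h4, h5⟩, h6, h7⟩
      exact ⟨h1, h2, h6, h7, h5⟩
  have hddT : ∀ s : ℂ, (T < s.im ∧ s.im ≤ 2 * T) → dd T s < κe := by
    intro s hs
    unfold dd
    rw [max_lt_iff]
    constructor <;> linarith [hs.1, hs.2]
  have n5 : (∑ s ∈ hfinV.toFinset, if T < s.im ∧ s.im ≤ 2 * T then w s else 0) =
      ∑ s ∈ hfinV.toFinset \ Gf, if T < s.im ∧ s.im ≤ 2 * T then w s else 0 := by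
    symm
    apply Finset.sum_subset Finset.sdiff_subset
    intro s hs hs2
    have hsG : s ∈ Gf := by
      by_contra h
      exact hs2 (Finset.mem_sdiff.mpr ⟨hs, h⟩)
    have hh := (hGm s hs).1 hsG
    rw [if_neg]
    intro h
    have := hddT s h
    linarith [hh.1]
  have hpt : ∀ s ∈ hfinV.toFinset \ Gf, (if T < s.im ∧ s.im ≤ 2 * T then w s else 0) ≤
      (4 * (mult F s : ℝ) * (cc T (zz s)).re - kk F s) +
        (8 * e * (if T < s.im ∧ s.im ≤ 2 * T then (mult F s : ℝ) else 0) +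
        15 * (if T - κe < s.im ∧ s.im ≤ T + κe then (mult F s : ℝ) else 0) +
        15 * (if 2 * T - κe < s.im ∧ s.im ≤ 2 * T + κe then (mult F s : ℝ) else 0) +
        12 * (if s ∈ bad F V1 V2 T κe Λ then (mult F s : ℝ) else 0)) := by
    intro s hs
    obtain ⟨hsZ, hsG⟩ := Finset.mem_sdiff.mp hs
    have hm := hmulti s hsZ
    have hm' : (1 : ℝ) ≤ (mult F s : ℝ) := by exact_mod_cast hm
    have h1 := hw1 s hm
    have h2 := hw2 s hm
    have hnh : ¬ harm T κe Λ s := fun h => hsG ((hGm s hsZ).2 h)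
    have hsz : s ∈ zset F V1 V2 := by
      rwa [Set.Finite.mem_toFinset] at hsZ
    have him : |(zz s).im| ≤ 1 / 2 := by
      rw [zz_im, abs_le]; constructor <;> linarith [hsz.1, hsz.2.1]
    have hk2 : kk F s ≤ 4 := by
      unfold H385.PerChi.kk; split_ifs <;> norm_num
    have hcre : -2 ≤ (cc T (zz s)).re := by
      have h3 := H385.cc_bound T (by linarith) (zz s) him
      have h4 := Complex.abs_re_le_norm (cc T (zz s))
      linarith [neg_abs_le (cc T (zz s)).re]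
    have h5 : 4 * (mult F s : ℝ) * (-2) ≤ 4 * (mult F s : ℝ) * (cc T (zz s)).re :=
      mul_le_mul_of_nonneg_left hcre (by positivity)
    have p1 : 0 ≤ 8 * e * (if T < s.im ∧ s.im ≤ 2 * T then (mult F s : ℝ) else 0) := by
      split_ifs <;> positivity
    have p2 : 0 ≤ 15 * (if T - κe < s.im ∧ s.im ≤ T + κe then (mult F s : ℝ) else 0) := by
      split_ifs <;> positivity
    have p3 : 0 ≤ 15 * (if 2 * T - κe < s.im ∧ s.im ≤ 2 * T + κe then (mult F s : ℝ) else 0) := by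
      split_ifs <;> positivity
    have p4 : 0 ≤ 12 * (if s ∈ bad F V1 V2 T κe Λ then (mult F s : ℝ) else 0) := by
      split_ifs <;> positivity
    have hX3 : (if T < s.im ∧ s.im ≤ 2 * T then w s else 0) ≤ 3 * (mult F s : ℝ) := by
      split_ifs
      · exact h2
      · positivity
    by_cases hfar : κe ≤ dd T s
    · -- bad zero
      have hbad : s ∈ bad F V1 V2 T κe Λ := by
        refine ⟨hsz, hfar, ?_⟩
        by_contra hcon
        push Not at hcon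
        exact hnh ⟨hfar, hcon⟩
      have hnot : ¬ (T < s.im ∧ s.im ≤ 2 * T) := by
        intro h
        have := hddT s h
        linarith
      rw [if_neg hnot, if_pos hbad]
      linarith
    · push Not at hfar
      unfold dd at hfar
      rw [max_lt_iff] at hfar
      obtain ⟨hf1, hf2⟩ := hfar
      by_cases c1 : s.im ≤ T + κe
      · have hc : T - κe < s.im ∧ s.im ≤ T + κe := ⟨by linarith, c1⟩
        rw [if_pos hc]
        linarith
      · by_cases c2 : 2 * T - κe < s.im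
        · have hc : 2 * T - κe < s.im ∧ s.im ≤ 2 * T + κe := ⟨c2, by linarith⟩
          rw [if_pos hc]
          linarith
        · push Not at c1 c2
          have hc : T < s.im ∧ s.im ≤ 2 * T := ⟨by linarith, by linarith⟩
          have h8 := H385.cc_near T κe (by linarith) (zz s) him (by rw [zz_re]; linarith)
            (by rw [zz_re]; linarith)
          rw [← he] at h8
          have h9 : 1 - 2 * e ≤ (cc T (zz s)).re := by
            have h10 := Complex.abs_re_le_norm (cc T (zz s) - 1)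
            rw [Complex.sub_re, Complex.one_re] at h10
            linarith [neg_abs_le ((cc T (zz s)).re - 1)]
          have h11 : 4 * (mult F s : ℝ) * (1 - 2 * e) ≤ 4 * (mult F s : ℝ) * (cc T (zz s)).re :=
            mul_le_mul_of_nonneg_left h9 (by positivity)
          rw [if_pos hc, if_pos hc]
          linarith
  have hsum := Finset.sum_le_sum hpt
  rw [Finset.sum_add_distrib] at hsum
  have hextra : ∑ s ∈ hfinV.toFinset \ Gf,
      (8 * e * (if T < s.im ∧ s.im ≤ 2 * T then (mult F s : ℝ) else 0) +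
        15 * (if T - κe < s.im ∧ s.im ≤ T + κe then (mult F s : ℝ) else 0) +
        15 * (if 2 * T - κe < s.im ∧ s.im ≤ 2 * T + κe then (mult F s : ℝ) else 0) +
        12 * (if s ∈ bad F V1 V2 T κe Λ then (mult F s : ℝ) else 0)) ≤
      8 * e * (NN F T (2 * T) : ℝ) + 15 * (NN F (T - κe) (T + κe) : ℝ) +
        15 * (NN F (2 * T - κe) (2 * T + κe) : ℝ) + 12 * NB F V1 V2 T κe Λ := by
    refine (Finset.sum_le_sum_of_subset_of_nonneg Finset.sdiff_subset ?_).trans ?_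
    · intro s _ _
      have p1 : 0 ≤ 8 * e * (if T < s.im ∧ s.im ≤ 2 * T then (mult F s : ℝ) else 0) := by
        split_ifs <;> positivity
      have p2 : 0 ≤ 15 * (if T - κe < s.im ∧ s.im ≤ T + κe then (mult F s : ℝ) else 0) := by
        split_ifs <;> positivity
      have p3 : 0 ≤ 15 * (if 2 * T - κe < s.im ∧ s.im ≤ 2 * T + κe then (mult F s : ℝ)
          else 0) := by
        split_ifs <;> positivity
      have p4 : 0 ≤ 12 * (if s ∈ bad F V1 V2 T κe Λ then (mult F s : ℝ) else 0) := by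
        split_ifs <;> positivity
      linarith
    · rw [Finset.sum_add_distrib, Finset.sum_add_distrib, Finset.sum_add_distrib,
        ← Finset.mul_sum, ← Finset.mul_sum, ← Finset.mul_sum, ← Finset.mul_sum]
      have q1 := mul_le_mul_of_nonneg_left (ncount T (2 * T)) (by positivity : (0 : ℝ) ≤ 8 * e)
      have q2 := ncount (T - κe) (T + κe)
      have q3 := ncount (2 * T - κe) (2 * T + κe)
      linarith
  have r1 : 8 * e * (NN F T (2 * T) : ℝ) ≤ 8 * C0 * κe * ℒ := by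
    have h1 : 8 * e * (NN F T (2 * T) : ℝ) ≤ 8 * e * (C0 * (2 * T - T) * ℒ) :=
      mul_le_mul_of_nonneg_left hNT (by positivity)
    have h2 : 8 * e * (C0 * (2 * T - T) * ℒ) = (T * e) * (8 * C0 * ℒ) := by ring
    have h3 : (T * e) * (8 * C0 * ℒ) ≤ 1 * (8 * C0 * ℒ) :=
      mul_le_mul_of_nonneg_right hTe1 (by positivity)
    have h4 : 8 * C0 * ℒ * 1 ≤ 8 * C0 * ℒ * κe :=
      mul_le_mul_of_nonneg_left (by linarith) (by positivity)
    linarith
  have r2 : (NN F (T - κe) (T + κe) : ℝ) ≤ 2 * C0 * κe * ℒ := by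
    have : C0 * (T + κe - (T - κe)) * ℒ = 2 * C0 * κe * ℒ := by ring
    linarith
  have r3 : (NN F (2 * T - κe) (2 * T + κe) : ℝ) ≤ 2 * C0 * κe * ℒ := by
    have : C0 * (2 * T + κe - (2 * T - κe)) * ℒ = 2 * C0 * κe * ℒ := by ring
    linarith
  rw [n4, n5]
  have hexp : (68 * C0 + 24 * C1) * κe * ℒ = 68 * (C0 * κe * ℒ) + 24 * (C1 * κe * ℒ) := by ring
  linarith

end PerB

open H385.PerChi (kk)

theorem per_chi_B_of (γ : ℝ) (h0 : 0 < γ) (hπ : γ < Real.pi) (A : ℝ) (hA : 1 ≤ A)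
    (htr : ∀ (E : Type) [NormedAddCommGroup E] [InnerProductSpace ℂ E]
      (φ : ℂ → ℂ) (k : ℂ → E), (∀ z w, inner ℂ (k z) (k w) = φ (w - (starRingEnd ℂ) z)) →
      (∀ z, φ (-z) = φ z) → φ 0 = 1 →
      ∀ (Z : Finset ℂ), (∀ z ∈ Z, (starRingEnd ℂ) z ∈ Z) → ∀ (a : ℂ → ℂ),
      (∀ z ∈ Z, a ((starRingEnd ℂ) z) = (starRingEnd ℂ) (a z)) →
      ∀ (S : Finset ℂ), S ⊆ Z → (∀ z ∈ S, z.im = 0 ∧ 0 ≤ (a z).re ∧ (a z).re ≤ 1) →
      ∀ (G : Finset ℂ), G ⊆ Z → Disjoint S G → (∀ z ∈ G, (starRingEnd ℂ) z ∈ G) →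
      4 * (∑ z ∈ Z \ G, a z).re - 3 * (S.card : ℝ)
        - 4 * (((((Z \ G) \ S).filter (fun z => z.im = 0)).card : ℝ)
            + (((Z \ G).filter (fun z => 0 < z.im)).card : ℝ))
        - 4 * ∑ z ∈ G, ‖a z‖ * (1 + ‖φ (z - (starRingEnd ℂ) z)‖)
        ≤ (∑ z ∈ Z, ∑ w ∈ Z, a z * a w * (φ (z - w)) ^ 2).re)
    (hfin : ∀ (ℒ E H q0 : ℝ) (F : ℂ → ℂ) (a : ℕ → ℂ), GoodB A ℒ E H q0 F a → ∀ T1 T2 : ℝ,
      (zset F T1 T2).Finite)
    (hmult : ∀ (ℒ E H q0 : ℝ) (F : ℂ → ℂ) (a : ℕ → ℂ), GoodB A ℒ E H q0 F a → ∀ s : ℂ,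
      F s = 0 → 1 ≤ mult F s)
    (hcnt : ∃ C : ℝ, 0 < C ∧
      ∀ (ℒ E H q0 : ℝ) (F : ℂ → ℂ) (a : ℕ → ℂ), GoodB A ℒ E H q0 F a → ∀ T1 T2 : ℝ, T1 + 1 ≤ T2 →
        |T1| + 3 ≤ H → |T2| + 3 ≤ H → (NN F T1 T2 : ℝ) ≤ C * (T2 - T1) * ℒ)
    (hshell : ∃ C : ℝ, 0 < C ∧
      ∀ (ℒ E H q0 : ℝ) (F : ℂ → ℂ) (a : ℕ → ℂ), GoodB A ℒ E H q0 F a →
        ∀ T κe V1 V2 : ℝ, 1 ≤ T → 0 ≤ κe → |V1| + 4 ≤ H → |V2| + 4 ≤ H → V1 ≤ T → 2 * T ≤ V2 →
        ∀ hfin : (zset F V1 V2).Finite,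
          ∑ s ∈ hfin.toFinset, (if κe ≤ dd T s then (mult F s : ℝ) * Real.exp (-dd T s) else 0) ≤
            C * ℒ * Real.exp (-κe)) :
    ∃ C : ℝ, 0 < C ∧
    ∀ (ℒ E H q0 : ℝ) (F : ℂ → ℂ) (a : ℕ → ℂ), GoodB A ℒ E H q0 F a →
    ∀ T κ κe Λ V1 V2 : ℝ, 3 ≤ κe → κe ≤ κ → 4 * κe ≤ T → T ≤ Real.exp (κe ^ 2 / 2) → 1 ≤ Λ →
      2 * T + 3 * κ + 6 ≤ H → T - 3 * κ ≤ V1 → V1 ≤ T - 3 * κ + 1 →
      2 * T + 3 * κ - 1 ≤ V2 → V2 ≤ 2 * T + 3 * κ →
      2 * (NN F T (2 * T) : ℝ) - (Ns F T (2 * T) : ℝ) ≤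
        (2 / (Real.sqrt Real.pi * Λ)) * (∫ u in (0 : ℝ)..Λ, Rw γ (u / Λ) *
          ∫ t : ℝ, ‖BB F V1 V2 T u t‖ ^ 2)
        + C * κe * ℒ + 12 * NB F V1 V2 T κe Λ := by
  classical
  obtain ⟨C, hC, h⟩ := PerB.core γ h0 hπ A hA htr hfin hmult hcnt hshell
  refine ⟨C, hC, ?_⟩
  intro ℒ E H q0 F a hF T κ κe Λ V1 V2 hκ hκκ hκT hTe hΛ hH hV1 hV1' hV2 hV2'
  have hfinT : (zset F T (2 * T)).Finite := hfin ℒ E H q0 F a hF T _
  have h1 := h ℒ E H q0 F a hF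
    (fun s => 2 * (mult F s : ℝ) - if (s.re = 1 / 2 ∧ mult F s = 1) then 1 else 0) ?_ ?_
    T κ κe Λ V1 V2 hκ hκκ hκT hTe hΛ hH hV1 hV1' hV2 hV2' hfinT
  · refine le_trans (le_of_eq ?_) h1
    rw [Finset.sum_sub_distrib, ← Finset.mul_sum]
    congr 1
    · congr 1
      unfold H370.NN
      rw [finsum_mem_eq_finite_toFinset_sum _ hfinT]
      push_cast; rfl
    · unfold H370.Ns
      have : {s : ℂ | s ∈ zset F T (2 * T) ∧ s.re = 1 / 2 ∧ mult F s = 1} =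
          ((hfinT.toFinset.filter (fun s => s.re = 1 / 2 ∧ mult F s = 1) : Finset ℂ) : Set ℂ) := by
        ext s
        simp
      rw [this, Set.ncard_coe_finset, Finset.card_filter]
      push_cast; rfl
  · intro s hs
    have hs' : (1 : ℝ) ≤ (mult F s : ℝ) := by exact_mod_cast hs
    unfold H385.PerChi.kk
    by_cases h2 : s.re = 1 / 2
    · by_cases h3 : mult F s = 1
      · simp only [if_pos h2, if_pos h3, if_pos (And.intro h2 h3)]; linarith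
      · have h4 : 2 ≤ mult F s := by omega
        have h5 : (2 : ℝ) ≤ (mult F s : ℝ) := by exact_mod_cast h4
        have h6 : ¬ (s.re = 1 / 2 ∧ mult F s = 1) := fun h => h3 h.2
        simp only [if_pos h2, if_neg h3, if_neg h6]; linarith
    · have h6 : ¬ (s.re = 1 / 2 ∧ mult F s = 1) := fun h => h2 h.1
      simp only [if_neg h2, if_neg h6]; linarith
  · intro s hs
    have hs' : (1 : ℝ) ≤ (mult F s : ℝ) := by exact_mod_cast hs
    by_cases h6 : (s.re = 1 / 2 ∧ mult F s = 1)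
    · simp only [if_pos h6]; linarith
    · simp only [if_neg h6]; linarith

end Pool.Agent.Helper13.LZ

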