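import Pool.Agent.Helper13.LZ.LocB
import Pool.Agent.Helper13.LZ.EFB
import Pool.Agent.Helper13.LZ.FamB
import Pool.Agent.Helper13.LZ.NLowB
import Pool.Agent.Helper13.LZ.PerB
import Pool.Graph.R_pool_sql_team_seeded_620a6dc7.A856.BH.TraceW2
import Pool.Graph.R_pool_sql_team_seeded_620a6dc7.A856.BH.BBB

/-!
# Zeros of bounded height: the inequality for a family

Adapted by helper13 from the library modules `A856.BH` (owner helper856): the coefficients are bounded by `A Λ(n)`.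
-/

set_option autoImplicit false

open Complex Filter Topology Set MeasureTheory
open Pool.Agent.A856.BH (BB_formulaB trace_w2)
open H370 (zset mult NN Nd Ns)
open H385 (A1 PP1 BB bt wt Rw Rw_nonneg)

namespace Pool.Agent.Helper13.LZ

theorem low_B (A : ℝ) (hA : 1 ≤ A) :
    ∃ C : ℝ, 0 < C ∧
    ∀ (ℒ E H q0 : ℝ) (F : ℂ → ℂ) (a : ℕ → ℂ), GoodB A ℒ E H q0 F a →
    ∀ T κ κe : ℝ, 3 ≤ κe → κe ≤ κ → 4 * κe ≤ T → T ≤ Real.exp (κe ^ 2 / 2) →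
      ℒ ^ 2 * Real.exp (-κ ^ 2 / 2) ≤ 1 → 2 * T + 3 * κ + 6 ≤ H →
      T / (2 * Real.pi) * q0 - C * (T * E + κe * ℒ) ≤ (NN F T (2 * T) : ℝ) :=
  N_lowerB_of A hA (fun _ _ _ _ _ _ hF T1 T2 => zfin hF T1 T2) (zcount_longB A hA)
    (A1_formulaB_of A hA (good_heightB A hA)) (shell A hA)

theorem fam_B (γ : ℝ) (h0 : 0 < γ) (hπ : γ < Real.pi) (A : ℝ) (hA : 1 ≤ A) :
    ∃ K : ℝ, 0 < K ∧ ∀ {ι : Type} (s : Finset ι) (ω q0 : ι → ℝ) (F : ι → ℂ → ℂ)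
      (a : ι → ℕ → ℂ) (T κ κe Λ ℒ E H y1 y2 : ℝ) (Y : ℝ → ℝ),
      (∀ i ∈ s, 0 ≤ ω i ∧ GoodB A ℒ E H (q0 i) (F i) (a i)) → 1 ≤ ℒ → 1 ≤ E → E ≤ ℒ →
      3 ≤ κe → κe ≤ κ → 4 * κe ≤ T → T ≤ Real.exp (κe ^ 2 / 2) → 2 * T + 3 * κ + 6 ≤ H →
      1 ≤ Λ → (T + κ) ^ 2 * ℒ ^ 2 * Real.exp (2 * Λ - κ ^ 2 / 2) ≤ 1 → 0 ≤ y1 → 0 ≤ y2 →
      (∀ u ∈ Set.Icc 0 Λ,
        ∫ t : ℝ, ∑ i ∈ s, ω i *
          ‖∑' n : ℕ, a i n * ((Real.sqrt n : ℂ)⁻¹ * bt T u t (Real.log n))‖ ^ 2 ≤ Y u) →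
      (∀ u ∈ Set.Icc 0 Λ, Y u ≤ T * (y1 * (u + 1) + y2)) →
      IntervalIntegrable Y volume 0 Λ →
      ∃ V1 V2 : ι → ℝ, (∀ i ∈ s, T - 3 * κ ≤ V1 i ∧ V1 i ≤ T - 3 * κ + 1 ∧
          2 * T + 3 * κ - 1 ≤ V2 i ∧ V2 i ≤ 2 * T + 3 * κ) ∧
        ∑ i ∈ s, ω i * (2 * (NN (F i) T (2 * T) : ℝ) - (Ns (F i) T (2 * T) : ℝ)) ≤
        (∑ i ∈ s, ω i) * (2 * ℒ) ^ 2 * Rw γ 0 * T / (2 * Real.pi * Λ) +
        (2 / (Real.sqrt Real.pi * Λ)) * (∫ u in (0 : ℝ)..Λ, Rw γ (u / Λ) * Y u) +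
        K * ((∑ i ∈ s, ω i) * (ℒ ^ 2 * κe / Λ + E * ℒ * T / Λ + κe * ℒ) +
          Real.sqrt (∑ i ∈ s, ω i) * ℒ * T * (Real.sqrt y1 + Real.sqrt y2) / Λ) +
        12 * ∑ i ∈ s, ω i * NB (F i) (V1 i) (V2 i) T κe Λ := by
  obtain ⟨K1, hK1, h1⟩ := fa_coreB_of γ h0 hπ A hA (fun _ _ _ _ _ _ hF T1 T2 => zfin hF T1 T2)
    (zcount_longB A hA) (A1_formulaB_of A hA (good_heightB A hA)) BB_formulaB
  obtain ⟨K2, hK2, h2⟩ := per_chi_B_of γ h0 hπ A hA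
    (fun E _ _ φ k hk hev h0 Z hZ a hac S hSZ hSr G hGZ hGS hG =>
      trace_w2 φ k hk hev h0 Z hZ a hac S hSZ hSr G hGZ hGS hG)
    (fun _ _ _ _ _ _ hF T1 T2 => zfin hF T1 T2)
    (fun _ _ _ _ _ _ hF s hs => mult_posB hF hs) (zcount_longB A hA) (shell A hA)
  refine ⟨K1 + K2, by positivity, ?_⟩
  intro ι s ω q0 F a T κ κe Λ ℒ E H y1 y2 Y hs hℒ hE1 hE2 hκe hκ hκT hTe hH hΛ hsm hy1 hy2 m1 m2 m3
  have hT1 : 1 ≤ T := by linarith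
  obtain ⟨V1, V2, hV, h3⟩ := h1 s ω q0 F a T κ κe Λ ℒ E H y1 y2 Y hs hℒ hE1 hE2 hT1
    (by linarith) hκe (by linarith) hTe hH hΛ hsm hy1 hy2 m1 m2 m3
  refine ⟨V1, V2, hV, ?_⟩
  have hW : 0 ≤ ∑ i ∈ s, ω i := Finset.sum_nonneg fun i hi => (hs i hi).1
  have h4 : ∀ i ∈ s, ω i * (2 * (NN (F i) T (2 * T) : ℝ) - (Ns (F i) T (2 * T) : ℝ)) ≤
      ω i * ((2 / (Real.sqrt Real.pi * Λ)) * (∫ u in (0 : ℝ)..Λ, Rw γ (u / Λ) *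
          ∫ t : ℝ, ‖BB (F i) (V1 i) (V2 i) T u t‖ ^ 2)) + (ω i * (K2 * κe * ℒ) +
        12 * (ω i * NB (F i) (V1 i) (V2 i) T κe Λ)) := by
    intro i hi
    obtain ⟨a1, a2, a3, a4⟩ := hV i hi
    have h5 := h2 ℒ E H (q0 i) (F i) (a i) (hs i hi).2 T κ κe Λ (V1 i) (V2 i) hκe hκ hκT hTe hΛ hH
      a1 a2 a3 a4
    have h6 := mul_le_mul_of_nonneg_left h5 (hs i hi).1
    refine h6.trans (le_of_eq ?_)
    ring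
  have h5 := Finset.sum_le_sum h4
  rw [Finset.sum_add_distrib, Finset.sum_add_distrib, ← Finset.sum_mul, ← Finset.mul_sum] at h5
  have hℒ0 : 0 < ℒ := by linarith
  have hΛ0 : 0 < Λ := by linarith
  have hT0 : 0 < T := by linarith
  have hE0 : 0 < E := by linarith
  have hκe0 : 0 < κe := by linarith
  have p1 : 0 ≤ K1 * ((∑ i ∈ s, ω i) * (κe * ℒ)) := by positivity
  have p2 : 0 ≤ K2 * ((∑ i ∈ s, ω i) * (ℒ ^ 2 * κe / Λ + E * ℒ * T / Λ) +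
          Real.sqrt (∑ i ∈ s, ω i) * ℒ * T * (Real.sqrt y1 + Real.sqrt y2) / Λ) := by positivity
  have e1 : (K1 + K2) * ((∑ i ∈ s, ω i) * (ℒ ^ 2 * κe / Λ + E * ℒ * T / Λ + κe * ℒ) +
          Real.sqrt (∑ i ∈ s, ω i) * ℒ * T * (Real.sqrt y1 + Real.sqrt y2) / Λ) =
      K1 * ((∑ i ∈ s, ω i) * (ℒ ^ 2 * κe / Λ + E * ℒ * T / Λ) +
          Real.sqrt (∑ i ∈ s, ω i) * ℒ * T * (Real.sqrt y1 + Real.sqrt y2) / Λ) +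
      (∑ i ∈ s, ω i) * (K2 * κe * ℒ) + K1 * ((∑ i ∈ s, ω i) * (κe * ℒ)) +
      K2 * ((∑ i ∈ s, ω i) * (ℒ ^ 2 * κe / Λ + E * ℒ * T / Λ) +
          Real.sqrt (∑ i ∈ s, ω i) * ℒ * T * (Real.sqrt y1 + Real.sqrt y2) / Λ) := by ring
  rw [e1]
  linarith

end Pool.Agent.Helper13.LZ
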