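import Pool.Agent.Helper13.LZ.Defs
import Pool.Agent.Helper13.ZH.Wn
import Pool.Graph.R_pool_sql_team_seeded_63374d34.N784.HC.MainN
import Pool.Graph.R_pool_sql_team_seeded_63374d34.N784.AD.Msp3

/-! # Statements of the parts (helper13)

Each `St...` is the exact statement of a part. -/

set_option autoImplicit false

open NumberField Filter Topology MeasureTheory

namespace Pool.Agent.Helper13.LZ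

open Pool.Agent.Y773 (LI cc TPos)
open Pool.Agent.Y773.G (cj)
open Pool.Agent.Y767 (Cls cK)
open Pool.Agent.Y773.IQ (LL)
open Pool.Agent.N786 (MSD)
open Pool.Agent.N784.AD (pi1 Un LSG EO)
open Pool.Agent.N784.HC (FamN IsHecke CTyp)
open ArithmeticFunction (vonMangoldt)
open H385 (Rw)

/-- P2: the Hecke L-functions, shifted vertically by `w`, satisfy `GoodB` -/
def StP2 : Prop := ∀ (K : Type) [Field K] [NumberField K] (n : (K →+* ℂ) → ℕ), CTyp n →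
  (∀ φ, 1 ≤ n φ + n (cj φ)) →
  ∃ A : ℝ, 1 ≤ A ∧ ∀ (𝔣 : Ideal (𝓞 K)) (ψ : Ideal (𝓞 K) →*₀ ℂ), 𝔣 ≠ ⊤ → IsHecke K 𝔣 n ψ →
    ∀ w H E ℒ : ℝ, 0 ≤ H → E = 1 + Real.log (1 + H + |w|) → E ≤ ℒ →
      Real.log (Ideal.absNorm 𝔣) ≤ 2 * ℒ →
      GoodB A ℒ E H (Real.log (Ideal.absNorm 𝔣)) (fun z => LL K ψ (z - (w : ℂ) * Complex.I))
        (fun m => cc ψ m * (vonMangoldt m : ℂ) * (m : ℂ) ^ ((w : ℂ) * Complex.I))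

/-- P4: the mean square at bounded heights -/
def StP4 : Prop := ∀ (c : ℕ → ℂ), W388.SelE c → ∀ d D : ℝ, 1 ≤ d → 1 ≤ D → ∀ γ β : ℝ,
  0 < γ → γ < Real.pi → 0 < β → ∀ ε CE : ℝ, 0 < ε → 0 ≤ CE →
  ∃ L0 η : ℝ, 1 ≤ L0 ∧ 0 < η ∧
  ∀ {ι : Type} (s : Finset ι) (a : ι → ℕ → ℂ) (q : ℕ) (L T κ : ℝ), s.Nonempty → L0 ≤ L →
    1 ≤ T → T ≤ Real.exp (κ ^ 2) → 1 ≤ κ → κ ≤ η * T → 1 ≤ q → Real.log q ≤ 2 * L →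
    (∀ i ∈ s, ∀ n : ℕ, ‖a i n‖ ≤ d * vonMangoldt n) →
    (∀ u ∈ Set.Icc 0 (β * L), ∃ A0 A1 : ℝ, 0 ≤ A0 ∧ 0 ≤ A1 ∧ LSG s a c q (D * s.card) A0 A1 ∧
      EO A0 A1 u ≤ CE * (L ^ (3 / 2 : ℝ) * Real.exp (-u / 32) + 1)) →
    MSD s (fun _ => (s.card : ℝ)⁻¹) a γ β (2 * β * (∫ α in (0 : ℝ)..1, α * Rw γ α) * D) ε L T

/-- P3: the large sieve for the family, also for short sums -/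
def StP3 : Prop := ∀ (K : Type) [Field K] [NumberField K] (n : (K →+* ℂ) → ℕ) (r : ℝ), 0 < r →
  r < 1 → ∃ CE δ N0 : ℝ, 0 ≤ CE ∧ 0 < δ ∧ 1 ≤ N0 ∧ ∀ (𝔮 : Ideal (𝓞 K)) (_ : 𝔮 ≠ ⊥)
    (htop : 𝔮 ≠ ⊤), (Un 𝔮 : ℝ) ≤ (Ideal.absNorm 𝔮 : ℝ) ^ δ → N0 ≤ (Ideal.absNorm 𝔮 : ℝ) →
    ∀ S : Finset (Ideal (𝓞 K) →*₀ ℂ), (∀ ψ ∈ S, ψ ∈ FamN n 𝔮) →
    ∀ W : ℝ, (Nat.card (Cls (pi1 htop)) : ℝ) ≤ W →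
    ∀ u ∈ Set.Icc 0 (r * Real.log (Ideal.absNorm 𝔮)), ∃ A0 A1 : ℝ, 0 ≤ A0 ∧ 0 ≤ A1 ∧
      LSG S (fun ψ m => cc ψ m * (vonMangoldt m : ℂ)) (cK K) (Ideal.absNorm 𝔮) W A0 A1 ∧
      EO A0 A1 u ≤ CE * (Real.log (Ideal.absNorm 𝔮) ^ (3 / 2 : ℝ) * Real.exp (-u / 32) + 1)

/-- P5: the zeros far from the interval and from the line, on average -/
def StP5 : Prop := ∀ (K : Type) [Field K] [NumberField K] (n : (K →+* ℂ) → ℕ), CTyp n → n ≠ 0 →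
  ∀ D : ℝ, 1 ≤ D → ∃ C η N0 : ℝ, 0 < C ∧ 0 < η ∧ 1 ≤ N0 ∧ ∀ (𝔮 : Ideal (𝓞 K)) (_ : 𝔮 ≠ ⊥)
    (htop : 𝔮 ≠ ⊤), N0 ≤ (Ideal.absNorm 𝔮 : ℝ) →
    ∀ S : Finset (Ideal (𝓞 K) →*₀ ℂ), (∀ ψ ∈ S, ψ ∈ FamN n 𝔮) →
    (Nat.card (Cls (pi1 htop)) : ℝ) ≤ D * S.card →
    ∀ (T κ κe Λ : ℝ) (V1 V2 : (Ideal (𝓞 K) →*₀ ℂ) → ℝ), 1 ≤ T →
    T ≤ (Ideal.absNorm 𝔮 : ℝ) ^ η → 1 ≤ κe → κe ≤ κ → κ ≤ (Ideal.absNorm 𝔮 : ℝ) ^ η →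
    0 < Λ → Λ ≤ Real.log (Ideal.absNorm 𝔮) → (Un 𝔮 : ℝ) ≤ Real.exp (κe ^ 2 / 32) →
    (∀ ψ ∈ S, T - 3 * κ ≤ V1 ψ ∧ V2 ψ ≤ 2 * T + 3 * κ) →
    ∑ ψ ∈ S, (S.card : ℝ)⁻¹ * NB (fun z => LL K ψ (z - ((3 / 2 * T : ℝ) : ℂ) * Complex.I))
      (V1 ψ) (V2 ψ) T κe Λ ≤ C * Real.log (Ideal.absNorm 𝔮)

end Pool.Agent.Helper13.LZ
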