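import Pool.Agent.Helper13.LZ.Cnt
import Pool.Agent.Helper13.LZ.Spec

/-! # The large sieve for the family, also for short sums (helper13) -/

set_option autoImplicit false
set_option linter.unusedSectionVars false

open NumberField Module Filter Topology

namespace Pool.Agent.Helper13.LZ

open Pool.Agent.Y773 (TPos cc)
open Pool.Agent.Y767 (Mq Mq_cop Mq_ne_bot Mq_cancel isUnit_mk Cls cls cls_eq cK)
open Pool.Agent.Y773.IQ (ne_zero_of_cop absNorm_pos')
open Pool.Agent.N784.AD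
open Pool.Agent.N784.HC (FamN ls_famN)
open ArithmeticFunction (vonMangoldt)

lemma sq_le_exp (ε : ℝ) (hε : 0 < ε) : ∃ K : ℝ, 1 ≤ K ∧ ∀ x : ℝ, 0 ≤ x →
    (x + 1) ^ 2 ≤ K * Real.exp (ε * x) := by
  obtain ⟨x0, hx0, h⟩ := exp_dom ε 1 hε
  refine ⟨(x0 + 1) ^ 2, by nlinarith, fun x hx => ?_⟩
  rcases le_or_gt x0 x with h1 | h1
  · have h2 := h x h1
    rw [one_mul] at h2
    have h3 : 1 ≤ (x0 + 1) ^ 2 := by nlinarith
    have h4 := (Real.exp_pos (ε * x)).le
    nlinarith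
  · have h2 : (x + 1) ^ 2 ≤ (x0 + 1) ^ 2 := pow_le_pow_left₀ (by linarith) (by linarith) 2
    have h3 : 1 ≤ Real.exp (ε * x) := Real.one_le_exp (by positivity)
    have h4 : 0 ≤ (x0 + 1) ^ 2 := by positivity
    nlinarith

section

variable (K : Type) [Field K] [NumberField K]

open Classical in
/-- the large sieve from a bound for the number of the pairs -/
theorem lsg_count (n : (K →+* ℂ) → ℕ) {𝔮 : Ideal (𝓞 K)} (hbot : 𝔮 ≠ ⊥) (htop : 𝔮 ≠ ⊤)
    (Y : Finset (Ideal (𝓞 K) →*₀ ℂ)) (hY : ∀ ψ ∈ Y, ψ ∈ FamN n 𝔮) (W : ℝ)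
    (hW : (Nat.card (Cls (pi1 htop)) : ℝ) ≤ W) (A0 A1 : ℝ) (hA0 : 0 ≤ A0) (hA1 : 0 ≤ A1)
    (hc : ∀ (S : Finset (Mq 𝔮)) (X Y : ℝ), 0 < X → 0 < Y →
      (∀ x ∈ S, Prime (x : Ideal (𝓞 K)) ∧ 2 ≤ Ideal.absNorm (x : Ideal (𝓞 K))) →
      (((prs htop S).filter (fun p => (X ≤ (Ideal.absNorm (p.1 : Ideal (𝓞 K)) : ℝ) ∧
      (Ideal.absNorm (p.1 : Ideal (𝓞 K)) : ℝ) ≤ 2 * X) ∧
      (Y ≤ (Ideal.absNorm (p.2 : Ideal (𝓞 K)) : ℝ) ∧
      (Ideal.absNorm (p.2 : Ideal (𝓞 K)) : ℝ) ≤ 2 * Y))).card : ℝ) ≤ A0 + A1 * (X * Y)) :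
    LSG Y (fun ψ m => cc ψ m * (vonMangoldt m : ℂ)) (cK K) (Ideal.absNorm 𝔮) W
      (16 * Cg ^ 2 * A0) (16 * Cg ^ 2 * A1) := by
  intro M b ω u hω hu hb
  refine (ls_famN hbot htop Y hY M b).trans ?_
  have hN : (1 : ℝ) ≤ (Ideal.absNorm 𝔮 : ℝ) := by exact_mod_cast absNorm_pos' hbot
  have hmem : ∀ p ∈ prs htop (SP 𝔮 M), p.1 ∈ SP 𝔮 M ∧ p.2 ∈ SP 𝔮 M := by
    intro p hp
    unfold prs at hp
    rw [Finset.mem_filter, Finset.mem_product] at hp
    exact hp.1
  have h1 : ∀ p ∈ prs htop (SP 𝔮 M),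
      (‖b (Ideal.absNorm (p.1 : Ideal (𝓞 K)))‖ * Real.log (Ideal.absNorm (p.1 : Ideal (𝓞 K)))) *
          (‖b (Ideal.absNorm (p.2 : Ideal (𝓞 K)))‖ *
            Real.log (Ideal.absNorm (p.2 : Ideal (𝓞 K)))) ≤
      ω ^ 2 * (gw u (Ideal.absNorm (p.1 : Ideal (𝓞 K))) *
        gw u (Ideal.absNorm (p.2 : Ideal (𝓞 K)))) := by
    intro p hp
    obtain ⟨h2, h3⟩ := hmem p hp
    have h4 := hb _ (prime_of_SP h2).2
    have h5 := hb _ (prime_of_SP h3).2
    have h6 : 0 ≤ ‖b (Ideal.absNorm (p.2 : Ideal (𝓞 K)))‖ *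
        Real.log (Ideal.absNorm (p.2 : Ideal (𝓞 K))) :=
      mul_nonneg (norm_nonneg _) (Real.log_natCast_nonneg _)
    refine (mul_le_mul h4 h5 h6 (mul_nonneg hω (gw_nonneg _ _))).trans (le_of_eq (by ring))
  have h2 := pairs_sum (prs htop (SP 𝔮 M))
    (fun p => Ideal.absNorm (p.1 : Ideal (𝓞 K))) (fun p => Ideal.absNorm (p.2 : Ideal (𝓞 K)))
    (fun p hp => (prime_of_SP (hmem p hp).1).2.one_lt.le)
    (fun p hp => (prime_of_SP (hmem p hp).2).2.one_lt.le)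
    A0 A1 hA0 hA1 (by
      intro X Y hX hY
      exact hc (SP 𝔮 M) X Y hX hY
        (fun x hx => ⟨(prime_of_SP hx).1, (prime_of_SP hx).2.two_le⟩)) u hu
  have h3 : ∑ p ∈ prs htop (SP 𝔮 M),
      (‖b (Ideal.absNorm (p.1 : Ideal (𝓞 K)))‖ * Real.log (Ideal.absNorm (p.1 : Ideal (𝓞 K)))) *
          (‖b (Ideal.absNorm (p.2 : Ideal (𝓞 K)))‖ *
            Real.log (Ideal.absNorm (p.2 : Ideal (𝓞 K)))) ≤
      ω ^ 2 * EO (16 * Cg ^ 2 * A0) (16 * Cg ^ 2 * A1) u := by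
    refine (Finset.sum_le_sum h1).trans ?_
    rw [← Finset.mul_sum]
    refine mul_le_mul_of_nonneg_left (h2.trans (le_of_eq ?_)) (sq_nonneg _)
    unfold EO
    ring
  have hEO := EO_nonneg (u := u) (show 0 ≤ 16 * Cg ^ 2 * A0 by positivity)
    (show 0 ≤ 16 * Cg ^ 2 * A1 by positivity)
  have h0 : 0 ≤ ∑ m ∈ Finset.Icc 1 M,
      ‖b m‖ ^ 2 * (ArithmeticFunction.vonMangoldt m * ‖cK K m‖) ^ 2 :=
    Finset.sum_nonneg fun m _ => by positivity
  refine (mul_le_mul_of_nonneg_left (add_le_add le_rfl h3) (Nat.cast_nonneg _)).trans ?_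
  exact mul_le_mul_of_nonneg_right hW (by positivity)

end

/-- the sizes of the off-diagonal terms, small `u` -/
lemma eo_small {K1 C B L N u : ℝ} (hK1 : 1 ≤ K1) (hC : 1 ≤ C) (hB : 0 ≤ B) (hL : 1 ≤ L)
    (hN : 0 < N) (hLN : L = Real.log N)
    (hK : ∀ x : ℝ, 0 ≤ x → (x + 1) ^ 2 ≤ K1 * Real.exp (1 / 32 * x)) (hu : 0 ≤ u) :
    (Real.exp (3 / 4 * u) ≤ L → EO (B * 0) (B * C) u ≤
      2 * B * C * K1 * (L ^ (3 / 2 : ℝ) * Real.exp (-u / 32) + 1)) ∧
    (L < Real.exp (3 / 4 * u) → u ≤ L / 64 →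
      EO (B * (C * L ^ 2 * Real.exp (u / 4)))
        (B * (C * L ^ 2 * Real.exp (-(15 / 4) * u) + C * N ^ (-(1 / 32) : ℝ))) u ≤
      2 * B * C * K1 * (L ^ (3 / 2 : ℝ) * Real.exp (-u / 32) + 1)) := by
  have hL0 : 0 < L := by linarith
  have hu2 := hK u hu
  obtain ⟨Q, hQ⟩ : ∃ Q : ℝ, Q = L ^ (3 / 2 : ℝ) := ⟨_, rfl⟩
  have hQ0 : 0 < Q := by rw [hQ]; exact Real.rpow_pos_of_pos hL0 _
  constructor
  · intro h
    have e1 : Real.exp (17 / 16 * u) ≤ Q := by
      have h1 : Real.exp (17 / 16 * u) = (Real.exp (3 / 4 * u)) ^ (17 / 12 : ℝ) := by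
        rw [← Real.exp_mul]; congr 1; ring
      rw [h1, hQ]
      refine (Real.rpow_le_rpow (Real.exp_pos _).le h (by norm_num)).trans ?_
      exact Real.rpow_le_rpow_of_exponent_le hL (by norm_num)
    have e2 : (u + 1) ^ 2 * Real.exp u ≤ K1 * (Q * Real.exp (-u / 32)) := by
      calc (u + 1) ^ 2 * Real.exp u ≤ K1 * Real.exp (1 / 32 * u) * Real.exp u :=
            mul_le_mul_of_nonneg_right hu2 (Real.exp_pos _).le
        _ = K1 * (Real.exp (17 / 16 * u) * Real.exp (-u / 32)) := by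
            rw [mul_assoc, ← Real.exp_add, ← Real.exp_add]
            congr 2
            ring
        _ ≤ _ := by
            refine mul_le_mul_of_nonneg_left ?_ (by linarith)
            exact mul_le_mul_of_nonneg_right e1 (Real.exp_pos _).le
    unfold EO
    rw [← hQ]
    have e3 : (u + 1) ^ 2 * (B * 0 * Real.exp (-u) + B * C * Real.exp u) =
        B * C * ((u + 1) ^ 2 * Real.exp u) := by ring
    rw [e3]
    have e4 := mul_le_mul_of_nonneg_left e2 (show 0 ≤ B * C by positivity)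
    have e5 : 0 ≤ B * C * K1 * (Q * Real.exp (-u / 32)) := by positivity
    have e6 : 0 ≤ 2 * (B * C * K1) := by positivity
    linarith
  · intro h hu64
    have hx : L ^ (1 / 2 : ℝ) ≤ Real.exp (3 / 8 * u) := by
      have h1 : Real.exp (3 / 8 * u) = (Real.exp (3 / 4 * u)) ^ (1 / 2 : ℝ) := by
        rw [← Real.exp_mul]; congr 1; ring
      rw [h1]
      exact Real.rpow_le_rpow hL0.le h.le (by norm_num)
    have hL2 : L ^ 2 = Q * L ^ (1 / 2 : ℝ) := by
      rw [hQ, ← Real.rpow_add hL0, ← Real.rpow_natCast]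
      norm_num
    have e1 : (u + 1) ^ 2 * (L ^ 2 * Real.exp (-(3 / 4) * u)) ≤ K1 * (Q * Real.exp (-u / 32)) := by
      calc (u + 1) ^ 2 * (L ^ 2 * Real.exp (-(3 / 4) * u)) ≤
            K1 * Real.exp (1 / 32 * u) * (Q * Real.exp (3 / 8 * u) * Real.exp (-(3 / 4) * u)) := by
            rw [hL2]
            refine mul_le_mul hu2 ?_ (by positivity) (by positivity)
            refine mul_le_mul_of_nonneg_right ?_ (Real.exp_pos _).le
            exact mul_le_mul_of_nonneg_left hx hQ0.le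
        _ = K1 * (Q * Real.exp (-(11 / 32) * u)) := by
            have h1 : Real.exp (-(11 / 32) * u) =
                Real.exp (1 / 32 * u) * Real.exp (3 / 8 * u) * Real.exp (-(3 / 4) * u) := by
              rw [← Real.exp_add, ← Real.exp_add]
              congr 1
              ring
            rw [h1]
            ring
        _ ≤ _ := by
            refine mul_le_mul_of_nonneg_left ?_ (by linarith)
            refine mul_le_mul_of_nonneg_left (Real.exp_le_exp.mpr ?_) hQ0.le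
            linarith
    have e2 : (u + 1) ^ 2 * (L ^ 2 * Real.exp (-(11 / 4) * u)) ≤
        K1 * (Q * Real.exp (-u / 32)) := by
      refine le_trans ?_ e1
      refine mul_le_mul_of_nonneg_left ?_ (sq_nonneg _)
      refine mul_le_mul_of_nonneg_left (Real.exp_le_exp.mpr ?_) (sq_nonneg _)
      linarith
    have e3 : (u + 1) ^ 2 * (N ^ (-(1 / 32) : ℝ) * Real.exp u) ≤ K1 := by
      have h1 : N ^ (-(1 / 32) : ℝ) = Real.exp (-(L / 32)) := by
        rw [Real.rpow_def_of_pos hN, ← hLN]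
        congr 1
        ring
      calc (u + 1) ^ 2 * (N ^ (-(1 / 32) : ℝ) * Real.exp u) ≤
            K1 * Real.exp (1 / 32 * u) * (N ^ (-(1 / 32) : ℝ) * Real.exp u) :=
            mul_le_mul_of_nonneg_right hu2 (by positivity)
        _ = K1 * Real.exp (33 / 32 * u - L / 32) := by
            rw [h1, mul_assoc, ← Real.exp_add, ← Real.exp_add]
            congr 2
            ring
        _ ≤ K1 * 1 := by
            refine mul_le_mul_of_nonneg_left (Real.exp_le_one_iff.mpr ?_) (by linarith)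
            linarith
        _ = K1 := mul_one _
    unfold EO
    rw [← hQ]
    have e4 : Real.exp (u / 4) * Real.exp (-u) = Real.exp (-(3 / 4) * u) := by
      rw [← Real.exp_add]; congr 1; ring
    have e5 : Real.exp (-(15 / 4) * u) * Real.exp u = Real.exp (-(11 / 4) * u) := by
      rw [← Real.exp_add]; congr 1; ring
    have e6 : (u + 1) ^ 2 * (B * (C * L ^ 2 * Real.exp (u / 4)) * Real.exp (-u) +
        B * (C * L ^ 2 * Real.exp (-(15 / 4) * u) + C * N ^ (-(1 / 32) : ℝ)) * Real.exp u) =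
        B * C * ((u + 1) ^ 2 * (L ^ 2 * Real.exp (-(3 / 4) * u)) +
          (u + 1) ^ 2 * (L ^ 2 * Real.exp (-(11 / 4) * u)) +
          (u + 1) ^ 2 * (N ^ (-(1 / 32) : ℝ) * Real.exp u)) := by
      rw [← e4, ← e5]; ring
    rw [e6]
    have e7 := mul_le_mul_of_nonneg_left (add_le_add (add_le_add e1 e2) e3)
      (show 0 ≤ B * C by positivity)
    refine e7.trans ?_
    have e8 : 0 ≤ B * C * K1 := by positivity
    linarith

/-- **P3** -/
theorem p3 : StP3 := by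
  classical
  intro K _ _ n r hr0 hr1
  obtain ⟨C, hC, hlow⟩ := pair_low K
  obtain ⟨C3, hC3, hpc⟩ := pair_count K
  obtain ⟨K1, hK1, hKe⟩ := sq_le_exp (1 / 32) (by norm_num)
  obtain ⟨s, hs⟩ : ∃ s : ℝ, s = min (1 / 256) ((1 - r) / 4) := ⟨_, rfl⟩
  have hs0 : 0 < s := by rw [hs]; exact lt_min (by norm_num) (by linarith)
  have hs1 : s ≤ 1 / 256 := by rw [hs]; exact min_le_left _ _
  have hs2 : s ≤ (1 - r) / 4 := by rw [hs]; exact min_le_right _ _
  obtain ⟨K2, hK2, hKe2⟩ := sq_le_exp s hs0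
  obtain ⟨B, hB⟩ : ∃ B : ℝ, B = 16 * Cg ^ 2 := ⟨_, rfl⟩
  have hB0 : 0 ≤ B := by rw [hB]; positivity
  refine ⟨2 * B * C * K1 + 2 * B * C3 * K2, s, max (Real.exp 1) (C ^ 256), by positivity, hs0,
    le_max_of_le_left (Real.one_le_exp (by norm_num)), ?_⟩
  intro 𝔮 hbot htop hU hN S hS W hW u hu
  have hN1 : Real.exp 1 ≤ (Ideal.absNorm 𝔮 : ℝ) := (le_max_left _ _).trans hN
  have hN2 : C ^ 256 ≤ (Ideal.absNorm 𝔮 : ℝ) := (le_max_right _ _).trans hN
  have hN0 : (0 : ℝ) < (Ideal.absNorm 𝔮 : ℝ) := lt_of_lt_of_le (Real.exp_pos _) hN1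
  have hNge : (1 : ℝ) ≤ (Ideal.absNorm 𝔮 : ℝ) := (Real.one_le_exp (by norm_num)).trans hN1
  obtain ⟨L, hL⟩ : ∃ L : ℝ, L = Real.log (Ideal.absNorm 𝔮) := ⟨_, rfl⟩
  have hL1 : 1 ≤ L := by rw [hL, Real.le_log_iff_exp_le hN0]; exact hN1
  have hCU : C * Un 𝔮 ≤ (Ideal.absNorm 𝔮 : ℝ) ^ (1 / 128 : ℝ) := by
    have h1 : C ≤ (Ideal.absNorm 𝔮 : ℝ) ^ (1 / 256 : ℝ) := by
      have h2 := Real.rpow_le_rpow (by positivity) hN2 (show (0 : ℝ) ≤ 1 / 256 by norm_num)
      rw [← Real.rpow_natCast, ← Real.rpow_mul (by linarith)] at h2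
      norm_num at h2
      norm_num
      exact h2
    have h2 : (Un 𝔮 : ℝ) ≤ (Ideal.absNorm 𝔮 : ℝ) ^ (1 / 256 : ℝ) :=
      hU.trans (Real.rpow_le_rpow_of_exponent_le hNge hs1)
    calc C * Un 𝔮 ≤ (Ideal.absNorm 𝔮 : ℝ) ^ (1 / 256 : ℝ) * (Ideal.absNorm 𝔮 : ℝ) ^ (1 / 256 : ℝ) :=
          mul_le_mul h1 h2 (Nat.cast_nonneg _) (by positivity)
      _ = _ := by rw [← Real.rpow_add hN0]; norm_num
  rw [← hL] at hu ⊢
  obtain ⟨hu0, hur⟩ := hu
  have hQ0 : 0 < L ^ (3 / 2 : ℝ) := Real.rpow_pos_of_pos (by linarith) _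
  have hT0 : 0 ≤ L ^ (3 / 2 : ℝ) * Real.exp (-u / 32) + 1 := by positivity
  obtain ⟨f1, f2⟩ := eo_small (u := u) hK1 hC hB0 hL1 hN0 hL hKe hu0
  rcases le_or_gt u (L / 64) with h64 | h64
  · rcases le_or_gt (Real.exp (3 / 4 * u)) L with h34 | h34
    · refine ⟨B * 0, B * C, by simp, by positivity, ?_, ?_⟩
      · rw [hB]
        refine lsg_count K n hbot htop S hS W hW 0 C le_rfl (by linarith) ?_
        intro S' X Y hX hY hS'
        rw [zero_add]
        exact (hlow 𝔮 hbot htop S' X Y hX hY hCU hS').1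
      · refine (f1 h34).trans (mul_le_mul_of_nonneg_right ?_ hT0)
        have : 0 ≤ 2 * B * C3 * K2 := by positivity
        linarith
    · refine ⟨B * (C * L ^ 2 * Real.exp (u / 4)),
        B * (C * L ^ 2 * Real.exp (-(15 / 4) * u) + C * (Ideal.absNorm 𝔮 : ℝ) ^ (-(1 / 32) : ℝ)),
        by positivity, by positivity, ?_, ?_⟩
      · rw [hB]
        refine lsg_count K n hbot htop S hS W hW _ _ (by positivity) (by positivity) ?_
        intro S' X Y hX hY hS'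
        have := (hlow 𝔮 hbot htop S' X Y hX hY hCU hS').2 u hu0
        rw [← hL] at this
        exact this
      · refine (f2 h34 h64).trans (mul_le_mul_of_nonneg_right ?_ hT0)
        have : 0 ≤ 2 * B * C3 * K2 := by positivity
        linarith
  · refine ⟨B * (C3 * Un 𝔮), B * (C3 * Un 𝔮 / (Ideal.absNorm 𝔮 : ℝ)), by positivity,
      by positivity, ?_, ?_⟩
    · rw [hB]
      refine lsg_count K n hbot htop S hS W hW _ _ (by positivity) (by positivity) ?_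
      intro S' X Y hX hY hS'
      refine (hpc 𝔮 hbot htop S' X Y hX hY (fun x hx => (hS' x hx).1)).trans (le_of_eq ?_)
      ring
    · have g1 : (u + 1) ^ 2 ≤ K2 * (Ideal.absNorm 𝔮 : ℝ) ^ s := by
        have h1 : (u + 1) ^ 2 ≤ (L + 1) ^ 2 := by
          refine pow_le_pow_left₀ (by linarith) ?_ 2
          have : r * L ≤ 1 * L := mul_le_mul_of_nonneg_right hr1.le (by linarith)
          linarith
        refine h1.trans ((hKe2 L (by linarith)).trans (le_of_eq ?_))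
        rw [Real.rpow_def_of_pos hN0, ← hL, mul_comm s L]
      have g2 : Real.exp (-u) ≤ (Ideal.absNorm 𝔮 : ℝ) ^ (-(1 / 64) : ℝ) := by
        rw [Real.rpow_def_of_pos hN0, ← hL]
        refine Real.exp_le_exp.mpr ?_
        linarith
      have g3 : Real.exp u / (Ideal.absNorm 𝔮 : ℝ) ≤ (Ideal.absNorm 𝔮 : ℝ) ^ (r - 1) := by
        rw [Real.rpow_sub_one hN0.ne', Real.rpow_def_of_pos hN0, ← hL]
        refine div_le_div_of_nonneg_right (Real.exp_le_exp.mpr ?_) hN0.le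
        linarith
      have g4 : (u + 1) ^ 2 * (Un 𝔮 * Real.exp (-u)) ≤ K2 := by
        calc (u + 1) ^ 2 * (Un 𝔮 * Real.exp (-u)) ≤ K2 * (Ideal.absNorm 𝔮 : ℝ) ^ s *
              ((Ideal.absNorm 𝔮 : ℝ) ^ s * (Ideal.absNorm 𝔮 : ℝ) ^ (-(1 / 64) : ℝ)) := by
              refine mul_le_mul g1 ?_ (by positivity) (by positivity)
              exact mul_le_mul hU g2 (Real.exp_pos _).le (by positivity)
          _ = K2 * (Ideal.absNorm 𝔮 : ℝ) ^ (s + (s + -(1 / 64)) : ℝ) := by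
              rw [Real.rpow_add hN0, Real.rpow_add hN0]; ring
          _ ≤ K2 * 1 := by
              refine mul_le_mul_of_nonneg_left ?_ (by linarith)
              exact Real.rpow_le_one_of_one_le_of_nonpos hNge (by linarith)
          _ = K2 := mul_one _
      have g5 : (u + 1) ^ 2 * (Un 𝔮 * (Real.exp u / (Ideal.absNorm 𝔮 : ℝ))) ≤ K2 := by
        calc (u + 1) ^ 2 * (Un 𝔮 * (Real.exp u / (Ideal.absNorm 𝔮 : ℝ))) ≤
              K2 * (Ideal.absNorm 𝔮 : ℝ) ^ s *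
              ((Ideal.absNorm 𝔮 : ℝ) ^ s * (Ideal.absNorm 𝔮 : ℝ) ^ (r - 1)) := by
              refine mul_le_mul g1 ?_ (by positivity) (by positivity)
              exact mul_le_mul hU g3 (by positivity) (by positivity)
          _ = K2 * (Ideal.absNorm 𝔮 : ℝ) ^ (s + (s + (r - 1)) : ℝ) := by
              rw [Real.rpow_add hN0, Real.rpow_add hN0]; ring
          _ ≤ K2 * 1 := by
              refine mul_le_mul_of_nonneg_left ?_ (by linarith)
              exact Real.rpow_le_one_of_one_le_of_nonpos hNge (by linarith)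
          _ = K2 := mul_one _
      unfold EO
      have e : (u + 1) ^ 2 * (B * (C3 * Un 𝔮) * Real.exp (-u) +
          B * (C3 * Un 𝔮 / (Ideal.absNorm 𝔮 : ℝ)) * Real.exp u) =
          B * C3 * ((u + 1) ^ 2 * (Un 𝔮 * Real.exp (-u)) +
            (u + 1) ^ 2 * (Un 𝔮 * (Real.exp u / (Ideal.absNorm 𝔮 : ℝ)))) := by ring
      rw [e]
      have g6 := mul_le_mul_of_nonneg_left (add_le_add g4 g5) (show 0 ≤ B * C3 by positivity)
      refine g6.trans ?_
      have g7 : 1 ≤ L ^ (3 / 2 : ℝ) * Real.exp (-u / 32) + 1 := by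
        have : 0 ≤ L ^ (3 / 2 : ℝ) * Real.exp (-u / 32) := by positivity
        linarith
      have g8 : 0 ≤ 2 * B * C * K1 * (L ^ (3 / 2 : ℝ) * Real.exp (-u / 32) + 1) := by positivity
      have g9 : 2 * B * C3 * K2 * 1 ≤ 2 * B * C3 * K2 * (L ^ (3 / 2 : ℝ) * Real.exp (-u / 32) + 1) :=
        mul_le_mul_of_nonneg_left g7 (by positivity)
      linarith

end Pool.Agent.Helper13.LZ
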