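import Pool.Agent.Helper13.LZ.Spec

/-! # The mean square at bounded heights (part P4 of the LZ swarm, helper86)

Adapted from the library modules `N784.AD.Msp3` and `W398.LV.C`. -/

set_option autoImplicit false
set_option linter.unusedVariables false
set_option maxHeartbeats 4000000

open Complex Filter Topology Set MeasureTheory

namespace Pool.Agent.Helper13.LZ

open ArithmeticFunction (vonMangoldt)
open H385 W388 Pool.Agent.W398.LV Pool.Agent.Y655.HC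
open Pool.Agent.Y773.IQ (a_bd2 split_q err_part)
open Pool.Agent.N786 (MSD sqrt_add_le')
open Pool.Agent.N784.AD (LSG EO EO_nonneg int_ptP)

/-- the majorant -/
noncomputable def YZ (c : ℕ → ℂ) (D1 T κ C E B P : ℝ) (q : ℕ) (u : ℝ) : ℝ :=
  YE c D1 T κ C E 0 u + B * T * Gq q u ^ 2 + P * Real.exp (-u / 32)

lemma YZ_cont {c : ℕ → ℂ} {Cs : ℝ} (hs : SmC c Cs) (D1 T κ C E B P : ℝ) (q : ℕ) :
    Continuous (YZ c D1 T κ C E B P q) := by
  have hYEc := YE_cont hs D1 T κ C E 0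
  have hGc := Gq_cont q
  have hEc : Continuous (fun u : ℝ => B * T * Gq q u ^ 2) := by fun_prop
  have hCc : Continuous (fun u : ℝ => P * Real.exp (-u / 32)) := by fun_prop
  unfold YZ
  exact (hYEc.add hEc).add hCc

/-- the integral of the majorant -/
lemma YZ_int {c : ℕ → ℂ} {Cs : ℝ} (hs : SmC c Cs) (γ β L D1 T κ C E B P : ℝ) (q : ℕ)
    (h0 : 0 < γ) (hπ : γ < Real.pi) {K b1 b2 b3 : ℝ}
    (m1 : K * (∫ u in (0 : ℝ)..(β * L), Rw γ (u / (β * L)) * YE c D1 T κ C E 0 u) ≤ b1)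
    (m2 : K * (∫ u in (0 : ℝ)..(β * L), Rw γ (u / (β * L)) * (B * T * Gq q u ^ 2)) ≤ b2)
    (m3 : K * (∫ u in (0 : ℝ)..(β * L), Rw γ (u / (β * L)) * (P * Real.exp (-u / 32))) ≤ b3) :
    K * (∫ u in (0 : ℝ)..(β * L), Rw γ (u / (β * L)) * YZ c D1 T κ C E B P q u) ≤
      b1 + b2 + b3 := by
  have hRc : Continuous fun u : ℝ => Rw γ (u / (β * L)) :=
    (Rw_cont γ h0 hπ).comp (continuous_id.div_const _)
  have hYEc := YE_cont hs D1 T κ C E 0
  have hGc := Gq_cont q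
  have hEc : Continuous (fun u : ℝ => B * T * Gq q u ^ 2) := by fun_prop
  have hCc : Continuous (fun u : ℝ => P * Real.exp (-u / 32)) := by fun_prop
  have h1 : Continuous fun u : ℝ => Rw γ (u / (β * L)) * YE c D1 T κ C E 0 u := hRc.mul hYEc
  have h2 : Continuous fun u : ℝ => Rw γ (u / (β * L)) * (B * T * Gq q u ^ 2) := hRc.mul hEc
  have h3 : Continuous fun u : ℝ => Rw γ (u / (β * L)) * (P * Real.exp (-u / 32)) := hRc.mul hCc
  have h12 : Continuous fun u : ℝ => Rw γ (u / (β * L)) * YE c D1 T κ C E 0 u +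
    Rw γ (u / (β * L)) * (B * T * Gq q u ^ 2) := h1.add h2
  have e : ∀ u, Rw γ (u / (β * L)) * YZ c D1 T κ C E B P q u =
      (Rw γ (u / (β * L)) * YE c D1 T κ C E 0 u +
      Rw γ (u / (β * L)) * (B * T * Gq q u ^ 2)) + Rw γ (u / (β * L)) *
      (P * Real.exp (-u / 32)) := by
    intro u
    unfold YZ
    ring
  simp only [e]
  rw [intervalIntegral.integral_add (h12.intervalIntegrable _ _) (h3.intervalIntegrable _ _),
    intervalIntegral.integral_add (h1.intervalIntegrable _ _) (h2.intervalIntegrable _ _)]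
  linarith

/-- the majorant majorizes -/
lemma num_maj {K P Cp C0 T G Wn eo S CE M x : ℝ} (hK : 0 ≤ K) (hP : 0 ≤ P) (hCp : 0 ≤ Cp)
    (hC0 : 0 ≤ C0) (hT : 1 ≤ T) (hG : 0 ≤ G) (hW : 0 ≤ Wn) (hCE : 0 ≤ CE) (hM : 0 ≤ M)
    (hx : 0 ≤ x) (heo : eo ≤ CE * (M * x + 1)) :
    S + (T + C0) * (K * (1 + Cp + G) ^ 2 + P * eo) ≤
      (S + (T + C0) * ((2 * K * (1 + Cp) ^ 2 + P * CE) * (0 + 1) * (Wn + 1))) +
        (1 + C0) * (2 * K) * T * G ^ 2 + ((1 + C0) * T * P * CE * M) * x := by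
  have hsq : (1 + Cp + G) ^ 2 ≤ 2 * (1 + Cp) ^ 2 + 2 * G ^ 2 := by
    nlinarith [sq_nonneg (G - (1 + Cp))]
  have c1 : K * (1 + Cp + G) ^ 2 ≤ K * (2 * (1 + Cp) ^ 2 + 2 * G ^ 2) :=
    mul_le_mul_of_nonneg_left hsq hK
  have c2 : P * eo ≤ P * (CE * (M * x + 1)) := mul_le_mul_of_nonneg_left heo hP
  obtain ⟨E, hE⟩ : ∃ E : ℝ, E = 2 * K * (1 + Cp) ^ 2 + P * CE := ⟨_, rfl⟩
  have hE0 : 0 ≤ E := by rw [hE]; positivity
  have b1 : K * (1 + Cp + G) ^ 2 + P * eo ≤ E + (2 * K * G ^ 2 + P * CE * M * x) := by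
    rw [hE]; nlinarith
  have b2 : T + C0 ≤ (1 + C0) * T := by nlinarith
  have b3 : (T + C0) * (K * (1 + Cp + G) ^ 2 + P * eo) ≤
      (T + C0) * (E + (2 * K * G ^ 2 + P * CE * M * x)) :=
    mul_le_mul_of_nonneg_left b1 (by positivity)
  have b4 := mul_le_mul_of_nonneg_right b2 (show 0 ≤ 2 * K * G ^ 2 + P * CE * M * x by positivity)
  have b5 : (T + C0) * E ≤ (T + C0) * (E * (0 + 1) * (Wn + 1)) := by
    refine mul_le_mul_of_nonneg_left ?_ (by positivity)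
    have := mul_nonneg hE0 hW
    linarith
  rw [← hE]
  nlinarith

/-- the integral of the decaying term -/
lemma int_exp_part (γ β L P : ℝ) (h0 : 0 < γ) (hπ : γ < Real.pi) (hβ : 0 < β) (hL : 0 < L)
    (hP : 0 ≤ P) :
    2 / (Real.sqrt Real.pi * (β * L)) * (∫ u in (0 : ℝ)..(β * L), Rw γ (u / (β * L)) *
      (P * Real.exp (-u / 32))) ≤
      2 / (Real.sqrt Real.pi * (β * L)) * (Rw γ 0 * P * 32) := by
  have hpi := Real.pi_pos
  have hspi : 0 < Real.sqrt Real.pi := Real.sqrt_pos.mpr hpi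
  have hβL : 0 < β * L := by positivity
  have hR0 : 0 ≤ Rw γ 0 := Rw_nonneg γ h0 hπ 0
  refine mul_le_mul_of_nonneg_left ?_ (by positivity)
  have hRc : Continuous fun u : ℝ => Rw γ (u / (β * L)) :=
    (Rw_cont γ h0 hπ).comp (continuous_id.div_const _)
  have hCc : Continuous (fun u : ℝ => P * Real.exp (-u / 32)) := by fun_prop
  have h1 : ∫ u in (0 : ℝ)..(β * L), Rw γ (u / (β * L)) * (P * Real.exp (-u / 32)) ≤
      ∫ u in (0 : ℝ)..(β * L), (Rw γ 0 * P) * Real.exp (-u / 32) := by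
    refine intervalIntegral.integral_mono_on hβL.le ((hRc.mul hCc).intervalIntegrable _ _)
      (Continuous.intervalIntegrable (by fun_prop) _ _) fun u hu => ?_
    have r1 := Rw_le γ h0 hπ (u / (β * L)) (div_nonneg hu.1 hβL.le)
    have r2 : 0 ≤ P * Real.exp (-u / 32) := by positivity
    calc Rw γ (u / (β * L)) * (P * Real.exp (-u / 32)) ≤ Rw γ 0 * (P * Real.exp (-u / 32)) :=
          mul_le_mul_of_nonneg_right r1 r2
      _ = _ := by ring
  refine h1.trans ?_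
  rw [intervalIntegral.integral_const_mul]
  have h2 : ∫ u in (0 : ℝ)..(β * L), Real.exp (-u / 32) ≤ 32 := by
    have h3 : ∀ u ∈ Set.uIcc (0 : ℝ) (β * L), HasDerivAt (fun u : ℝ => -32 * Real.exp (-u / 32))
        (Real.exp (-u / 32)) u := by
      intro u _
      have h4 : HasDerivAt (fun u : ℝ => -u / 32) (-1 / 32) u := by
        have := (hasDerivAt_id u).neg.div_const 32
        simpa using this
      have h5 := (h4.exp).const_mul (-32 : ℝ)
      refine h5.congr_deriv ?_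
      ring
    rw [intervalIntegral.integral_eq_sub_of_hasDerivAt h3
      (Continuous.intervalIntegrable (by fun_prop) _ _)]
    have : 0 < Real.exp (-(β * L) / 32) := Real.exp_pos _
    simp only [neg_zero, zero_div, Real.exp_zero]
    linarith
  calc Rw γ 0 * P * (∫ u in (0 : ℝ)..(β * L), Real.exp (-u / 32)) ≤ Rw γ 0 * P * 32 :=
        mul_le_mul_of_nonneg_left h2 (by positivity)
    _ = _ := rfl

/-- the pointwise bound for `YE` -/
lemma YE_pt {c : ℕ → ℂ} {Cs : ℝ} (hcm : MeanC c) (hCs : 0 < Cs) (hs : SmC c Cs)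
    (D1 T κ C E β L u : ℝ) (hD1 : 0 ≤ D1) (hT : 1 ≤ T) (hκ : 0 ≤ κ) (hκT : κ ≤ T) (hC : 0 ≤ C)
    (hE : 0 ≤ E) (hu : u ∈ Set.Icc 0 (β * L)) :
    YE c D1 T κ C E 0 u ≤
      T * ((D1 * (1 + C) * Cs * (β * L + 1) + (1 + C) * E * (Cs + 1)) * (u + 1)) := by
  have hu0 : 0 ≤ u := hu.1
  have hTpos : 0 < T := by linarith
  have s0 := SWu_nonneg c 1 u
  have s1 := SWu_anti hcm u
  have s2 := hs.sle u hu0
  have s3 := SWu_nonneg c (1 / 2) u
  have s4 := hs.wle u hu0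
  have s5 := Wu_nonneg c u
  have s6 : SWu c (1 / 2) u ≤ Cs * ((β * L + 1) * (u + 1)) := by
    refine s2.trans (mul_le_mul_of_nonneg_left ?_ hCs.le)
    rw [sq]
    exact mul_le_mul_of_nonneg_right (by linarith [hu.2]) (by linarith)
  obtain ⟨S, hS⟩ : ∃ S : ℝ, S = Cs * ((β * L + 1) * (u + 1)) := ⟨_, rfl⟩
  rw [← hS] at s6
  have hSn : 0 ≤ S := s3.trans s6
  have b1 : D1 * (T / (2 * Real.pi) * SWu c 1 u + C * κ * SWu c (1 / 2) u) ≤
      D1 * (T * (1 + C) * S) := by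
    have c1 : T / (2 * Real.pi) * SWu c 1 u ≤ T * S :=
      mul_le_mul (aux_pi T hTpos) (s1.trans s6) s0 hTpos.le
    have c2 : C * κ * SWu c (1 / 2) u ≤ C * T * S := by gcongr
    refine mul_le_mul_of_nonneg_left ?_ hD1
    calc _ ≤ T * S + C * T * S := add_le_add c1 c2
      _ = _ := by ring
  have b2 : (T + C) * (E * (0 + 1) * (Wu c u + 1)) ≤
      ((1 + C) * T) * (E * ((Cs + 1) * (u + 1))) := by
    have c1 : Wu c u + 1 ≤ (Cs + 1) * (u + 1) := by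
      have : Cs * (u + 1) + 1 ≤ (Cs + 1) * (u + 1) := by
        have e : (Cs + 1) * (u + 1) = Cs * (u + 1) + (u + 1) := by ring
        rw [e]; linarith
      linarith
    have c2 : T + C ≤ (1 + C) * T := by nlinarith
    have c3 : E * (0 + 1) * (Wu c u + 1) ≤ E * ((Cs + 1) * (u + 1)) := by
      rw [zero_add, mul_one]
      exact mul_le_mul_of_nonneg_left c1 hE
    exact mul_le_mul c2 c3 (by positivity) (by positivity)
  unfold YE
  calc _ ≤ D1 * (T * (1 + C) * S) + ((1 + C) * T) * (E * ((Cs + 1) * (u + 1))) :=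
        add_le_add b1 b2
    _ = _ := by rw [hS]; ring

/-- the integral of `YE` -/
lemma YE_int2 {c : ℕ → ℂ} {Cs : ℝ} (hCs : 0 < Cs) (hs : SmC c Cs) (γ β : ℝ) (h0 : 0 < γ)
    (hπ : γ < Real.pi) (hβ : 0 < β) (D1 T κ C E L ε3 I1 : ℝ) (hD1 : 0 ≤ D1) (hT : 1 ≤ T)
    (hκ : 0 ≤ κ) (hC : 0 ≤ C) (hE : 0 ≤ E) (hL : 0 < L) (hβL1 : 1 ≤ β * L)
    (hI1 : I1 = ∫ α in (0 : ℝ)..1, α * Rw γ α)
    (g1 : ∫ u in (0 : ℝ)..(β * L), Rw γ (u / (β * L)) * SWu c 1 u ≤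
      Real.sqrt Real.pi * (β * L) ^ 2 * ((∫ α in (0 : ℝ)..1, α * Rw γ α) + ε3)) :
    2 / (Real.sqrt Real.pi * (β * L)) * (∫ u in (0 : ℝ)..(β * L),
        Rw γ (u / (β * L)) * YE c D1 T κ C E 0 u) ≤
      T / (2 * Real.pi) * L * (D1 * (2 * β * (I1 + ε3))) +
      (κ * L * (8 * Rw γ 0 / Real.sqrt Real.pi * (D1 * C * Cs * β)) +
      T * (2 * Rw γ 0 / Real.sqrt Real.pi * ((1 + C) * E * (2 * Cs + 1)))) := by
  have hpi := Real.pi_pos
  have hspi : 0 < Real.sqrt Real.pi := Real.sqrt_pos.mpr hpi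
  have hR0n : 0 ≤ Rw γ 0 := Rw_nonneg γ h0 hπ 0
  have hTpos : 0 < T := by linarith
  have hLambda : 0 < β * L := by positivity
  have g0 := YE_integral hs γ h0 hπ D1 T κ C E 0 (β * L) hD1 hTpos.le hκ hC hE le_rfl hLambda
  have g2 := hs.sint (β * L) hLambda.le
  have g3 := hs.wint (β * L) hLambda.le
  rw [← hI1] at g1
  have g4 : ∫ u in (0 : ℝ)..(β * L), Rw γ (u / (β * L)) * YE c D1 T κ C E 0 u ≤
      D1 * (T / (2 * Real.pi)) * (Real.sqrt Real.pi * (β * L) ^ 2 * (I1 + ε3)) +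
      Rw γ 0 * (D1 * C * κ * (Cs * (4 * (β * L) ^ 2)) +
        ((1 + C) * T) * E * ((2 * Cs + 1) * (β * L))) := by
    refine g0.trans (add_le_add ?_ ?_)
    · exact mul_le_mul_of_nonneg_left g1 (by positivity)
    · refine mul_le_mul_of_nonneg_left (add_le_add ?_ ?_) hR0n
      · have e1 : (β * L + 1) ^ 2 ≤ 4 * (β * L) ^ 2 := by
          have : (β * L + 1) ^ 2 ≤ (2 * (β * L)) ^ 2 :=
            pow_le_pow_left₀ (by positivity) (by linarith) 2
          linarith [show (2 * (β * L)) ^ 2 = 4 * (β * L) ^ 2 by ring]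
        have e2 : ∫ u in (0 : ℝ)..(β * L), SWu c (1 / 2) u ≤ Cs * (4 * (β * L) ^ 2) :=
          g2.trans (mul_le_mul_of_nonneg_left e1 hCs.le)
        exact mul_le_mul_of_nonneg_left e2 (by positivity)
      · have e1 : (∫ u in (0 : ℝ)..(β * L), Wu c u) + β * L ≤ (2 * Cs + 1) * (β * L) := by
          have : Cs * (β * L + 1) ≤ Cs * (2 * (β * L)) :=
            mul_le_mul_of_nonneg_left (by linarith) hCs.le
          linarith [show (2 * Cs + 1) * (β * L) = Cs * (2 * (β * L)) + β * L by ring]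
        have e3 : 0 ≤ ∫ u in (0 : ℝ)..(β * L), Wu c u :=
          intervalIntegral.integral_nonneg hLambda.le (fun u _ => Wu_nonneg c u)
        have c2 : T + C ≤ (1 + C) * T := by nlinarith
        refine mul_le_mul ?_ e1 (by positivity) (by positivity)
        rw [zero_add, mul_one]
        exact mul_le_mul_of_nonneg_right c2 hE
  have hpre : 0 ≤ 2 / (Real.sqrt Real.pi * (β * L)) := by positivity
  have g6 := mul_le_mul_of_nonneg_left g4 hpre
  refine g6.trans (le_of_eq ?_)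
  field_simp
  ring

/-- the pointwise quantities -/
lemma num_sq {ε L y1 y2 y3 : ℝ} (hε : 0 < ε) (hL : 0 < L) (hy1 : y1 ≤ (ε / 4 * L) ^ 2)
    (hy2 : 0 ≤ y2) (hy2' : Real.sqrt y2 ≤ ε / 4 * L) (hy30 : 0 ≤ y3)
    (hy3 : y3 ≤ (ε / 4 * L) ^ 2) :
    Real.sqrt y1 + Real.sqrt (y2 + y3) ≤ ε * L := by
  have h1 : Real.sqrt y1 ≤ ε / 4 * L := by
    rw [Real.sqrt_le_left (by positivity)]
    exact hy1
  have h3 : Real.sqrt y3 ≤ ε / 4 * L := by
    rw [Real.sqrt_le_left (by positivity)]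
    exact hy3
  have h4 := sqrt_add_le' hy2 hy30
  have : 0 < ε * L := by positivity
  linarith

theorem p4 : StP4 := by
  intro c hsel d D hd hD γ β h0 hπ hβ ε CE hε hCE
  have hD0 : 0 < D := by linarith
  have hd0 : 0 < d := by linarith
  have hpi := Real.pi_pos
  have hspi : 0 < Real.sqrt Real.pi := Real.sqrt_pos.mpr hpi
  obtain ⟨s1, s2, s3, s4, ⟨Cs, hCs, s5, s6, s7, s8⟩, s9⟩ := Pool.Agent.W261.TW.t_smooth c hsel
  obtain ⟨n1, -, -, -⟩ := W566TW.t_noncop c hsel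
  have hcm : MeanC c := ⟨n1, s2⟩
  have hs : SmC c Cs := ⟨s3, s4, s5, s6, s7, s8, s9⟩
  clear s1 s3 s4 s5 s6 s8 s9
  obtain ⟨C0, Cp, hC0, hCp, hint⟩ := int_ptP hcm
  obtain ⟨I1, hI1⟩ : ∃ I1 : ℝ, I1 = ∫ α in (0 : ℝ)..1, α * Rw γ α := ⟨_, rfl⟩
  have hI1n : 0 ≤ I1 := by rw [hI1]; exact I1_nonneg γ h0 hπ
  obtain ⟨R0, hR0⟩ : ∃ R0 : ℝ, R0 = Rw γ 0 := ⟨_, rfl⟩
  have hR0n : 0 ≤ R0 := by rw [hR0]; exact Rw_nonneg γ h0 hπ 0
  -- the choice of `δ`, `ε3`
  obtain ⟨δ, hδd⟩ : ∃ δ : ℝ, δ = min 1 (ε / (16 * β * D * (I1 + 1))) := ⟨_, rfl⟩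
  have hδ : 0 < δ := by rw [hδd]; positivity
  have hδ1 : δ ≤ 1 := by rw [hδd]; exact min_le_left _ _
  have hδ2 : δ * (D * (2 * β * I1)) ≤ ε / 8 := by
    have h1 : δ ≤ ε / (16 * β * D * (I1 + 1)) := by rw [hδd]; exact min_le_right _ _
    calc δ * (D * (2 * β * I1)) ≤ (ε / (16 * β * D * (I1 + 1))) * (D * (2 * β * I1)) :=
          mul_le_mul_of_nonneg_right h1 (by positivity)
      _ = ε / 8 * (I1 / (I1 + 1)) := by field_simp; ring
      _ ≤ ε / 8 * 1 := by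
        refine mul_le_mul_of_nonneg_left ?_ (by positivity)
        rw [div_le_one (by positivity)]; linarith
      _ = ε / 8 := mul_one _
  obtain ⟨ε3, hε3⟩ : ∃ ε3 : ℝ, ε3 = ε / (32 * β * D) := ⟨_, rfl⟩
  have hε3p : 0 < ε3 := by rw [hε3]; positivity
  have hε3b : 4 * D * β * ε3 = ε / 8 := by rw [hε3]; field_simp; ring
  obtain ⟨Lm, hLm, hmain⟩ := hs.main γ h0 hπ ε3 hε3p
  obtain ⟨D1, hD1⟩ : ∃ D1 : ℝ, D1 = (1 + δ) * D := ⟨_, rfl⟩
  have hD10 : 0 < D1 := by rw [hD1]; positivity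
  have hD1n : 0 ≤ D1 := hD10.le
  have hmainb : D1 * (2 * β * (I1 + ε3)) ≤ 2 * β * I1 * D + ε / 4 := by
    have h1 : D1 * (2 * β * (I1 + ε3)) = 2 * β * I1 * D + δ * (D * (2 * β * I1)) +
        (1 + δ) * (2 * D * β * ε3) := by rw [hD1]; ring
    have h2 : (1 + δ) * (2 * D * β * ε3) ≤ 2 * (2 * D * β * ε3) :=
      mul_le_mul_of_nonneg_right (by linarith) (by positivity)
    rw [h1]
    linarith
  obtain ⟨K, hK⟩ : ∃ K : ℝ, K = (1 + 1 / δ) * d ^ 2 := ⟨_, rfl⟩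
  have hK0 : 0 < K := by rw [hK]; positivity
  obtain ⟨E, hEd⟩ : ∃ E : ℝ, E = 2 * K * (1 + Cp) ^ 2 + D1 * CE := ⟨_, rfl⟩
  have hE0 : 0 < E := by rw [hEd]; positivity
  obtain ⟨B, hBd⟩ : ∃ B : ℝ, B = (1 + C0) * (2 * K) := ⟨_, rfl⟩
  have hB : 0 < B := by rw [hBd]; positivity
  obtain ⟨L2, hL2, herr⟩ := err_part γ β (ε / 4) B (2 * d) h0 hπ hβ (by positivity) hB (by linarith)
  obtain ⟨Lt, hLt, htail⟩ := tail_leY 1 (1 / 6) (by norm_num) (by norm_num)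
  -- constants
  obtain ⟨Q1, hQ1⟩ : ∃ Q1 : ℝ, Q1 = 8 * R0 / Real.sqrt Real.pi * (D1 * C0 * Cs * β) := ⟨_, rfl⟩
  have hQ10 : 0 ≤ Q1 := by rw [hQ1]; positivity
  obtain ⟨Q2, hQ2⟩ : ∃ Q2 : ℝ, Q2 = 2 * R0 / Real.sqrt Real.pi *
    ((1 + C0) * E * (2 * Cs + 1)) := ⟨_, rfl⟩
  have hQ20 : 0 ≤ Q2 := by rw [hQ2]; positivity
  obtain ⟨Q3, hQ3⟩ : ∃ Q3 : ℝ, Q3 = 64 * R0 / (Real.sqrt Real.pi * β) *
    ((1 + C0) * D1 * CE) := ⟨_, rfl⟩
  have hQ30 : 0 ≤ Q3 := by rw [hQ3]; positivity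
  obtain ⟨P3, hP3⟩ : ∃ P3 : ℝ, P3 = (1 + C0) * D1 * CE := ⟨_, rfl⟩
  have hP30 : 0 ≤ P3 := by rw [hP3]; positivity
  obtain ⟨η, hη⟩ : ∃ η : ℝ, η = min 1 (ε / (16 * Real.pi * (Q1 + 1))) := ⟨_, rfl⟩
  have hη0 : 0 < η := by rw [hη]; positivity
  have hη1 : η ≤ 1 := by rw [hη]; exact min_le_left _ _
  have hη2 : η * Q1 ≤ 1 / (2 * Real.pi) * (ε / 8) := by
    have h1 : η ≤ ε / (16 * Real.pi * (Q1 + 1)) := by rw [hη]; exact min_le_right _ _
    calc η * Q1 ≤ (ε / (16 * Real.pi * (Q1 + 1))) * Q1 := mul_le_mul_of_nonneg_right h1 hQ10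
      _ = 1 / (2 * Real.pi) * (ε / 8) * (Q1 / (Q1 + 1)) := by field_simp; ring
      _ ≤ 1 / (2 * Real.pi) * (ε / 8) * 1 := by
        refine mul_le_mul_of_nonneg_left ?_ (by positivity)
        rw [div_le_one (by positivity)]; linarith
      _ = _ := mul_one _
  -- choice of `L0`
  have hsq : ∀ a : ℝ, ∀ b : ℝ, 0 < b → ∀ᶠ L : ℝ in atTop, a ≤ b * L ^ (1 / 2 : ℝ) := by
    intro a b hb
    have h1 := tendsto_rpow_atTop (show (0 : ℝ) < 1 / 2 by norm_num)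
    filter_upwards [h1.eventually_ge_atTop (a / b)] with L hL
    rw [div_le_iff₀ hb] at hL
    linarith
  have hev : ∀ᶠ L : ℝ in atTop, 1 ≤ L ∧ 1 ≤ β * L ∧ Lm ≤ β * L ∧ L2 ≤ L ∧ Lt ≤ β * L ∧
      Q2 ≤ (1 / (2 * Real.pi) * (ε / 8)) * L ∧
      Q3 ≤ (1 / (2 * Real.pi) * (ε / 8)) * L ^ (1 / 2 : ℝ) ∧
      (D1 * (1 + C0) * Cs * (2 * β) + (1 + C0) * E * (Cs + 1)) ≤ (ε / 4) ^ 2 * L ∧
      P3 ≤ (ε / 4) ^ 2 * L ^ (1 / 2 : ℝ) := by
    filter_upwards [eventually_ge_atTop 1, lin_ev 1 β hβ, lin_ev Lm β hβ,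
      eventually_ge_atTop L2, lin_ev Lt β hβ,
      lin_ev Q2 (1 / (2 * Real.pi) * (ε / 8)) (by positivity),
      hsq Q3 (1 / (2 * Real.pi) * (ε / 8)) (by positivity),
      lin_ev (D1 * (1 + C0) * Cs * (2 * β) + (1 + C0) * E * (Cs + 1)) ((ε / 4) ^ 2) (by positivity),
      hsq P3 ((ε / 4) ^ 2) (by positivity)] with L a1 a2 a3 a4 a5 a6 a7 a8 a9
    exact ⟨a1, a2, a3, a4, a5, a6, a7, a8, a9⟩
  obtain ⟨L0', hL0'⟩ := Filter.eventually_atTop.mp hev
  refine ⟨max L0' 1, η, le_max_right _ _, hη0, ?_⟩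
  intro ι s a q L T κ hsne hL hT hTκ hκ hκT hq hlogq ha hLS
  obtain ⟨a1, a2, a3, a4, a5, a6, a7, a8, a9⟩ := hL0' L ((le_max_left _ _).trans hL)
  clear hL hL0' hev
  have hL0 : 0 < L := by linarith
  have hT0 : 0 < T := by linarith
  have hκ0 : 0 ≤ κ := by linarith
  have hκT1 : κ ≤ T := by
    refine hκT.trans ?_
    calc η * T ≤ 1 * T := mul_le_mul_of_nonneg_right hη1 hT0.le
      _ = T := one_mul T
  have hβL : 0 < β * L := by positivity
  have hcard : (0 : ℝ) < s.card := by exact_mod_cast hsne.card_pos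
  have hW : ∑ i ∈ s, (s.card : ℝ)⁻¹ = 1 := by
    rw [Finset.sum_const, nsmul_eq_mul]
    exact mul_inv_cancel₀ hcard.ne'
  have hlogq' : Real.log q ≤ 2 * d * L := by
    refine hlogq.trans ?_
    have : 0 ≤ (d - 1) * L := mul_nonneg (by linarith) hL0.le
    nlinarith
  obtain ⟨y3, hy3, k1, k2, k3⟩ := herr q L T hq a4 hlogq' hT
  clear herr
  -- powers of `L`
  obtain ⟨Lh, hLh⟩ : ∃ Lh : ℝ, Lh = L ^ (1 / 2 : ℝ) := ⟨_, rfl⟩
  have hLh0 : 0 < Lh := by rw [hLh]; positivity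
  have hLh2 : Lh * Lh = L := by
    rw [hLh, ← Real.rpow_add hL0]
    norm_num
  have hL32 : L ^ (3 / 2 : ℝ) = L * Lh := by
    rw [hLh, show (3 / 2 : ℝ) = 1 + 1 / 2 by norm_num, Real.rpow_add hL0, Real.rpow_one]
  rw [hL32] at hLS
  rw [← hLh] at a7 a9
  -- the tail bound
  have hta : ∀ u : ℝ, 0 ≤ u → u ≤ β * L →
      ∑' n : ℕ, (if ⌊(Real.exp (2 * (β * L))) ^ (1 - (1 / 6 : ℝ))⌋₊ < n then
        vonMangoldt n * Real.exp (-(u - Real.log n) ^ 2 / 4) else 0) ≤ 1 := by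
    intro u hu0 huv
    have hlog : Real.log (Real.sqrt (Real.exp (2 * (β * L)))) = β * L := by
      rw [Real.log_sqrt (Real.exp_pos _).le, Real.log_exp]
      ring
    refine htail (Real.exp (2 * (β * L))) u (Real.exp_pos _) ?_ hu0 ?_
    · rw [hlog]; exact a5
    · rw [hlog, one_mul]; exact huv
  clear htail
  obtain ⟨P, hP⟩ : ∃ P : ℝ, P = (1 + C0) * T * D1 * CE * (L * Lh) := ⟨_, rfl⟩
  have hP0 : 0 ≤ P := by rw [hP]; positivity
  refine ⟨YZ c D1 T κ C0 E B P q,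
    D1 * (1 + C0) * Cs * (β * L + 1) + (1 + C0) * E * (Cs + 1), y3 + P3 * (L * Lh), by positivity,
    by positivity, ?_, ?_, (YZ_cont hs _ _ _ _ _ _ _ _).intervalIntegrable _ _, ?_, ?_⟩
  · -- the mean square
    intro u hu
    obtain ⟨A0, A1, hA0, hA1, hLS', hEO⟩ := hLS u hu
    have ht := hta u hu.1 hu.2
    have h := hint δ d D hδ hd0.le hD0.le s a
      ⌊(Real.exp (2 * (β * L))) ^ (1 - (1 / 6 : ℝ))⌋₊ q T κ u A0 A1 hsne hq hu.1 hκ hT hTκ
      hA0 hA1 ha hLS' ht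
    refine h.trans ?_
    rw [← hK, ← hD1]
    unfold YZ YE
    rw [hEd, hBd, hP]
    exact num_maj hK0.le hD1n hCp.le hC0.le hT (Gq_nonneg q u) (Wu_nonneg c u) hCE
      (by positivity) (Real.exp_pos _).le hEO
  · -- pointwise bound
    intro u hu
    have b1 := YE_pt hcm hCs hs D1 T κ C0 E β L u hD1n hT hκ0 hκT1 hC0.le hE0.le hu
    have b2 := k1 u hu
    have b3 : P * Real.exp (-u / 32) ≤ T * (P3 * (L * Lh)) := by
      have h1 : Real.exp (-u / 32) ≤ 1 := by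
        rw [Real.exp_le_one_iff]
        have := hu.1
        linarith
      calc P * Real.exp (-u / 32) ≤ P * 1 := mul_le_mul_of_nonneg_left h1 hP0
        _ = _ := by rw [hP, hP3]; ring
    unfold YZ
    calc _ ≤ T * ((D1 * (1 + C0) * Cs * (β * L + 1) + (1 + C0) * E * (Cs + 1)) * (u + 1)) +
          T * y3 + T * (P3 * (L * Lh)) := add_le_add (add_le_add b1 b2) b3
      _ = _ := by ring
  · -- the integral
    have i1 := YE_int2 hCs hs γ β h0 hπ hβ D1 T κ C0 E L ε3 I1 hD1n hT hκ0 hC0.le hE0.le hL0 a2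
      hI1 (hmain (β * L) a3)
    have i3 := int_exp_part γ β L P h0 hπ hβ hL0 hP0
    rw [← hR0] at i1 i3
    rw [← hQ1, ← hQ2] at i1
    have i4 := YZ_int hs γ β L D1 T κ C0 E B P q h0 hπ i1 k3 i3
    refine i4.trans ?_
    rw [hW]
    have hTL : 0 ≤ T / (2 * Real.pi) * L := by positivity
    have e1 := mul_le_mul_of_nonneg_left hmainb hTL
    have e2 : κ * L * Q1 ≤ T / (2 * Real.pi) * L * (ε / 8) := by
      calc κ * L * Q1 ≤ (η * T) * L * Q1 := by gcongr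
        _ = T * L * (η * Q1) := by ring
        _ ≤ T * L * (1 / (2 * Real.pi) * (ε / 8)) :=
          mul_le_mul_of_nonneg_left hη2 (by positivity)
        _ = _ := by ring
    have e3 : T * Q2 ≤ T / (2 * Real.pi) * L * (ε / 8) := by
      calc T * Q2 ≤ T * ((1 / (2 * Real.pi) * (ε / 8)) * L) :=
            mul_le_mul_of_nonneg_left a6 hT0.le
        _ = _ := by ring
    have e4 : 2 / (Real.sqrt Real.pi * (β * L)) * (R0 * P * 32) ≤
        T / (2 * Real.pi) * L * (ε / 8) := by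
      have f1 : 2 / (Real.sqrt Real.pi * (β * L)) * (R0 * P * 32) = T * Lh * Q3 := by
        rw [hP, hQ3]
        field_simp
        ring
      rw [f1]
      calc T * Lh * Q3 ≤ T * Lh * ((1 / (2 * Real.pi) * (ε / 8)) * Lh) :=
            mul_le_mul_of_nonneg_left a7 (by positivity)
        _ = T * (1 / (2 * Real.pi) * (ε / 8)) * (Lh * Lh) := by ring
        _ = _ := by rw [hLh2]; ring
    rw [← hI1]
    have e5 : 0 ≤ T / (2 * Real.pi) * L * (ε / 8) := by positivity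
    calc _ ≤ T / (2 * Real.pi) * L * (2 * β * I1 * D + ε / 4) +
          (T / (2 * Real.pi) * L * (ε / 8) + T / (2 * Real.pi) * L * (ε / 8)) +
          T / (2 * Real.pi) * L * (ε / 4) + T / (2 * Real.pi) * L * (ε / 8) := by
          refine add_le_add (add_le_add (add_le_add e1 (add_le_add e2 e3)) le_rfl) e4
      _ = T / (2 * Real.pi) * L * (2 * β * I1 * D + ε) - T / (2 * Real.pi) * L * (ε / 8) := by ring
      _ ≤ T / (2 * Real.pi) * L * 1 * (2 * β * I1 * D + ε) := by linarith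
  · rw [hW, Real.sqrt_one, mul_one]
    refine num_sq hε hL0 ?_ hy3 k2 (by positivity) ?_
    · have h1 : D1 * (1 + C0) * Cs * (β * L + 1) + (1 + C0) * E * (Cs + 1) ≤
          (D1 * (1 + C0) * Cs * (2 * β) + (1 + C0) * E * (Cs + 1)) * L := by
        have e1 : D1 * (1 + C0) * Cs * (β * L + 1) ≤ D1 * (1 + C0) * Cs * (2 * (β * L)) :=
          mul_le_mul_of_nonneg_left (by linarith) (by positivity)
        have e2 : (1 + C0) * E * (Cs + 1) * 1 ≤ (1 + C0) * E * (Cs + 1) * L :=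
          mul_le_mul_of_nonneg_left a1 (by positivity)
        calc _ ≤ D1 * (1 + C0) * Cs * (2 * (β * L)) + (1 + C0) * E * (Cs + 1) * L := by linarith
          _ = _ := by ring
      calc _ ≤ (D1 * (1 + C0) * Cs * (2 * β) + (1 + C0) * E * (Cs + 1)) * L := h1
        _ ≤ ((ε / 4) ^ 2 * L) * L := mul_le_mul_of_nonneg_right a8 hL0.le
        _ = _ := by ring
    · calc P3 * (L * Lh) ≤ ((ε / 4) ^ 2 * Lh) * (L * Lh) :=
            mul_le_mul_of_nonneg_right a9 (by positivity)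
        _ = (ε / 4) ^ 2 * L * (Lh * Lh) := by ring
        _ = _ := by rw [hLh2]; ring

end Pool.Agent.Helper13.LZ
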