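import Pool.Graph.R_seed8.H385R5.HE8c
import Pool.Graph.R_seed8.H385R3.CycNum

/-!
# Zeros of bounded height: the parameters

Adapted by helper13 from the library module `A856.BH.Core3R` (owner helper856).
-/

set_option autoImplicit false

open Complex Filter Topology Set MeasureTheory

namespace Pool.Agent.Helper13.LZ

/-- parameters -/
theorem bh_param (μ β : ℝ) (hμ : 0 < μ) (hβ1 : β < 2) (ℒ T κ η : ℝ)
    (hℒ : 4 ≤ ℒ) (hμℒ : 484 / μ ^ 2 ≤ ℒ) (hT0 : 1 ≤ T) (hη1 : η ≤ μ / 2)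
    (hη2 : η ≤ 1) (hT : T ≤ Real.exp (η * ℒ)) (hκ : κ = 4 * Real.sqrt ℒ) :
    (T + κ) ^ 2 * ℒ ^ 2 * Real.exp (2 * (β * ℒ) - κ ^ 2 / 2) ≤ 1 ∧
    1 + Real.log (1 + (2 * T + 3 * κ + 6) + 3 / 2 * T) ≤ μ * ℒ ∧
    T + 6 * κ ≤ 10 * Real.exp ℒ ∧ 8 ≤ Real.exp (2 * ℒ) ∧ T ≤ Real.exp ℒ := by
  obtain ⟨s, hs⟩ : ∃ s : ℝ, s = Real.sqrt ℒ := ⟨_, rfl⟩
  have hs0 : 0 ≤ s := by rw [hs]; exact Real.sqrt_nonneg _
  have hs2 : s ^ 2 = ℒ := by rw [hs]; exact Real.sq_sqrt (by linarith)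
  have hs3 : 2 ≤ s := by nlinarith
  rw [← hs] at hκ
  have hκ0 : 0 ≤ κ := by rw [hκ]; positivity
  have hTe : T ≤ Real.exp ℒ := by
    refine hT.trans (Real.exp_le_exp.mpr ?_)
    nlinarith
  have hexp : ∀ x : ℝ, 2.7 * x ≤ Real.exp x := by
    intro x
    have h1 := Real.add_one_le_exp (x - 1)
    have h2 : Real.exp x = Real.exp 1 * Real.exp (x - 1) := by
      rw [← Real.exp_add]; congr 1; ring
    have h3 := Real.exp_one_gt_d9
    rw [h2]
    have h4 : x ≤ Real.exp (x - 1) := by linarith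
    calc 2.7 * x ≤ 2.7 * Real.exp (x - 1) := by linarith
      _ ≤ Real.exp 1 * Real.exp (x - 1) := by
          apply mul_le_mul_of_nonneg_right _ (Real.exp_pos _).le
          linarith
  have he1 := hexp ℒ
  have he1' := hexp (ℒ / 2)
  obtain ⟨X, hX⟩ : ∃ X : ℝ, X = Real.exp ℒ := ⟨_, rfl⟩
  have he3 : Real.exp (ℒ / 2) ^ 2 = X := by rw [hX, ← Real.exp_nat_mul]; congr 1; push_cast; ring
  have hX5 : 5 * ℒ ≤ X := by
    rw [← he3]
    have : (2.7 * (ℒ / 2)) ^ 2 ≤ Real.exp (ℒ / 2) ^ 2 := pow_le_pow_left₀ (by linarith) he1' 2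
    nlinarith
  rw [← hX] at hTe he1
  have hsℒ : s ≤ ℒ := by nlinarith
  have hκℒ : κ ≤ 4 * ℒ := by rw [hκ]; linarith
  refine ⟨?_, ?_, ?_, ?_, ?_⟩
  · have h1 : T + κ ≤ 5 * X := by linarith
    have h2 : (T + κ) ^ 2 ≤ (5 * X) ^ 2 := pow_le_pow_left₀ (by linarith) h1 2
    have h3 : (T + κ) ^ 2 * ℒ ^ 2 ≤ (5 * X) ^ 2 * ℒ ^ 2 :=
      mul_le_mul_of_nonneg_right h2 (by positivity)
    have h4 : (5 * X) ^ 2 * ℒ ^ 2 ≤ Real.exp (4 * ℒ) := by
      have e4 : Real.exp (4 * ℒ) = X ^ 2 * X ^ 2 := by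
        rw [hX, ← Real.exp_nat_mul, ← Real.exp_add]; congr 1; push_cast; ring
      rw [e4]
      have h5 : (5 * ℒ) ^ 2 ≤ X ^ 2 := pow_le_pow_left₀ (by linarith) hX5 2
      calc (5 * X) ^ 2 * ℒ ^ 2 = X ^ 2 * (5 * ℒ) ^ 2 := by ring
        _ ≤ X ^ 2 * X ^ 2 := mul_le_mul_of_nonneg_left h5 (by positivity)
    have h7 : Real.exp (2 * (β * ℒ) - κ ^ 2 / 2) ≤ Real.exp (-(4 * ℒ)) := by
      apply Real.exp_le_exp.mpr
      have h8 : κ ^ 2 = 16 * ℒ := by rw [hκ, mul_pow, hs2]; ring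
      rw [h8]
      have h9 : β * ℒ ≤ 2 * ℒ := mul_le_mul_of_nonneg_right hβ1.le (by linarith)
      linarith
    calc _ ≤ Real.exp (4 * ℒ) * Real.exp (-(4 * ℒ)) :=
          mul_le_mul (h3.trans h4) h7 (Real.exp_pos _).le (Real.exp_pos _).le
      _ = 1 := by rw [← Real.exp_add]; simp
  · have hs1 : 1 ≤ s ^ 2 := by nlinarith
    have h0 : s ^ 2 ≤ s ^ 2 * T := le_mul_of_one_le_right (by positivity) hT0
    have h0' : T ≤ s ^ 2 * T := le_mul_of_one_le_left (by linarith) hs1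
    have h1 : 1 + (2 * T + 3 * κ + 6) + 3 / 2 * T ≤ (5 * s) ^ 2 * T := by
      rw [hκ]; nlinarith
    have h2 : Real.log (1 + (2 * T + 3 * κ + 6) + 3 / 2 * T) ≤ Real.log ((5 * s) ^ 2 * T) :=
      Real.log_le_log (by positivity) h1
    rw [Real.log_mul (by positivity) (by linarith), Real.log_pow] at h2
    have h3 := Real.log_le_sub_one_of_pos (show 0 < 5 * s by linarith)
    have h3' : Real.log T ≤ η * ℒ := by
      rw [Real.log_le_iff_le_exp (by linarith)]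
      exact hT
    push_cast at h2
    have h4 : 22 / μ ≤ s := by
      have h5 : (22 / μ) ^ 2 ≤ s ^ 2 := by
        rw [hs2, div_pow]
        norm_num
        exact hμℒ
      exact (pow_le_pow_iff_left₀ (by positivity) hs0 (by norm_num)).1 h5
    rw [div_le_iff₀ hμ] at h4
    have h6 : 22 * s ≤ μ * ℒ := by rw [← hs2]; nlinarith
    have h7 : η * ℒ ≤ μ / 2 * ℒ := mul_le_mul_of_nonneg_right hη1 (by linarith)
    linarith
  · rw [← hX]
    linarith
  · have := Real.add_one_le_exp (2 * ℒ)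
    linarith
  · rw [← hX]; exact hTe

/-- the width of the edges -/
theorem bh_edge (D μ : ℝ) (hD : 0 < D) (hμ : 0 < μ) : ∃ C0 : ℝ, 1 ≤ C0 ∧ ∀ T r : ℝ, 0 ≤ r →
    C0 * (1 + Real.sqrt r) ≤ T →
    C0 ≤ T ∧ Real.sqrt (D * Real.log (1 + T) + 64 * r) + 3 ≤ μ * T := by
  refine ⟨max 1 (max (16 * D / μ ^ 2) (max (12 / μ) (16 / μ))), le_max_left _ _, ?_⟩
  intro T r hr hT
  obtain ⟨C0, hC0⟩ : ∃ C0 : ℝ, C0 = max 1 (max (16 * D / μ ^ 2) (max (12 / μ) (16 / μ))) := ⟨_, rfl⟩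
  have g1 : 1 ≤ C0 := by rw [hC0]; exact le_max_left _ _
  have g2 : 16 * D / μ ^ 2 ≤ C0 := by
    rw [hC0]; exact (le_max_left _ _).trans (le_max_right _ _)
  have g3 : 12 / μ ≤ C0 := by
    rw [hC0]; exact ((le_max_left _ _).trans (le_max_right _ _)).trans (le_max_right _ _)
  have g4 : 16 / μ ≤ C0 := by
    rw [hC0]; exact ((le_max_right _ _).trans (le_max_right _ _)).trans (le_max_right _ _)
  rw [← hC0] at hT ⊢
  have hsr := Real.sqrt_nonneg r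
  have hCT : C0 ≤ T := by nlinarith
  have h1 : 1 ≤ T := g1.trans hCT
  have h2 : 16 * D / μ ^ 2 ≤ T := g2.trans hCT
  have h3 : 12 / μ ≤ T := g3.trans hCT
  rw [div_le_iff₀ (by positivity)] at h2 h3
  refine ⟨hCT, ?_⟩
  have h4 : Real.log (1 + T) ≤ T := by
    have := Real.log_le_sub_one_of_pos (show 0 < 1 + T by linarith)
    linarith
  have hlog0 : 0 ≤ Real.log (1 + T) := Real.log_nonneg (by linarith)
  have h5 : Real.sqrt (D * Real.log (1 + T)) ≤ μ * T / 4 := by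
    rw [Real.sqrt_le_left (by positivity)]
    calc D * Real.log (1 + T) ≤ D * T := mul_le_mul_of_nonneg_left h4 hD.le
      _ ≤ (μ * T / 4) ^ 2 := by
          have : (16 * D) * T ≤ (T * μ ^ 2) * T := mul_le_mul_of_nonneg_right h2 (by linarith)
          nlinarith
  have h6 : 8 * Real.sqrt r ≤ μ * T / 2 := by
    have e1 : 16 / μ * Real.sqrt r ≤ T := by
      have := mul_le_mul_of_nonneg_right g4 hsr
      nlinarith
    rw [div_mul_eq_mul_div, div_le_iff₀ hμ] at e1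
    linarith
  have h7 : Real.sqrt (D * Real.log (1 + T) + 64 * r) ≤
      Real.sqrt (D * Real.log (1 + T)) + 8 * Real.sqrt r := by
    rw [Real.sqrt_le_left (by positivity)]
    have e1 := Real.sq_sqrt (show 0 ≤ D * Real.log (1 + T) by positivity)
    have e2 := Real.sq_sqrt hr
    have e3 := mul_nonneg (Real.sqrt_nonneg (D * Real.log (1 + T))) hsr
    nlinarith
  linarith

theorem bh_alg (K C X W Z a b : ℝ) (hK : 0 ≤ K) (hC : 0 ≤ C) (hX : 0 ≤ X) (hW : 0 ≤ W) (hZ : 0 ≤ Z)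
    (hb : 0 ≤ b) :
    K * (X + a + Z) + 12 * C * a ≤ (K + 12 * C) * ((X + W + (a + b)) + Z) := by
  have h1 := mul_nonneg hK hW
  have h2 := mul_nonneg hK hb
  have h3 := mul_nonneg hC hX
  have h4 := mul_nonneg hC hW
  have h5 := mul_nonneg hC hb
  have h6 := mul_nonneg hC hZ
  have h7 : (K + 12 * C) * ((X + W + (a + b)) + Z) = K * (X + a + Z) + 12 * C * a +
      (K * W + K * b) + 12 * (C * X + C * W + C * b + C * Z) := by ring
  rw [h7]
  linarith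

end Pool.Agent.Helper13.LZ
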