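import Pool.Agent.Helper13.LZ.Spec
import Pool.Agent.Helper13.LZ.Core1
import Pool.Agent.Helper13.LZ.Par
import Pool.Agent.Helper13.LZ.P3
import Pool.Agent.Helper13.LZ.P4
import Pool.Agent.Helper49.LZ.P5

/-!
# Zeros of bounded height: the core estimate for a family of Hecke L-functions (helper13)

Adapted from the library module `A856.BH.Core3K` (owner helper856) and `N784.HC.MainN`.
-/

set_option autoImplicit false
set_option linter.unusedVariables false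

open NumberField Filter Topology MeasureTheory

namespace Pool.Agent.Helper13.LZ

open Pool.Agent.Y773 (LI cc TPos)
open Pool.Agent.Y773.G (cj)
open Pool.Agent.Y767 (Cls cK)
open Pool.Agent.Y773.IQ (LL absNorm_pos')
open Pool.Agent.N786 (MSD kc)
open Pool.Agent.N784.AD (pi1 Un LSG EO gw one_le_norm par_const exp_dom)
open Pool.Agent.N784.HC (FamN IsHecke CTyp Dn cdN cdN_spec FamN_finite fam_largeN fam_ratioN fam_condN
  avg_cond cdN_norm_le FamN_norm_le)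
open ArithmeticFunction (vonMangoldt)
open H385 (Rw cyc_num he_param)
open H370 (zset mult NN Nd Ns)

/-- the L-function shifted by `3T/2` -/
noncomputable def FH (K : Type) [Field K] [NumberField K] (ψ : Ideal (𝓞 K) →*₀ ℂ) (T : ℝ) : ℂ → ℂ :=
  fun z => LL K ψ (z - ((3 / 2 * T : ℝ) : ℂ) * Complex.I)

lemma norm_cpow_le (w : ℝ) (m : ℕ) : ‖(m : ℂ) ^ ((w : ℂ) * Complex.I)‖ ≤ 1 := by
  rcases Nat.eq_zero_or_pos m with rfl | hm
  · rw [Nat.cast_zero]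
    by_cases h : (w : ℂ) * Complex.I = 0
    · rw [h, Complex.cpow_zero, norm_one]
    · rw [Complex.zero_cpow h, norm_zero]
      exact zero_le_one
  · rw [Complex.norm_natCast_cpow_of_pos hm]
    simp

/-- the large sieve for the shifted coefficients -/
lemma lsg_twist {ι : Type} {s : Finset ι} {a : ι → ℕ → ℂ} {c : ℕ → ℂ} {q : ℕ} {W A0 A1 : ℝ}
    (hW : 0 ≤ W) (h : LSG s a c q W A0 A1) (w : ℝ) :
    LSG s (fun i m => a i m * (m : ℂ) ^ ((w : ℂ) * Complex.I)) c q W A0 A1 := by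
  intro M b ω u hω hu hb
  have hn : ∀ m : ℕ, ‖b m * (m : ℂ) ^ ((w : ℂ) * Complex.I)‖ ≤ ‖b m‖ := fun m => by
    rw [norm_mul]
    exact mul_le_of_le_one_right (norm_nonneg _) (norm_cpow_le w m)
  have h1 := h M (fun m => b m * (m : ℂ) ^ ((w : ℂ) * Complex.I)) ω u hω hu (fun m hm => by
    refine le_trans ?_ (hb m hm)
    exact mul_le_mul_of_nonneg_right (hn m) (Real.log_natCast_nonneg m))
  have e1 : ∀ i : ι, (∑ m ∈ Finset.Icc 1 M, b m *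
      (if m.Prime ∧ Nat.Coprime m q then a i m * (m : ℂ) ^ ((w : ℂ) * Complex.I) else 0)) =
      ∑ m ∈ Finset.Icc 1 M, (b m * (m : ℂ) ^ ((w : ℂ) * Complex.I)) *
      (if m.Prime ∧ Nat.Coprime m q then a i m else 0) := by
    intro i
    refine Finset.sum_congr rfl fun m _ => ?_
    split_ifs
    · ring
    · ring
  simp only [e1]
  refine h1.trans (mul_le_mul_of_nonneg_left ?_ hW)
  refine add_le_add ?_ le_rfl
  refine Finset.sum_le_sum fun m _ => ?_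
  exact mul_le_mul_of_nonneg_right (pow_le_pow_left₀ (norm_nonneg _) (hn m) 2) (by positivity)

lemma mean_aux {c : ℝ} (hc : c ≠ 0) (a Q X : ℝ) : c⁻¹ * (a * Q - c * X) = a * (Q / c) - X := by
  field_simp

set_option maxHeartbeats 4000000 in
/-- the core estimate -/
theorem coreL (h2 : StP2) (K : Type) [Field K] [NumberField K]
    (n : (K →+* ℂ) → ℕ) (hn : CTyp n) (hn1 : ∀ φ, 1 ≤ n φ + n (cj φ)) (hn0 : n ≠ 0) (γ ε : ℝ)
    (h0 : 0 < γ) (hπ : γ < Real.pi) (hε : 0 < ε) :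
    ∃ δ X₀ C₀ η : ℝ, 0 < δ ∧ δ < 1 ∧ 1 ≤ X₀ ∧ 1 ≤ C₀ ∧ 0 < η ∧
    ∀ 𝔮 : Ideal (𝓞 K), 𝔮 ≠ ⊥ → X₀ ≤ (Ideal.absNorm 𝔮 : ℝ) →
      (∀ htop : 𝔮 ≠ ⊤, (Dn n htop).Nonempty) → (Un 𝔮 : ℝ) ≤ (Ideal.absNorm 𝔮 : ℝ) ^ δ →
      𝔮 ≠ ⊤ ∧ (FamN n 𝔮).Finite ∧ (Ideal.absNorm 𝔮 : ℝ) ^ (1 - ε) ≤ ((FamN n 𝔮).ncard : ℝ) ∧
      ∀ T : ℝ, C₀ * (1 + Real.sqrt (Real.log (Un 𝔮))) ≤ T → T ≤ (Ideal.absNorm 𝔮 : ℝ) ^ η →
        ∀ S : Finset (Ideal (𝓞 K) →*₀ ℂ), (∀ ψ ∈ S, ψ ∈ FamN n 𝔮) →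
          (1 - δ) * ((FamN n 𝔮).ncard : ℝ) ≤ (S.card : ℝ) →
          (∀ ψ ∈ S, (zset (FH K ψ T) T (2 * T)).Finite) ∧
          (1 - ε) * ((S.card : ℝ) * (T / (2 * Real.pi) * Real.log (Ideal.absNorm 𝔮 : ℝ))) ≤
            ∑ ψ ∈ S, (NN (FH K ψ T) T (2 * T) : ℝ) ∧
          (2 - kc γ 1 - ε) * ∑ ψ ∈ S, (NN (FH K ψ T) T (2 * T) : ℝ) ≤
            ∑ ψ ∈ S, (Ns (FH K ψ T) T (2 * T) : ℝ) := by
  classical
  have hpi := Real.pi_pos
  -- the constants of the trace inequality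
  obtain ⟨hR0, hI0, D, r', hD1, hr0', hr1', hconst⟩ := par_const γ 1 ε h0 hπ one_pos hε
  have hconst2 := hconst 2 (by norm_num)
  obtain ⟨β, hβd⟩ : ∃ β : ℝ, β = 2 * r' := ⟨_, rfl⟩
  have hβ : 0 < β := by rw [hβd]; positivity
  have hβ1 : β < 2 := by rw [hβd]; linarith
  have e12 : (1 : ℝ) * 2 * r' = β := by rw [hβd]; ring
  rw [e12] at hconst2
  obtain ⟨J, hJ⟩ : ∃ J : ℝ, J = ∫ α in (0 : ℝ)..1, α * Rw γ α := ⟨_, rfl⟩
  rw [← hJ] at hI0 hconst2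
  have hD0 : 0 < D := by linarith
  -- inputs
  obtain ⟨A, hA1, hgood⟩ := h2 K n hn hn1
  obtain ⟨d, hd⟩ : ∃ d : ℝ, d = (Module.finrank ℚ K : ℝ) := ⟨_, rfl⟩
  have hd1 : 1 ≤ d := by
    have := Module.finrank_pos (R := ℚ) (M := K)
    rw [hd]; exact_mod_cast this
  obtain ⟨K1, hK1, hfam⟩ := fam_B γ h0 hπ A hA1
  obtain ⟨C2, hC2, hlow⟩ := low_B A hA1
  obtain ⟨C4, η5, N5, hC4, hη5, hN5, hnb⟩ := Pool.Agent.Helper49.LZ.p5 K n hn hn0 D hD1.le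
  obtain ⟨CC, hCC⟩ : ∃ CC : ℝ, CC = K1 + 12 * (2 * C4) := ⟨_, rfl⟩
  have hCC0 : 0 < CC := by rw [hCC]; positivity
  obtain ⟨ε1, L0, hε1, hL0, hnum⟩ := cyc_num (4 * Rw γ 0) (2 * β * J * D) β (ε / 2) CC C2
    (by positivity) (by positivity) hβ (by positivity) hCC0 hC2
  obtain ⟨CE, δ3, N3, hCE, hδ3, hN3, hlsg⟩ := p3 K n r' hr0' hr1'
  obtain ⟨L1, η4, hL1, hη4, hmsd⟩ := p4 (cK K) (Pool.Agent.Y772.HC.t_mer K) d D hd1 hD1.le γ β h0
    hπ hβ ε1 (3 * CE) hε1 (by positivity)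
  obtain ⟨ε2, hε2d⟩ : ∃ ε2 : ℝ, ε2 = min ε1 (min (1 / 4) (ε / 2)) := ⟨_, rfl⟩
  have hε2 : 0 < ε2 := by rw [hε2d]; positivity
  have hε21 : ε2 ≤ ε1 := by rw [hε2d]; exact min_le_left _ _
  have hε22 : ε2 ≤ 1 / 4 := by
    rw [hε2d]; exact (min_le_right _ _).trans (min_le_left _ _)
  have hε23 : ε2 ≤ ε / 2 := by
    rw [hε2d]; exact (min_le_right _ _).trans (min_le_right _ _)
  obtain ⟨μ, hμd⟩ : ∃ μ : ℝ, μ = min (min (ε1 / 2) η4) (min (1 / 4) (ε / (40 * C2))) := ⟨_, rfl⟩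
  have hμ : 0 < μ := by rw [hμd]; positivity
  have hμ1 : μ ≤ ε1 / 2 := by rw [hμd]; exact (min_le_left _ _).trans (min_le_left _ _)
  have hμ2 : μ ≤ η4 := by rw [hμd]; exact (min_le_left _ _).trans (min_le_right _ _)
  have hμ3 : μ ≤ 1 / 4 := by rw [hμd]; exact (min_le_right _ _).trans (min_le_left _ _)
  have hμ4 : μ ≤ ε / (40 * C2) := by rw [hμd]; exact (min_le_right _ _).trans (min_le_right _ _)
  have hμ5 : C2 * μ ≤ ε / 40 := by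
    calc C2 * μ ≤ C2 * (ε / (40 * C2)) := mul_le_mul_of_nonneg_left hμ4 hC2.le
      _ = ε / 40 := by field_simp
  obtain ⟨T0, hT01, hedge⟩ := bh_edge 32 μ (by norm_num) hμ
  obtain ⟨η, hηd⟩ : ∃ η : ℝ, η = min (min (μ / 4) (1 / 128)) η5 := ⟨_, rfl⟩
  have hη : 0 < η := by rw [hηd]; positivity
  have hη1 : 2 * η ≤ μ / 2 := by
    have : η ≤ μ / 4 := by rw [hηd]; exact (min_le_left _ _).trans (min_le_left _ _)
    linarith
  have hη2 : η ≤ 1 / 128 := by rw [hηd]; exact (min_le_left _ _).trans (min_le_right _ _)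
  have hη3 : η ≤ η5 := by rw [hηd]; exact min_le_right _ _
  -- the family
  obtain ⟨D', hD'⟩ : ∃ D' : ℝ, D' = (1 + D) / 2 := ⟨_, rfl⟩
  have hD'1 : 1 < D' := by rw [hD']; linarith
  have hD'D : D' < D := by rw [hD']; linarith
  obtain ⟨Nr, hNr, hratio⟩ := fam_ratioN K n hD'1
  obtain ⟨δc, Nc, hδc, hNc, hcond⟩ := fam_condN K n (show 0 < ε2 / 2 by positivity)
  obtain ⟨δl, Nl, hδl, hNl, hlarge⟩ := fam_largeN K n hε
  obtain ⟨x1, hx1, hx1'⟩ := exp_dom (2 * η5) 4 (by positivity)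
  obtain ⟨δ, hδ⟩ : ∃ δ : ℝ, δ = min (min (min δc δl) (min δ3 (1 / 256))) (1 - D' / D) := ⟨_, rfl⟩
  have hδ0 : 0 < δ := by
    rw [hδ]
    refine lt_min (lt_min (lt_min hδc hδl) (lt_min hδ3 (by norm_num))) ?_
    have : D' / D < 1 := by rw [div_lt_one (by linarith)]; exact hD'D
    linarith
  have hδa : δ ≤ δc := by
    rw [hδ]; exact ((min_le_left _ _).trans (min_le_left _ _)).trans (min_le_left _ _)
  have hδb : δ ≤ δl := by
    rw [hδ]; exact ((min_le_left _ _).trans (min_le_left _ _)).trans (min_le_right _ _)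
  have hδ3' : δ ≤ δ3 := by
    rw [hδ]; exact ((min_le_left _ _).trans (min_le_right _ _)).trans (min_le_left _ _)
  have hδe : δ ≤ 1 / 256 := by
    rw [hδ]; exact ((min_le_left _ _).trans (min_le_right _ _)).trans (min_le_right _ _)
  have hδf : δ ≤ 1 - D' / D := by rw [hδ]; exact min_le_right _ _
  have hδ1 : δ < 1 := by linarith
  obtain ⟨M, hM⟩ : ∃ M : ℝ, M = L0 + L1 + 1 / β + 484 / μ ^ 2 + 81 + x1 := ⟨_, rfl⟩
  refine ⟨δ, max (max (max Nr Nc) (max Nl N5)) (max N3 (Real.exp (2 * M))), T0, η, hδ0, hδ1,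
    ?_, hT01, hη, ?_⟩
  · exact ((hNr.trans (le_max_left _ _)).trans (le_max_left _ _)).trans (le_max_left _ _)
  intro 𝔮 hbot hN hne0 hU
  have hN1 : Nr ≤ (Ideal.absNorm 𝔮 : ℝ) :=
    (((le_max_left _ _).trans (le_max_left _ _)).trans (le_max_left _ _)).trans hN
  have hN2 : Nc ≤ (Ideal.absNorm 𝔮 : ℝ) :=
    (((le_max_right _ _).trans (le_max_left _ _)).trans (le_max_left _ _)).trans hN
  have hN3a : Nl ≤ (Ideal.absNorm 𝔮 : ℝ) :=
    (((le_max_left _ _).trans (le_max_right _ _)).trans (le_max_left _ _)).trans hN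
  have hN4 : N5 ≤ (Ideal.absNorm 𝔮 : ℝ) :=
    (((le_max_right _ _).trans (le_max_right _ _)).trans (le_max_left _ _)).trans hN
  have hN5' : N3 ≤ (Ideal.absNorm 𝔮 : ℝ) := ((le_max_left _ _).trans (le_max_right _ _)).trans hN
  have hN6 : Real.exp (2 * M) ≤ (Ideal.absNorm 𝔮 : ℝ) :=
    ((le_max_right _ _).trans (le_max_right _ _)).trans hN
  clear hN
  have hNpos : (0 : ℝ) < (Ideal.absNorm 𝔮 : ℝ) := lt_of_lt_of_le (Real.exp_pos _) hN6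
  have hβi : 0 < 1 / β := by positivity
  have hμi : 0 < 484 / μ ^ 2 := by positivity
  have hM0 : 81 ≤ M := by linarith only [hM, hL0, hL1, hβi, hμi, hx1]
  obtain ⟨ℒ, hℒd⟩ : ∃ ℒ : ℝ, ℒ = Real.log (Ideal.absNorm 𝔮) / 2 := ⟨_, rfl⟩
  have hlogn : Real.log (Ideal.absNorm 𝔮) = 2 * ℒ := by rw [hℒd]; ring
  have hnexp : (Ideal.absNorm 𝔮 : ℝ) = Real.exp (2 * ℒ) := by
    rw [← hlogn, Real.exp_log hNpos]
  have hMℒ : M ≤ ℒ := by
    have h1 : 2 * M ≤ Real.log (Ideal.absNorm 𝔮) := by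
      rw [Real.le_log_iff_exp_le hNpos]
      exact hN6
    rw [hlogn] at h1
    linarith only [h1]
  have hℒL0 : L0 ≤ ℒ := by linarith only [hMℒ, hM, hL0, hL1, hβi, hμi, hx1]
  have hℒL1 : L1 ≤ ℒ := by linarith only [hMℒ, hM, hL0, hL1, hβi, hμi, hx1]
  have hℒβ : 1 / β ≤ ℒ := by linarith only [hMℒ, hM, hL0, hL1, hβi, hμi, hx1]
  have hℒμ : 484 / μ ^ 2 ≤ ℒ := by linarith only [hMℒ, hM, hL0, hL1, hβi, hμi, hx1]
  have hℒx : x1 ≤ ℒ := by linarith only [hMℒ, hM, hL0, hL1, hβi, hμi, hx1]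
  have hℒ81 : 81 ≤ ℒ := by linarith only [hMℒ, hM, hL0, hL1, hβi, hμi, hx1]
  have hℒ1 : 1 ≤ ℒ := by linarith only [hℒ81]
  have hℒ0 : 0 < ℒ := by linarith only [hℒ81]
  have hNge : (1 : ℝ) ≤ (Ideal.absNorm 𝔮 : ℝ) := by
    rw [hnexp]; exact Real.one_le_exp (by positivity)
  have htop : 𝔮 ≠ ⊤ := by
    intro h
    rw [h, Ideal.absNorm_top, Nat.cast_one, Real.log_one] at hlogn
    linarith only [hlogn, hℒ0]
  have hne := hne0 htop
  have hpw : ∀ e : ℝ, δ ≤ e → (Un 𝔮 : ℝ) ≤ (Ideal.absNorm 𝔮 : ℝ) ^ e := fun e he =>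
    hU.trans (Real.rpow_le_rpow_of_exponent_le hNge he)
  have hfin := (FamN_finite (n := n) hbot htop).1
  have hbig := hlarge 𝔮 hbot htop hne (hpw _ hδb) hN3a
  refine ⟨htop, hfin, hbig, ?_⟩
  intro T hTa' hTb S hS hSc
  have hFpos : (0 : ℝ) < ((FamN n 𝔮).ncard : ℝ) :=
    lt_of_lt_of_le (Real.rpow_pos_of_pos hNpos _) hbig
  have hc0 : (0 : ℝ) < S.card := lt_of_lt_of_le (mul_pos (by linarith) hFpos) hSc
  have hSne : S.Nonempty := by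
    rw [← Finset.card_pos]
    exact_mod_cast hc0
  -- the number of unit classes
  obtain ⟨r, hr⟩ : ∃ r : ℝ, r = Real.log (Un 𝔮) := ⟨_, rfl⟩
  rw [← hr] at hTa'
  have hr0 : 0 ≤ r := by rw [hr]; exact Real.log_natCast_nonneg _
  have hUr : (Un 𝔮 : ℝ) ≤ Real.exp r := by rw [hr]; exact Real.le_exp_log _
  have hrℒ : r ≤ ℒ / 128 := by
    rcases Nat.eq_zero_or_pos (Un 𝔮) with hz | hz
    · rw [hr, hz, Nat.cast_zero, Real.log_zero]; positivity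
    · have hz' : (0 : ℝ) < Un 𝔮 := by exact_mod_cast hz
      have e1 := Real.log_le_log hz' (hpw _ hδe)
      rw [Real.log_rpow hNpos, hlogn] at e1
      rw [hr]
      linarith only [e1]
  obtain ⟨hTa, hedge'⟩ := hedge T r hr0 hTa'
  have hT1 : 1 ≤ T := hT01.trans hTa
  have hT0 : 0 < T := by linarith only [hT1]
  have hΛ1 : 1 ≤ β * ℒ := by
    have := hℒβ
    rw [div_le_iff₀ hβ] at this
    linarith only [this]
  obtain ⟨κ, hκd⟩ : ∃ κ : ℝ, κ = 4 * Real.sqrt ℒ := ⟨_, rfl⟩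
  have hTη : T ≤ Real.exp ((2 * η) * ℒ) := by
    refine hTb.trans (le_of_eq ?_)
    rw [Real.rpow_def_of_pos hNpos, hlogn]
    congr 1; ring
  have hη2' : 2 * η ≤ 1 := by linarith only [hη2]
  obtain ⟨b1, b2, b3, b4, hTexp⟩ := bh_param μ β hμ hβ1 ℒ T κ (2 * η) (by linarith only [hℒ81])
    hℒμ hT1 hη1 hη2' hTη hκd
  obtain ⟨p1, p2, -, -, -, p6⟩ := he_param β ℒ T κ hβ1 hℒ1 hκd hTexp
  -- the edges
  obtain ⟨κe, hκe⟩ : ∃ κe : ℝ, κe = Real.sqrt (32 * Real.log (1 + T) + 64 * r) + 3 :=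
    ⟨_, rfl⟩
  have hlogT : 0 ≤ Real.log (1 + T) := Real.log_nonneg (by linarith only [hT0])
  have hκe3 : 3 ≤ κe := by
    rw [hκe]
    have := Real.sqrt_nonneg (32 * Real.log (1 + T) + 64 * r)
    linarith only [this]
  have hκe0 : 0 < κe := by linarith only [hκe3]
  have hκeμ : κe ≤ μ * T := by rw [hκe]; exact hedge'
  have hsℒ : 9 ≤ Real.sqrt ℒ := by
    rw [show (9 : ℝ) = Real.sqrt 81 by
      rw [show (81 : ℝ) = 9 ^ 2 by norm_num, Real.sqrt_sq (by norm_num)]]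
    exact Real.sqrt_le_sqrt hℒ81
  have hκeκ : κe ≤ κ := by
    have a1 : Real.log (1 + T) ≤ 1 + (2 * η) * ℒ := by
      have e1 : Real.log (1 + T) ≤ Real.log (2 * T) :=
        Real.log_le_log (by linarith only [hT0]) (by linarith only [hT1])
      have e2 : Real.log (2 * T) = Real.log 2 + Real.log T :=
        Real.log_mul (by norm_num) hT0.ne'
      have e3 : Real.log T ≤ (2 * η) * ℒ := by
        rw [Real.log_le_iff_le_exp hT0]
        exact hTη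
      have e4 := Real.log_two_lt_d9
      rw [e2] at e1
      linarith only [e1, e3, e4]
    have a2 : 32 * Real.log (1 + T) + 64 * r ≤ (6 + Real.sqrt ℒ) ^ 2 := by
      have e3 : (2 * η) * ℒ ≤ 1 / 64 * ℒ :=
        mul_le_mul_of_nonneg_right (by linarith only [hη2]) hℒ0.le
      have e4 : (6 + Real.sqrt ℒ) ^ 2 = 36 + 12 * Real.sqrt ℒ + ℒ := by
        rw [add_sq, Real.sq_sqrt hℒ0.le]; ring
      rw [e4]
      linarith only [a1, e3, hrℒ, hsℒ]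
    have a3 := Real.sqrt_le_sqrt a2
    rw [Real.sqrt_sq (by positivity)] at a3
    rw [hκe, hκd]
    linarith only [a3, hsℒ]
  have hκe4 : 4 * κe ≤ T := by
    have : μ * T ≤ 1 / 4 * T := mul_le_mul_of_nonneg_right hμ3 hT0.le
    linarith only [this, hκeμ]
  have hDκ : 32 * Real.log (1 + T) + 64 * r ≤ κe ^ 2 := by
    have h1 : Real.sqrt (32 * Real.log (1 + T) + 64 * r) ≤ κe := by
      rw [hκe]
      linarith only
    have h2 := pow_le_pow_left₀ (Real.sqrt_nonneg _) h1 2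
    rwa [Real.sq_sqrt (by positivity)] at h2
  have hTe3 : T ≤ Real.exp (κe ^ 2 / 32) := by
    have h1 : 1 + T = Real.exp (Real.log (1 + T)) := (Real.exp_log (by linarith only [hT0])).symm
    have h2 : Real.exp (Real.log (1 + T)) ≤ Real.exp (κe ^ 2 / 32) :=
      Real.exp_le_exp.mpr (by linarith only [hDκ, hr0])
    linarith only [h1, h2]
  have hUe : (Un 𝔮 : ℝ) ≤ Real.exp (κe ^ 2 / 32) :=
    hUr.trans (Real.exp_le_exp.mpr (by linarith only [hDκ, hr0, hlogT]))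
  have hTe2 : T ≤ Real.exp (κe ^ 2 / 2) := by
    have h2 : Real.exp (κe ^ 2 / 32) ≤ Real.exp (κe ^ 2 / 2) := by
      apply Real.exp_le_exp.mpr
      linarith only [sq_nonneg κe]
    linarith only [h2, hTe3]
  have hTe1 : T ≤ Real.exp (κe ^ 2) := by
    have h2 : Real.exp (κe ^ 2 / 2) ≤ Real.exp (κe ^ 2) := by
      apply Real.exp_le_exp.mpr
      linarith only [sq_nonneg κe]
    linarith only [h2, hTe2]
  obtain ⟨w, hw⟩ : ∃ w : ℝ, w = 3 / 2 * T := ⟨_, rfl⟩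
  obtain ⟨H, hH⟩ : ∃ H : ℝ, H = 2 * T + 3 * κ + 6 := ⟨_, rfl⟩
  have hκ0' : 0 ≤ κ := by linarith only [p1]
  have hw0 : 0 ≤ w := by rw [hw]; positivity
  have hH0 : 0 ≤ H := by
    rw [hH]
    linarith only [hT0, hκ0']
  obtain ⟨E, hE⟩ : ∃ E : ℝ, E = 1 + Real.log (1 + H + w) := ⟨_, rfl⟩
  have hE1 : 1 ≤ E := by
    rw [hE]
    have : 0 ≤ Real.log (1 + H + w) := Real.log_nonneg (by linarith only [hH0, hw0])
    linarith only [this]
  have hEμ : E ≤ μ * ℒ := by rw [hE, hH, hw]; exact b2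
  have hEℒ : E ≤ ℒ := by
    have : μ * ℒ ≤ 1 / 4 * ℒ := mul_le_mul_of_nonneg_right hμ3 hℒ0.le
    linarith only [this, hEμ, hℒ0]
  have hκη : κ ≤ (Ideal.absNorm 𝔮 : ℝ) ^ η5 := by
    rw [Real.rpow_def_of_pos hNpos, hlogn]
    have h1 := hx1' ℒ hℒx
    have h2 : 2 * η5 * ℒ = 2 * ℒ * η5 := by ring
    rw [h2] at h1
    refine le_trans ?_ h1
    rw [hκd]
    have h3 : Real.sqrt ℒ ≤ ℒ := by
      rw [Real.sqrt_le_left hℒ0.le]
      nlinarith only [hℒ1]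
    nlinarith only [h3, hℒ1]
  have hTη5 : T ≤ (Ideal.absNorm 𝔮 : ℝ) ^ η5 :=
    hTb.trans (Real.rpow_le_rpow_of_exponent_le hNge hη3)
  -- the set of all characters, the conductors
  obtain ⟨Sf, hSf⟩ : ∃ Sf : Finset (Ideal (𝓞 K) →*₀ ℂ), ∀ ψ, ψ ∈ Sf ↔ ψ ∈ FamN n 𝔮 :=
    ⟨hfin.toFinset, fun ψ => hfin.mem_toFinset⟩
  have hSfc : (Sf.card : ℝ) = ((FamN n 𝔮).ncard : ℝ) := by
    have : (FamN n 𝔮) = (Sf : Set _) := by
      ext ψ; rw [Finset.mem_coe, hSf]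
    rw [this, Set.ncard_coe_finset]
  have hSf2 : (Sf.card : ℝ) ≤ 2 * S.card := by
    rw [hSfc]
    have h1 : (3 / 4) * ((FamN n 𝔮).ncard : ℝ) ≤ (1 - δ) * ((FamN n 𝔮).ncard : ℝ) :=
      mul_le_mul_of_nonneg_right (by linarith only [hδe]) hFpos.le
    linarith only [h1, hSc, hFpos]
  have hav := avg_cond hbot S Sf hSf hS hSf2 (show 0 ≤ ε2 / 2 by positivity)
    (hcond 𝔮 hbot htop Sf hne (hpw _ hδa) hSf hN2)
    (d := 1) (T := 1) (L := Real.log (Ideal.absNorm 𝔮)) le_rfl one_pos (by rw [Real.log_one])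
    (by rw [Real.log_one]; ring)
  have hav' : (1 - ε2) * (2 * ℒ) * S.card ≤ ∑ ψ ∈ S, Real.log (Ideal.absNorm (cdN n 𝔮 ψ)) := by
    rw [hlogn] at hav
    have e1 : ∀ ψ ∈ S, Real.log ((Ideal.absNorm (cdN n 𝔮 ψ) : ℝ) ^ ((1 : ℝ) / 1) * 1) =
        Real.log (Ideal.absNorm (cdN n 𝔮 ψ)) := by
      intro ψ _
      rw [div_one, Real.rpow_one, mul_one]
    rw [Finset.sum_congr rfl e1] at hav
    have e2 : 1 - 2 * (ε2 / 2) = 1 - ε2 := by ring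
    rwa [e2] at hav
  -- the large sieve
  have hrat : (Nat.card (Cls (pi1 htop)) : ℝ) ≤ D * S.card := by
    have h1 := hratio 𝔮 hbot htop hne (hpw _ (by linarith only [hδe])) hN1
    have h2 : D' / D * ((FamN n 𝔮).ncard : ℝ) ≤ S.card := by
      refine le_trans ?_ hSc
      exact mul_le_mul_of_nonneg_right (by linarith only [hδf]) hFpos.le
    calc (Nat.card (Cls (pi1 htop)) : ℝ) ≤ D' * ((FamN n 𝔮).ncard : ℝ) := h1
      _ = D * (D' / D * ((FamN n 𝔮).ncard : ℝ)) := by field_simp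
      _ ≤ D * S.card := mul_le_mul_of_nonneg_left h2 hD0.le
  have hn1' : ∀ ψ ∈ S, ∀ 𝔞, ‖ψ 𝔞‖ ≤ 1 := fun ψ hψ => FamN_norm_le (hS ψ hψ)
  have hacc : ∀ ψ ∈ S, ∀ m : ℕ, ‖cc ψ m * (vonMangoldt m : ℂ) * (m : ℂ) ^ ((w : ℂ) * Complex.I)‖ ≤
      d * vonMangoldt m := by
    intro ψ hψ m
    have h8 := Pool.Agent.Y772.DK.norm_cc_le ψ (hn1' ψ hψ) m
    rw [← hd] at h8
    have h9 : ‖cc ψ m * (vonMangoldt m : ℂ)‖ ≤ d * vonMangoldt m := by
      rw [norm_mul, Complex.norm_real,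
        Real.norm_of_nonneg ArithmeticFunction.vonMangoldt_nonneg]
      exact mul_le_mul_of_nonneg_right h8 ArithmeticFunction.vonMangoldt_nonneg
    rw [norm_mul]
    refine le_trans (mul_le_of_le_one_right (norm_nonneg _) (norm_cpow_le w m)) h9
  have hqN : 1 ≤ Ideal.absNorm 𝔮 := absNorm_pos' hbot
  have hms : MSD S (fun _ => (S.card : ℝ)⁻¹)
      (fun ψ m => cc ψ m * (vonMangoldt m : ℂ) * (m : ℂ) ^ ((w : ℂ) * Complex.I)) γ β
      (2 * β * J * D) ε1 ℒ T := by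
    rw [hJ]
    refine hmsd S _ (Ideal.absNorm 𝔮) ℒ T κe hSne hℒL1 hT1 hTe1 (by linarith only [hκe3])
      (hκeμ.trans (mul_le_mul_of_nonneg_right hμ2 hT0.le)) hqN hlogn.le hacc ?_
    intro u hu
    obtain ⟨A0, A1, hA0, hA1', hl1, hl2⟩ := hlsg 𝔮 hbot htop (hpw _ hδ3') hN5' S hS (D * S.card) hrat
      u (by
        have e : r' * Real.log (Ideal.absNorm 𝔮) = β * ℒ := by rw [hlogn, hβd]; ring
        rw [e]; exact hu)
    refine ⟨A0, A1, hA0, hA1', lsg_twist (mul_nonneg hD0.le hc0.le) hl1 w, hl2.trans ?_⟩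
    rw [hlogn]
    have e1 : (2 * ℒ) ^ (3 / 2 : ℝ) = 2 ^ (3 / 2 : ℝ) * ℒ ^ (3 / 2 : ℝ) :=
      Real.mul_rpow (by norm_num) hℒ0.le
    have e2 : (2 : ℝ) ^ (3 / 2 : ℝ) ≤ 3 := by
      have h1 : ((2 : ℝ) ^ (3 / 2 : ℝ)) ^ 2 = 8 := by
        rw [← Real.rpow_natCast, ← Real.rpow_mul (by norm_num)]
        norm_num
      have h2 : 0 ≤ (2 : ℝ) ^ (3 / 2 : ℝ) := by positivity
      nlinarith only [h1, h2]
    have e3 : 0 ≤ ℒ ^ (3 / 2 : ℝ) * Real.exp (-u / 32) := by positivity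
    rw [e1]
    have e4 : 2 ^ (3 / 2 : ℝ) * ℒ ^ (3 / 2 : ℝ) * Real.exp (-u / 32) ≤
        3 * (ℒ ^ (3 / 2 : ℝ) * Real.exp (-u / 32)) := by
      rw [mul_assoc]
      exact mul_le_mul_of_nonneg_right e2 e3
    calc CE * (2 ^ (3 / 2 : ℝ) * ℒ ^ (3 / 2 : ℝ) * Real.exp (-u / 32) + 1) ≤
        CE * (3 * (ℒ ^ (3 / 2 : ℝ) * Real.exp (-u / 32) + 1)) :=
          mul_le_mul_of_nonneg_left (by linarith only [e4]) hCE
      _ = _ := by ring
  obtain ⟨Yf, y1, y2, hy1, hy2, m1, m2, m3, m4, m5⟩ := hms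
  -- the analytic input
  have hlogc : ∀ ψ ∈ S, Real.log (Ideal.absNorm (cdN n 𝔮 ψ)) ≤ 2 * ℒ := by
    intro ψ hψ
    obtain ⟨g1, g2⟩ := cdN_norm_le hbot (hS ψ hψ)
    have := Real.log_le_log (by linarith only [g1]) g2
    rwa [hlogn] at this
  have hGd : ∀ ψ ∈ S, GoodB A ℒ E H (Real.log (Ideal.absNorm (cdN n 𝔮 ψ))) (FH K ψ T)
      (fun m => cc ψ m * (vonMangoldt m : ℂ) * (m : ℂ) ^ ((w : ℂ) * Complex.I)) := by
    intro ψ hψ
    obtain ⟨g1, g2, g3⟩ := cdN_spec (hS ψ hψ)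
    have := hgood _ ψ g2 g3 w H E ℒ hH0 (by rw [hE, abs_of_nonneg hw0]) hEℒ (hlogc ψ hψ)
    unfold FH
    rw [← hw]
    exact this
  have hcr0 : 0 ≤ (S.card : ℝ)⁻¹ := inv_nonneg.mpr hc0.le
  have hW : ∑ _ψ ∈ S, (S.card : ℝ)⁻¹ = 1 := by
    rw [Finset.sum_const, nsmul_eq_mul, mul_inv_cancel₀ hc0.ne']
  obtain ⟨V1, V2, hV, k1'⟩ := hfam S (fun _ => (S.card : ℝ)⁻¹)
    (fun ψ => Real.log (Ideal.absNorm (cdN n 𝔮 ψ))) (fun ψ => FH K ψ T)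
    (fun ψ m => cc ψ m * (vonMangoldt m : ℂ) * (m : ℂ) ^ ((w : ℂ) * Complex.I)) T κ κe (β * ℒ) ℒ E H
    y1 y2 Yf (fun ψ hψ => ⟨hcr0, hGd ψ hψ⟩) hℒ1 hE1 hEℒ hκe3 hκeκ hκe4 hTe2
    (by rw [hH]) hΛ1 b1 hy1 hy2 m1 m2 m3
  -- the bad zeros
  have hbad : ∑ ψ ∈ S, (S.card : ℝ)⁻¹ * NB (FH K ψ T) (V1 ψ) (V2 ψ) T κe (β * ℒ) ≤
      2 * C4 * ℒ := by
    have h1 := hnb 𝔮 hbot htop hN4 S hS hrat T κ κe (β * ℒ) V1 V2 hT1 hTη5 (by linarith only [hκe3])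
      hκeκ hκη (by positivity)
      (by rw [hlogn]; exact mul_le_mul_of_nonneg_right hβ1.le hℒ0.le) hUe
      (fun ψ hψ => ⟨(hV ψ hψ).1, (hV ψ hψ).2.2.2⟩)
    rw [hlogn] at h1
    unfold FH
    linarith only [h1]
  obtain ⟨SN, hSN⟩ : ∃ SN : ℝ, SN = ∑ ψ ∈ S, (S.card : ℝ)⁻¹ *
    (NN (FH K ψ T) T (2 * T) : ℝ) := ⟨_, rfl⟩
  have hSN2 : (S.card : ℝ) * SN = ∑ ψ ∈ S, (NN (FH K ψ T) T (2 * T) : ℝ) := by
    rw [hSN, ← Finset.mul_sum, ← mul_assoc, mul_inv_cancel₀ hc0.ne', one_mul]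
  -- lower bound for the number of zeros
  have hlow2 : T / (2 * Real.pi) * (2 * ℒ) * (1 - ε2) - C2 * (T * E + κe * ℒ) ≤ SN := by
    have hpt : ∀ ψ ∈ S, T / (2 * Real.pi) * Real.log (Ideal.absNorm (cdN n 𝔮 ψ)) -
          C2 * (T * E + κe * ℒ) ≤ (NN (FH K ψ T) T (2 * T) : ℝ) := by
      intro ψ hψ
      exact hlow ℒ E H _ (FH K ψ T) _ (hGd ψ hψ) T κ κe hκe3 hκeκ hκe4 hTe2 p6 (by rw [hH])
    have hsum : ∑ ψ ∈ S, (S.card : ℝ)⁻¹ *
        (T / (2 * Real.pi) * Real.log (Ideal.absNorm (cdN n 𝔮 ψ)) -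
          C2 * (T * E + κe * ℒ)) ≤ SN := by
      rw [hSN]
      exact Finset.sum_le_sum fun ψ hψ => mul_le_mul_of_nonneg_left (hpt ψ hψ) hcr0
    rw [← Finset.mul_sum, Finset.sum_sub_distrib, ← Finset.mul_sum, Finset.sum_const,
      nsmul_eq_mul] at hsum
    obtain ⟨Q, hQ⟩ : ∃ Q : ℝ, Q = ∑ ψ ∈ S, Real.log (Ideal.absNorm (cdN n 𝔮 ψ)) := ⟨_, rfl⟩
    rw [← hQ] at hsum hav'
    have e1 : (S.card : ℝ)⁻¹ * (T / (2 * Real.pi) * Q - S.card * (C2 * (T * E + κe * ℒ))) =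
        T / (2 * Real.pi) * (Q / S.card) - C2 * (T * E + κe * ℒ) := mean_aux hc0.ne' _ _ _
    rw [e1] at hsum
    have e2 : (1 - ε2) * (2 * ℒ) ≤ Q / S.card := by
      rw [le_div_iff₀ hc0]; exact hav'
    have e3 : T / (2 * Real.pi) * ((1 - ε2) * (2 * ℒ)) ≤ T / (2 * Real.pi) * (Q / S.card) :=
      mul_le_mul_of_nonneg_left e2 (by positivity)
    have e4 : T / (2 * Real.pi) * (2 * ℒ) * (1 - ε2) = T / (2 * Real.pi) * ((1 - ε2) * (2 * ℒ)) := by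
      ring
    rw [e4]
    linarith only [e3, hsum]
  have hTℒ0 : 0 ≤ T * ℒ := by positivity
  have hC2E : C2 * (T * E + κe * ℒ) ≤ ε / 20 * (T * ℒ) := by
    have h1 : T * E ≤ μ * (T * ℒ) := by
      calc T * E ≤ T * (μ * ℒ) := mul_le_mul_of_nonneg_left hEμ hT0.le
        _ = _ := by ring
    have h2 : κe * ℒ ≤ μ * (T * ℒ) := by
      calc κe * ℒ ≤ (μ * T) * ℒ := mul_le_mul_of_nonneg_right hκeμ hℒ0.le
        _ = _ := by ring
    calc C2 * (T * E + κe * ℒ) ≤ C2 * (2 * (μ * (T * ℒ))) :=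
          mul_le_mul_of_nonneg_left (by linarith only [h1, h2]) hC2.le
      _ = 2 * (C2 * μ) * (T * ℒ) := by ring
      _ ≤ 2 * (ε / 40) * (T * ℒ) := by gcongr
      _ = _ := by ring
  have hNlow : T / (2 * Real.pi) * ℒ * (1 - ε2) - C2 * (T * E + κe * ℒ) ≤ SN / 2 := by
    have h2 : 0 ≤ C2 * (T * E + κe * ℒ) := by positivity
    have h3 : T / (2 * Real.pi) * (2 * ℒ) * (1 - ε2) =
      2 * (T / (2 * Real.pi) * ℒ * (1 - ε2)) := by ring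
    rw [h3] at hlow2
    linarith only [h2, hlow2]
  have hpart1 : (1 - ε) * (T / (2 * Real.pi) * (2 * ℒ)) ≤ SN := by
    have h1 : ε / 20 * (T * ℒ) ≤ ε / 2 * (T / (2 * Real.pi) * (2 * ℒ)) := by
      have e : ε / 2 * (T / (2 * Real.pi) * (2 * ℒ)) = (ε / (2 * Real.pi)) * (T * ℒ) := by
        field_simp
      rw [e]
      apply mul_le_mul_of_nonneg_right _ hTℒ0
      apply div_le_div_of_nonneg_left hε.le (by positivity)
      have := Real.pi_lt_four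
      linarith only [this]
    have h2 : (1 - ε / 2) * (T / (2 * Real.pi) * (2 * ℒ)) ≤
        (1 - ε2) * (T / (2 * Real.pi) * (2 * ℒ)) :=
      mul_le_mul_of_nonneg_right (by linarith only [hε23]) (by positivity)
    have h3 : T / (2 * Real.pi) * (2 * ℒ) * (1 - ε2) =
      (1 - ε2) * (T / (2 * Real.pi) * (2 * ℒ)) := by ring
    rw [h3] at hlow2
    obtain ⟨X, hX⟩ : ∃ X : ℝ, X = T / (2 * Real.pi) * (2 * ℒ) := ⟨_, rfl⟩
    rw [← hX] at h1 h2 hlow2 ⊢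
    linarith only [h1, h2, hlow2, hC2E]
  refine ⟨fun ψ hψ => zfin (hGd ψ hψ) _ _, ?_, ?_⟩
  · rw [← hSN2, hlogn]
    have h1 := mul_le_mul_of_nonneg_left hpart1 hc0.le
    linarith only [h1]
  · -- the main inequality
    obtain ⟨κ', hκ'⟩ : ∃ κ' : ℝ, κ' = κe + E * T / ℒ := ⟨_, rfl⟩
    have hET : E * T / ℒ ≤ ε1 / 2 * T := by
      rw [div_le_iff₀ hℒ0]
      have h1 : E ≤ ε1 / 2 * ℒ := hEμ.trans (mul_le_mul_of_nonneg_right hμ1 hℒ0.le)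
      calc E * T ≤ (ε1 / 2 * ℒ) * T := mul_le_mul_of_nonneg_right h1 hT0.le
        _ = _ := by ring
    have hκ'1 : κ' ≤ ε1 * T := by
      have h1 : κe ≤ ε1 / 2 * T := hκeμ.trans (mul_le_mul_of_nonneg_right hμ1 hT0.le)
      rw [hκ']
      linarith only [h1, hET]
    have hκ'0 : 0 ≤ κ' := by rw [hκ']; positivity
    have hκ'ℒ : κ' * ℒ = κe * ℒ + E * T := by
      rw [hκ']
      field_simp
    obtain ⟨SM, hSM⟩ : ∃ SM : ℝ, SM = ∑ ψ ∈ S, (S.card : ℝ)⁻¹ *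
      (2 * (NN (FH K ψ T) T (2 * T) : ℝ) - (Ns (FH K ψ T) T (2 * T) : ℝ)) := ⟨_, rfl⟩
    rw [← hSM, hW, Real.sqrt_one, one_mul, one_mul, one_mul] at k1'
    rw [hW, Real.sqrt_one, mul_one] at m5
    rw [hW, mul_one] at m4
    have h1 : SM ≤ (4 * Rw γ 0 / β + 2 * β * J * D + ε / 2) * (SN / 2) := by
      refine hnum T ℒ κ' (Real.sqrt y1 + Real.sqrt y2) _ SM _ hT0 hℒL0 hκ'0 hκ'1 m5 m4 ?_ ?_
      · refine k1'.trans ?_
        have e : (2 * ℒ) ^ 2 * Rw γ 0 * T = ℒ ^ 2 * (4 * Rw γ 0) * T := by ring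
        rw [e]
        have hX : ℒ ^ 2 * κe / (β * ℒ) + E * ℒ * T / (β * ℒ) = ℒ ^ 2 * κ' / (β * ℒ) := by
          rw [hκ']
          field_simp
        obtain ⟨X, hXd⟩ : ∃ X : ℝ, X = ℒ ^ 2 * κ' / (β * ℒ) := ⟨_, rfl⟩
        obtain ⟨Z, hZd⟩ : ∃ Z : ℝ, Z = ℒ * T * (Real.sqrt y1 + Real.sqrt y2) / (β * ℒ) :=
          ⟨_, rfl⟩
        obtain ⟨W, hWd⟩ : ∃ W : ℝ, W = ℒ * T / (β * ℒ) := ⟨_, rfl⟩
        have hX0 : 0 ≤ X := by rw [hXd]; positivity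
        have hZ0 : 0 ≤ Z := by rw [hZd]; positivity
        have hW0 : 0 ≤ W := by rw [hWd]; positivity
        rw [hX, ← hXd, ← hZd, ← hWd, hκ'ℒ]
        have hb2 : 12 * ∑ ψ ∈ S, (S.card : ℝ)⁻¹ * NB (FH K ψ T) (V1 ψ) (V2 ψ) T κe (β * ℒ) ≤
            12 * (2 * C4) * (κe * ℒ) := by
          have h2 : 2 * C4 * ℒ ≤ 2 * C4 * (κe * ℒ) := by
            apply mul_le_mul_of_nonneg_left _ (by positivity)
            exact le_mul_of_one_le_left hℒ0.le (by linarith only [hκe3])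
          linarith only [h2, hbad]
        have h3 : K1 * (X + κe * ℒ + Z) + 12 * (2 * C4) * (κe * ℒ) ≤
            CC * ((X + W + (κe * ℒ + E * T)) + Z) := by
          rw [hCC]
          exact bh_alg K1 (2 * C4) X W Z (κe * ℒ) (E * T) hK1.le (by positivity) hX0 hW0 hZ0
            (by positivity)
        linarith only [h3, hb2]
      · have h2 : T / (2 * Real.pi) * ℒ * (1 - ε1) ≤ T / (2 * Real.pi) * ℒ * (1 - ε2) :=
          mul_le_mul_of_nonneg_left (by linarith only [hε21]) (by positivity)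
        have h3 : C2 * (T * E + κe * ℒ) ≤ C2 * (T + κ' * ℒ) := by
          apply mul_le_mul_of_nonneg_left _ hC2.le
          rw [hκ'ℒ]
          linarith only [hT0]
        linarith only [h2, h3, hNlow]
    have h2 : (4 * Rw γ 0 / β + 2 * β * J * D + ε / 2) * (SN / 2) =
        (2 * Rw γ 0 / β + 2 * β * J * D / 2 + ε / 4) * SN := by ring
    rw [h2] at h1
    have hSN0 : 0 ≤ SN := by
      rw [hSN]
      exact Finset.sum_nonneg fun _ _ => mul_nonneg hcr0 (Nat.cast_nonneg _)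
    have h3 : SM ≤ (kc γ 1 + ε) * SN := h1.trans (mul_le_mul_of_nonneg_right hconst2 hSN0)
    have h4 : (S.card : ℝ) * SM = ∑ ψ ∈ S,
        (2 * (NN (FH K ψ T) T (2 * T) : ℝ) - (Ns (FH K ψ T) T (2 * T) : ℝ)) := by
      rw [hSM, ← Finset.mul_sum, ← mul_assoc, mul_inv_cancel₀ hc0.ne', one_mul]
    rw [Finset.sum_sub_distrib, ← Finset.mul_sum, ← hSN2] at h4
    have h5 := mul_le_mul_of_nonneg_left h3 hc0.le
    rw [← hSN2]
    linarith only [h4, h5]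

end Pool.Agent.Helper13.LZ
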