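import Pool.Agent.Helper13.LZ.Prs

/-! # The number of the pairs in dyadic ranges (helper13) -/

set_option autoImplicit false
set_option linter.unusedSectionVars false

open NumberField Module

namespace Pool.Agent.Helper13.LZ

open Pool.Agent.Y773 (TPos cc)
open Pool.Agent.Y767 (Mq Mq_cop Mq_ne_bot Mq_cancel isUnit_mk Cls cls cls_eq cK)
open Pool.Agent.Y773.IQ (ne_zero_of_cop absNorm_pos')
open Pool.Agent.N784.AD

/-- the choice of the number of factors -/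
lemma choice {N C V x : ℝ} (hC : 1 ≤ C) (hx : 2 ≤ x) (hN : 1 ≤ N) (hxN : x ≤ N ^ (1 / 16 : ℝ))
    (hCN : C ≤ N ^ (1 / 8 : ℝ)) (hV : V ≤ N ^ (1 / 128 : ℝ)) (hV0 : 1 ≤ V) :
    ∃ j : ℕ, 1 ≤ j ∧ C * (x ^ j) ^ 2 ≤ N ∧
      (j : ℝ) * (1 + V ^ (1 / (j : ℝ))) ≤ 2 * Real.log N * x ^ (1 / 32 : ℝ) := by
  have hN0 : 0 < N := by linarith
  have hx0 : 0 < x := by linarith
  obtain ⟨l, hl⟩ : ∃ l : ℝ, l = Real.log x := ⟨_, rfl⟩
  obtain ⟨L, hL⟩ : ∃ L : ℝ, L = Real.log N := ⟨_, rfl⟩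
  have hl2 : 1 / 2 ≤ l := by
    have h1 := Real.log_two_gt_d9
    have h2 := Real.log_le_log (by norm_num) hx
    rw [hl]; linarith
  have hl0 : 0 < l := by linarith
  have hlL : l ≤ L / 16 := by
    have h1 := Real.log_le_log hx0 hxN
    rw [Real.log_rpow hN0] at h1
    rw [hl, hL]; linarith
  have hL0 : 0 < L := by linarith
  have hC0 : 0 < C := by linarith
  have hlC : Real.log C ≤ L / 8 := by
    have h1 := Real.log_le_log hC0 hCN
    rw [Real.log_rpow hN0] at h1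
    rw [hL]; linarith
  have hlC0 : 0 ≤ Real.log C := Real.log_nonneg hC
  obtain ⟨z, hz⟩ : ∃ z : ℝ, z = (L - Real.log C) / (2 * l) := ⟨_, rfl⟩
  have hz1 : L / (4 * l) + 1 ≤ z := by
    rw [hz, div_add_one (by positivity), div_le_div_iff₀ (by positivity) (by positivity)]
    nlinarith
  have hz0 : 0 ≤ z := by
    have : 0 ≤ L / (4 * l) := by positivity
    linarith
  refine ⟨⌊z⌋₊, ?_, ?_, ?_⟩
  · rw [Nat.le_floor_iff hz0]
    have : 0 ≤ L / (4 * l) := by positivity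
    push_cast
    linarith
  · have h1 : (⌊z⌋₊ : ℝ) ≤ z := Nat.floor_le hz0
    have h2 : (⌊z⌋₊ : ℝ) * (2 * l) ≤ L - Real.log C := by
      have h3 := mul_le_mul_of_nonneg_right h1 (show 0 ≤ 2 * l by positivity)
      rw [hz, div_mul_cancel₀ _ (by positivity)] at h3
      rw [hz]; exact h3
    rw [← Real.log_le_log_iff (by positivity) hN0, Real.log_mul (by positivity) (by positivity),
      Real.log_pow, Real.log_pow, ← hl, ← hL]
    push_cast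
    linarith
  · obtain ⟨j, hj⟩ : ∃ j : ℝ, j = ((⌊z⌋₊ : ℕ) : ℝ) := ⟨_, rfl⟩
    rw [← hj]
    have h1 : j ≤ z := by rw [hj]; exact Nat.floor_le hz0
    have h2 : z < j + 1 := by rw [hj]; exact Nat.lt_floor_add_one z
    have h3 : L / (4 * l) ≤ j := by linarith
    have h3' : 0 < L / (4 * l) := by positivity
    have hj0 : 0 < j := by linarith
    have h4 : j ≤ L := by
      refine h1.trans ?_
      rw [hz, div_le_iff₀ (by positivity)]
      nlinarith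
    have h5 : V ^ (1 / j) ≤ x ^ (1 / 32 : ℝ) := by
      have a1 : V ^ (1 / j) ≤ (N ^ (1 / 128 : ℝ)) ^ (1 / j) :=
        Real.rpow_le_rpow (by linarith) hV (by positivity)
      refine a1.trans ?_
      rw [← Real.rpow_mul hN0.le, Real.rpow_def_of_pos hN0, Real.rpow_def_of_pos hx0,
        Real.exp_le_exp, ← hL, ← hl]
      have a2 : L ≤ j * (4 * l) := by rwa [div_le_iff₀ (by positivity)] at h3
      have a3 : L * (1 / 128 * (1 / j)) = L / (128 * j) := by field_simp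
      rw [a3, div_le_iff₀ (by positivity)]
      nlinarith
    have h6 : 1 ≤ x ^ (1 / 32 : ℝ) := Real.one_le_rpow (by linarith) (by norm_num)
    have h7 : 1 + V ^ (1 / j) ≤ 2 * x ^ (1 / 32 : ℝ) := by linarith
    have h8 : 0 ≤ V ^ (1 / j) := Real.rpow_nonneg (by linarith) _
    calc j * (1 + V ^ (1 / j)) ≤ L * (2 * x ^ (1 / 32 : ℝ)) :=
          mul_le_mul h4 h7 (by linarith) hL0.le
      _ = _ := by rw [hL]; ring

section

variable (K : Type) [Field K] [NumberField K]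

/-- the number of the pairs of small primes -/
theorem prs_le : ∃ C : ℝ, 1 ≤ C ∧ ∀ (𝔮 : Ideal (𝓞 K)) (_ : 𝔮 ≠ ⊥) (htop : 𝔮 ≠ ⊤)
    (S : Finset (Mq 𝔮)) (x : ℝ), 2 ≤ x → x ≤ (Ideal.absNorm 𝔮 : ℝ) ^ (1 / 16 : ℝ) →
    C * Un 𝔮 ≤ (Ideal.absNorm 𝔮 : ℝ) ^ (1 / 128 : ℝ) →
    (∀ a ∈ S, Prime (a : Ideal (𝓞 K)) ∧ (Ideal.absNorm (a : Ideal (𝓞 K)) : ℝ) ≤ x) →
    ((prs htop S).card : ℝ) ≤ 48 * Real.log (Ideal.absNorm 𝔮) ^ 2 * x ^ (1 / 16 : ℝ) := by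
  obtain ⟨C, hC, h⟩ := pairs_small K
  refine ⟨C, hC, fun 𝔮 hbot htop S x hx hxN hUN hS => ?_⟩
  have hNq : (1 : ℝ) ≤ (Ideal.absNorm 𝔮 : ℝ) := by exact_mod_cast absNorm_pos' hbot
  have hU1 : (1 : ℝ) ≤ Un 𝔮 := by exact_mod_cast one_le_Un hbot
  have hCU : C ≤ C * Un 𝔮 := le_mul_of_one_le_right (by linarith) hU1
  have hCN : C ≤ (Ideal.absNorm 𝔮 : ℝ) ^ (1 / 8 : ℝ) := by
    refine (hCU.trans hUN).trans (Real.rpow_le_rpow_of_exponent_le hNq (by norm_num))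
  have hV0 : 1 ≤ C * Un 𝔮 := hC.trans hCU
  obtain ⟨j, hj1, hj2, hj3⟩ := choice hC hx hNq hxN hCN hUN hV0
  obtain ⟨m, hm1, hm2⟩ := h 𝔮 hbot htop S x j (by linarith) hj2 hS
  have h1 := (choose_bound hj1 hV0 hm2).trans hj3
  refine hm1.trans ?_
  have h2 : (m : ℝ) ^ 2 ≤ (2 * Real.log (Ideal.absNorm 𝔮) * x ^ (1 / 32 : ℝ)) ^ 2 :=
    pow_le_pow_left₀ (Nat.cast_nonneg _) h1 2
  have h3 : (x ^ (1 / 32 : ℝ)) ^ 2 = x ^ (1 / 16 : ℝ) := by
    rw [← Real.rpow_natCast, ← Real.rpow_mul (by linarith)]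
    norm_num
  calc 12 * (m : ℝ) ^ 2 ≤ 12 * (2 * Real.log (Ideal.absNorm 𝔮) * x ^ (1 / 32 : ℝ)) ^ 2 := by
        linarith
    _ = _ := by rw [mul_pow, mul_pow, h3]; ring

open Classical in
/-- the number of the pairs in dyadic ranges -/
theorem pair_low : ∃ C : ℝ, 1 ≤ C ∧ ∀ (𝔮 : Ideal (𝓞 K)) (_ : 𝔮 ≠ ⊥) (htop : 𝔮 ≠ ⊤)
    (S : Finset (Mq 𝔮)) (X Y : ℝ), 0 < X → 0 < Y →
    C * Un 𝔮 ≤ (Ideal.absNorm 𝔮 : ℝ) ^ (1 / 128 : ℝ) →
    (∀ x ∈ S, Prime (x : Ideal (𝓞 K)) ∧ 2 ≤ Ideal.absNorm (x : Ideal (𝓞 K))) →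
    (((prs htop S).filter (fun p => (X ≤ (Ideal.absNorm (p.1 : Ideal (𝓞 K)) : ℝ) ∧
      (Ideal.absNorm (p.1 : Ideal (𝓞 K)) : ℝ) ≤ 2 * X) ∧
      (Y ≤ (Ideal.absNorm (p.2 : Ideal (𝓞 K)) : ℝ) ∧
      (Ideal.absNorm (p.2 : Ideal (𝓞 K)) : ℝ) ≤ 2 * Y))).card : ℝ) ≤ C * (X * Y) ∧
    ∀ u : ℝ, 0 ≤ u →
    (((prs htop S).filter (fun p => (X ≤ (Ideal.absNorm (p.1 : Ideal (𝓞 K)) : ℝ) ∧
      (Ideal.absNorm (p.1 : Ideal (𝓞 K)) : ℝ) ≤ 2 * X) ∧
      (Y ≤ (Ideal.absNorm (p.2 : Ideal (𝓞 K)) : ℝ) ∧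
      (Ideal.absNorm (p.2 : Ideal (𝓞 K)) : ℝ) ≤ 2 * Y))).card : ℝ) ≤
      C * Real.log (Ideal.absNorm 𝔮) ^ 2 * Real.exp (u / 4) +
      (C * Real.log (Ideal.absNorm 𝔮) ^ 2 * Real.exp (-(15 / 4) * u) +
        C * (Ideal.absNorm 𝔮 : ℝ) ^ (-(1 / 32) : ℝ)) * (X * Y) := by
  obtain ⟨C1, hC1, h1⟩ := ideals_le K
  obtain ⟨C2, hC2, h2⟩ := prs_le K
  obtain ⟨C3, hC3, h3⟩ := pair_count K
  obtain ⟨C, hC⟩ : ∃ C : ℝ, C = 4 * C1 ^ 2 + C2 + 5 * C3 + 192 := ⟨_, rfl⟩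
  have hC1s : 0 < C1 ^ 2 := by positivity
  refine ⟨C, by rw [hC]; linarith, ?_⟩
  intro 𝔮 hbot htop S X Y hX hY hUN hS
  have hNq : (1 : ℝ) ≤ (Ideal.absNorm 𝔮 : ℝ) := by exact_mod_cast absNorm_pos' hbot
  have hN0 : (0 : ℝ) < (Ideal.absNorm 𝔮 : ℝ) := by linarith
  have hU1 : (1 : ℝ) ≤ Un 𝔮 := by exact_mod_cast one_le_Un hbot
  have hL0 : 0 ≤ Real.log (Ideal.absNorm 𝔮) := Real.log_nonneg hNq
  obtain ⟨P, hP⟩ : ∃ P : Finset (Mq 𝔮 × Mq 𝔮), P = (prs htop S).filter (fun p =>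
      (X ≤ (Ideal.absNorm (p.1 : Ideal (𝓞 K)) : ℝ) ∧
      (Ideal.absNorm (p.1 : Ideal (𝓞 K)) : ℝ) ≤ 2 * X) ∧
      (Y ≤ (Ideal.absNorm (p.2 : Ideal (𝓞 K)) : ℝ) ∧
      (Ideal.absNorm (p.2 : Ideal (𝓞 K)) : ℝ) ≤ 2 * Y)) := ⟨_, rfl⟩
  have h3' := h3 𝔮 hbot htop S X Y hX hY (fun x hx => (hS x hx).1)
  rw [← hP] at h3' ⊢
  have hPm : ∀ p ∈ P, (p.1 ∈ S ∧ p.2 ∈ S) ∧ (p.1 ≠ p.2 ∧ cls (pi1 htop) p.1 = cls (pi1 htop) p.2) ∧
      (X ≤ (Ideal.absNorm (p.1 : Ideal (𝓞 K)) : ℝ) ∧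
      (Ideal.absNorm (p.1 : Ideal (𝓞 K)) : ℝ) ≤ 2 * X) ∧
      (Y ≤ (Ideal.absNorm (p.2 : Ideal (𝓞 K)) : ℝ) ∧
      (Ideal.absNorm (p.2 : Ideal (𝓞 K)) : ℝ) ≤ 2 * Y) := by
    intro p hp
    rw [hP, Finset.mem_filter] at hp
    obtain ⟨h1, h2⟩ := hp
    unfold prs at h1
    rw [Finset.mem_filter, Finset.mem_product] at h1
    exact ⟨h1.1, h1.2, h2⟩
  rcases Finset.eq_empty_or_nonempty P with hE | ⟨p0, hp0⟩
  · rw [hE, Finset.card_empty, Nat.cast_zero]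
    have : 0 < C := by rw [hC]; linarith
    exact ⟨by positivity, fun u hu => by positivity⟩
  obtain ⟨⟨s1, s2⟩, -, ⟨-, s3⟩, ⟨-, s4⟩⟩ := hPm p0 hp0
  have hX1 : 1 ≤ X := by
    have : (2 : ℝ) ≤ (Ideal.absNorm (p0.1 : Ideal (𝓞 K)) : ℝ) := by exact_mod_cast (hS _ s1).2
    linarith
  have hY1 : 1 ≤ Y := by
    have : (2 : ℝ) ≤ (Ideal.absNorm (p0.2 : Ideal (𝓞 K)) : ℝ) := by exact_mod_cast (hS _ s2).2
    linarith
  have hXY1 : X ≤ X * Y := le_mul_of_one_le_right (by linarith) hY1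
  have hXY2 : Y ≤ X * Y := le_mul_of_one_le_left (by linarith) hX1
  have hXY : 1 ≤ X * Y := hX1.trans hXY1
  constructor
  · -- the trivial bound
    have hsub : P ⊆ (S.filter (fun a : Mq 𝔮 => (Ideal.absNorm (a : Ideal (𝓞 K)) : ℝ) ≤ 2 * X)) ×ˢ
        (S.filter (fun a : Mq 𝔮 => (Ideal.absNorm (a : Ideal (𝓞 K)) : ℝ) ≤ 2 * Y)) := by
      intro p hp
      obtain ⟨⟨s1, s2⟩, -, ⟨-, s3⟩, ⟨-, s4⟩⟩ := hPm p hp
      rw [Finset.mem_product, Finset.mem_filter, Finset.mem_filter]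
      exact ⟨⟨s1, s3⟩, s2, s4⟩
    have a1 := Finset.card_le_card hsub
    rw [Finset.card_product] at a1
    have a2 := h1 𝔮 htop (S.filter (fun a : Mq 𝔮 => (Ideal.absNorm (a : Ideal (𝓞 K)) : ℝ) ≤ 2 * X)) (2 * X)
      (by linarith) (fun a ha => (Finset.mem_filter.mp ha).2)
    have a3 := h1 𝔮 htop (S.filter (fun a : Mq 𝔮 => (Ideal.absNorm (a : Ideal (𝓞 K)) : ℝ) ≤ 2 * Y)) (2 * Y)
      (by linarith) (fun a ha => (Finset.mem_filter.mp ha).2)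
    have a4 : (P.card : ℝ) ≤
      ((S.filter (fun a : Mq 𝔮 => (Ideal.absNorm (a : Ideal (𝓞 K)) : ℝ) ≤ 2 * X)).card : ℝ) *
      ((S.filter (fun a : Mq 𝔮 => (Ideal.absNorm (a : Ideal (𝓞 K)) : ℝ) ≤ 2 * Y)).card : ℝ) := by
      exact_mod_cast a1
    refine a4.trans ((mul_le_mul a2 a3 (Nat.cast_nonneg _) (by positivity)).trans ?_)
    have a5 : C1 * (2 * X) * (C1 * (2 * Y)) = 4 * C1 ^ 2 * (X * Y) := by ring
    rw [a5]
    refine mul_le_mul_of_nonneg_right ?_ (by positivity)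
    rw [hC]; linarith
  · intro u hu
    rcases le_or_gt (2 * max X Y) ((Ideal.absNorm 𝔮 : ℝ) ^ (1 / 16 : ℝ)) with hm | hm
    · -- small ranges
      obtain ⟨x, hx⟩ : ∃ x : ℝ, x = 2 * max X Y := ⟨_, rfl⟩
      rw [← hx] at hm
      have hxX : 2 * X ≤ x := by rw [hx]; have := le_max_left X Y; linarith
      have hxY : 2 * Y ≤ x := by rw [hx]; have := le_max_right X Y; linarith
      have b1 := h2 𝔮 hbot htop (S.filter (fun a : Mq 𝔮 => (Ideal.absNorm (a : Ideal (𝓞 K)) : ℝ) ≤ x)) x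
        (by linarith) hm
        (le_trans (mul_le_mul_of_nonneg_right (by rw [hC]; linarith) (Nat.cast_nonneg _)) hUN)
        (fun a ha => ⟨(hS a (Finset.mem_filter.mp ha).1).1, (Finset.mem_filter.mp ha).2⟩)
      have hsub : P ⊆ prs htop (S.filter (fun a : Mq 𝔮 => (Ideal.absNorm (a : Ideal (𝓞 K)) : ℝ) ≤ x)) := by
        intro p hp
        obtain ⟨⟨s1, s2⟩, s5, ⟨-, s3⟩, ⟨-, s4⟩⟩ := hPm p hp
        unfold prs
        rw [Finset.mem_filter, Finset.mem_product, Finset.mem_filter, Finset.mem_filter]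
        exact ⟨⟨⟨s1, s3.trans hxX⟩, s2, s4.trans hxY⟩, s5⟩
      have b2 : (P.card : ℝ) ≤ 48 * Real.log (Ideal.absNorm 𝔮) ^ 2 * x ^ (1 / 16 : ℝ) :=
        le_trans (by exact_mod_cast Finset.card_le_card hsub) b1
      refine b2.trans ?_
      have hx0 : 0 < x := by linarith
      have b3 : x ≤ 2 * (X * Y) := by
        rw [hx]
        exact mul_le_mul_of_nonneg_left (max_le hXY1 hXY2) (by norm_num)
      have b4 : x ^ (1 / 16 : ℝ) ≤ Real.exp (u / 4) + Real.exp (-(15 / 4) * u) * x := by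
        rcases le_or_gt x (Real.exp (4 * u)) with h4 | h4
        · have : x ^ (1 / 16 : ℝ) ≤ (Real.exp (4 * u)) ^ (1 / 16 : ℝ) :=
            Real.rpow_le_rpow hx0.le h4 (by norm_num)
          rw [← Real.exp_mul] at this
          have e : 4 * u * (1 / 16) = u / 4 := by ring
          rw [e] at this
          have h5 : 0 ≤ Real.exp (-(15 / 4) * u) * x := by positivity
          linarith
        · have e1 : x ^ (1 / 16 : ℝ) = x ^ (-(15 / 16) : ℝ) * x := by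
            rw [← Real.rpow_add_one hx0.ne']
            norm_num
          have e2 : x ^ (-(15 / 16) : ℝ) ≤ (Real.exp (4 * u)) ^ (-(15 / 16) : ℝ) :=
            Real.rpow_le_rpow_of_nonpos (Real.exp_pos _) h4.le (by norm_num)
          rw [← Real.exp_mul] at e2
          have e3 : 4 * u * (-(15 / 16)) = -(15 / 4) * u := by ring
          rw [e3] at e2
          rw [e1]
          have h5 := mul_le_mul_of_nonneg_right e2 hx0.le
          have h6 : 0 ≤ Real.exp (u / 4) := (Real.exp_pos _).le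
          linarith
      obtain ⟨Q, hQ⟩ : ∃ Q : ℝ, Q = Real.log (Ideal.absNorm 𝔮) ^ 2 := ⟨_, rfl⟩
      have hQ0 : 0 ≤ Q := by rw [hQ]; positivity
      rw [← hQ]
      have b5 : 48 * Q * x ^ (1 / 16 : ℝ) ≤
          48 * Q * (Real.exp (u / 4) + Real.exp (-(15 / 4) * u) * (2 * (X * Y))) := by
        refine mul_le_mul_of_nonneg_left (b4.trans ?_) (by positivity)
        have := mul_le_mul_of_nonneg_left b3 (Real.exp_pos (-(15 / 4) * u)).le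
        linarith
      refine b5.trans ?_
      have b6 : 48 * Q * Real.exp (u / 4) ≤ C * Q * Real.exp (u / 4) := by
        have : 48 ≤ C := by rw [hC]; linarith
        gcongr
      have b7 : 96 * (Q * Real.exp (-(15 / 4) * u) * (X * Y)) ≤
          C * (Q * Real.exp (-(15 / 4) * u) * (X * Y)) := by
        refine mul_le_mul_of_nonneg_right ?_ (by positivity)
        rw [hC]; linarith
      have b8 : 0 ≤ C * (Ideal.absNorm 𝔮 : ℝ) ^ (-(1 / 32) : ℝ) * (X * Y) := by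
        have : 0 ≤ C := by rw [hC]; linarith
        positivity
      linarith
    · -- large ranges
      have c1 : (Ideal.absNorm 𝔮 : ℝ) ^ (1 / 16 : ℝ) ≤ 2 * (X * Y) :=
        hm.le.trans (mul_le_mul_of_nonneg_left (max_le hXY1 hXY2) (by norm_num))
      obtain ⟨t, ht⟩ : ∃ t : ℝ, t = (Ideal.absNorm 𝔮 : ℝ) ^ (-(1 / 16) : ℝ) := ⟨_, rfl⟩
      have ht0 : 0 < t := by rw [ht]; exact Real.rpow_pos_of_pos hN0 _
      have ht1 : t * (Ideal.absNorm 𝔮 : ℝ) ^ (1 / 16 : ℝ) = 1 := by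
        rw [ht, ← Real.rpow_add hN0]; norm_num
      have c2 : 1 ≤ 2 * t * (X * Y) := by
        have := mul_le_mul_of_nonneg_left c1 ht0.le
        rw [ht1] at this
        linarith
      have c3 : X * Y / (Ideal.absNorm 𝔮 : ℝ) ≤ t * (X * Y) := by
        rw [div_eq_mul_inv, mul_comm]
        refine mul_le_mul_of_nonneg_right ?_ (by positivity)
        rw [ht, ← Real.rpow_neg_one]
        exact Real.rpow_le_rpow_of_exponent_le hNq (by norm_num)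
      have c4 : C3 * Un 𝔮 * (1 + X * Y / (Ideal.absNorm 𝔮 : ℝ)) ≤
          C3 * Un 𝔮 * (3 * t * (X * Y)) := by
        refine mul_le_mul_of_nonneg_left (by linarith) (by positivity)
      refine (h3'.trans c4).trans ?_
      have hUN' : (Un 𝔮 : ℝ) ≤ (Ideal.absNorm 𝔮 : ℝ) ^ (1 / 128 : ℝ) := by
        refine le_trans ?_ hUN
        exact le_mul_of_one_le_left (Nat.cast_nonneg _) (by rw [hC]; linarith)
      have c5 : Un 𝔮 * t ≤ (Ideal.absNorm 𝔮 : ℝ) ^ (-(1 / 32) : ℝ) := by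
        calc (Un 𝔮 : ℝ) * t ≤ (Ideal.absNorm 𝔮 : ℝ) ^ (1 / 128 : ℝ) * t :=
              mul_le_mul_of_nonneg_right hUN' ht0.le
          _ = (Ideal.absNorm 𝔮 : ℝ) ^ (1 / 128 + -(1 / 16) : ℝ) := by
              rw [ht, ← Real.rpow_add hN0]
          _ ≤ _ := Real.rpow_le_rpow_of_exponent_le hNq (by norm_num)
      obtain ⟨w, hw⟩ : ∃ w : ℝ, w = (Ideal.absNorm 𝔮 : ℝ) ^ (-(1 / 32) : ℝ) := ⟨_, rfl⟩
      rw [← hw] at c5 ⊢
      have hw0 : 0 ≤ w := by rw [hw]; positivity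
      have c6 : C3 * Un 𝔮 * (3 * t * (X * Y)) ≤ (3 * C3) * (w * (X * Y)) := by
        have := mul_le_mul_of_nonneg_right c5 (show 0 ≤ X * Y by positivity)
        calc C3 * Un 𝔮 * (3 * t * (X * Y)) = (3 * C3) * (Un 𝔮 * t * (X * Y)) := by ring
          _ ≤ _ := mul_le_mul_of_nonneg_left this (by positivity)
      have c7 : (3 * C3) * (w * (X * Y)) ≤ C * (w * (X * Y)) := by
        refine mul_le_mul_of_nonneg_right ?_ (by positivity)
        rw [hC]; linarith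
      have hCn : 0 ≤ C := by rw [hC]; linarith
      have c8 : 0 ≤ C * Real.log (Ideal.absNorm 𝔮) ^ 2 * Real.exp (u / 4) := by positivity
      have c9 : 0 ≤ C * Real.log (Ideal.absNorm 𝔮) ^ 2 * Real.exp (-(15 / 4) * u) * (X * Y) := by
        positivity
      linarith

end

end Pool.Agent.Helper13.LZ
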