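import Pool.Graph.R_pool_sql_team_seeded_63374d34.N784.AD.Geo2
import Pool.Graph.R_pool_sql_team_seeded_63374d34.N784.AD.Fam

/-! # Coincidences of small primes in the ray class group (helper13)

For a fixed class of units the pairs of ideals of small norm in the same ray class all have the same
quotient; hence there are few disjoint pairs of small primes in the same class. -/

set_option autoImplicit false
set_option linter.unusedSectionVars false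

open NumberField Module

namespace Pool.Agent.Helper13.LZ

open Pool.Agent.Y773 (TPos)
open Pool.Agent.Y767 (Mq Mq_cop Mq_ne_bot Mq_cancel isUnit_mk Cls cls cls_eq)
open Pool.Agent.Y773.IQ (ne_zero_of_cop absNorm_pos')
open Pool.Agent.N784.AD

section

variable (K : Type) [Field K] [NumberField K]

open Classical in
/-- pairs of ideals of small norm in the same ray class, with different quotients -/
theorem ratio_count : ∃ C : ℝ, 1 ≤ C ∧ ∀ (𝔮 : Ideal (𝓞 K)) (_ : 𝔮 ≠ ⊥) (htop : 𝔮 ≠ ⊤)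
    (P : Finset (Mq 𝔮 × Mq 𝔮)) (X : ℝ), 1 ≤ X → C * X ^ 2 ≤ (Ideal.absNorm 𝔮 : ℝ) →
    (∀ p ∈ P, cls (pi1 htop) p.1 = cls (pi1 htop) p.2 ∧
      (Ideal.absNorm (p.1 : Ideal (𝓞 K)) : ℝ) ≤ X ∧
      (Ideal.absNorm (p.2 : Ideal (𝓞 K)) : ℝ) ≤ X) →
    (∀ p ∈ P, ∀ p' ∈ P, p.1 * p'.2 = p'.1 * p.2 → p = p') →
    (P.card : ℝ) ≤ C * Un 𝔮 := by
  obtain ⟨C1, hC1, hbal⟩ := balanced K
  obtain ⟨𝔠, M, hM, h𝔠0, h𝔠M, h𝔠⟩ := exists_cc K
  obtain ⟨d, hd⟩ : ∃ d : ℕ, d = finrank ℚ K := ⟨_, rfl⟩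
  have hd0 : 0 < d := by rw [hd]; exact finrank_pos
  have hdr : (0 : ℝ) < d := by exact_mod_cast hd0
  rw [← hd] at hbal
  have hhK : (1 : ℝ) ≤ Fintype.card (ClassGroup (𝓞 K)) := by
    exact_mod_cast Fintype.card_pos
  obtain ⟨G, hG⟩ : ∃ G : ℝ, G = (2 * (C1 * C1)) ^ d * M ^ 2 := ⟨_, rfl⟩
  have hG0 : 0 ≤ G := by rw [hG]; positivity
  refine ⟨Fintype.card (ClassGroup (𝓞 K)) + G + 1, by linarith, ?_⟩
  intro 𝔮 hbot htop P X hX hXN hPm hPr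
  have hcan := Mq_cancel htop
  have hX0 : 0 < X := by linarith
  obtain ⟨A, hA⟩ : ∃ A : ℝ, A = C1 * (X * M) ^ (1 / (d : ℝ)) := ⟨_, rfl⟩
  have hA0 : 0 ≤ A := by rw [hA]; positivity
  have hroot : ∀ z : ℝ, 0 ≤ z → (z ^ (1 / (d : ℝ))) ^ d = z := by
    intro z hz
    rw [← Real.rpow_natCast, ← Real.rpow_mul hz, one_div_mul_cancel hdr.ne', Real.rpow_one]
  have hAd : A ^ d = C1 ^ d * (X * M) := by rw [hA, mul_pow, hroot _ (by positivity)]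
  obtain ⟨U, hU⟩ : ∃ U : Set (𝓞 K ⧸ 𝔮), U =
    Set.range (fun u : (𝓞 K)ˣ => Ideal.Quotient.mk 𝔮 (u : 𝓞 K)) := ⟨_, rfl⟩
  have hUf : U.Finite := by rw [hU]; exact finite_Un hbot
  -- the data
  have hdata : ∀ p : Mq 𝔮 × Mq 𝔮, ∃ (C : ClassGroup (𝓞 K)) (α β : 𝓞 K) (r : 𝓞 K ⧸ 𝔮), p ∈ P →
      r ∈ U ∧ α ≠ 0 ∧ β ≠ 0 ∧ Ideal.span {α} = (p.1 : Ideal (𝓞 K)) * 𝔠 C ∧
      Ideal.span {β} = (p.2 : Ideal (𝓞 K)) * 𝔠 C ∧ Bd α A ∧ Bd β A ∧
      Ideal.Quotient.mk 𝔮 α = r * Ideal.Quotient.mk 𝔮 β := by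
    intro p
    by_cases hp : p ∈ P
    swap
    · exact ⟨1, 0, 0, 0, fun h => absurd h hp⟩
    obtain ⟨m4, m6, m8⟩ := hPm p hp
    obtain ⟨a, b, hab⟩ := cls_eq m4
    have hab' := congrArg Subtype.val hab
    rw [Submonoid.coe_mul, Submonoid.coe_mul, pi1_coe, pi1_coe] at hab'
    obtain ⟨C, α₀, hα0, hα⟩ := h𝔠 _ (Mq_ne_bot htop p.1)
    obtain ⟨u, hu⟩ := hbal α₀ hα0
    have hua : Ideal.span {(u : 𝓞 K) * α₀} = (p.1 : Ideal (𝓞 K)) * 𝔠 C := by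
      rw [← hα, Ideal.span_singleton_mul_left_unit u.isUnit]
    obtain ⟨β₀, hβ, hαβ⟩ := pair_data htop (h𝔠0 C) (x := 1) hua (T1_one a) (T1_one b) hab'
    have hβ0 : β₀ ≠ 0 := by
      rintro rfl
      rw [Ideal.span_singleton_eq_bot.mpr rfl] at hβ
      exact mul_ne_zero (Mq_ne_bot htop p.2) (h𝔠0 C) hβ.symm
    obtain ⟨v, hv⟩ := hbal β₀ hβ0
    have hvb : Ideal.span {(v : 𝓞 K) * β₀} = (p.2 : Ideal (𝓞 K)) * 𝔠 C := by
      rw [← hβ, Ideal.span_singleton_mul_left_unit v.isUnit]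
    refine ⟨C, (u : 𝓞 K) * α₀, (v : 𝓞 K) * β₀, Ideal.Quotient.mk 𝔮 ((v⁻¹ : (𝓞 K)ˣ) : 𝓞 K),
      fun _ => ⟨?_, mul_ne_zero u.ne_zero hα0, mul_ne_zero v.ne_zero hβ0, hua, hvb, ?_, ?_, ?_⟩⟩
    · rw [hU]; exact ⟨v⁻¹, rfl⟩
    · refine hu.mono ?_
      rw [hA]
      refine mul_le_mul_of_nonneg_left (Real.rpow_le_rpow (Nat.cast_nonneg _) ?_ (by positivity))
        (by linarith)
      rw [absNorm_gen hα]
      exact mul_le_mul m6 (h𝔠M C) (Nat.cast_nonneg _) (by positivity)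
    · refine hv.mono ?_
      rw [hA]
      refine mul_le_mul_of_nonneg_left (Real.rpow_le_rpow (Nat.cast_nonneg _) ?_ (by positivity))
        (by linarith)
      rw [absNorm_gen hβ]
      exact mul_le_mul m8 (h𝔠M C) (Nat.cast_nonneg _) (by positivity)
    · have e1 : Ideal.Quotient.mk 𝔮 (a : 𝓞 K) * Ideal.Quotient.mk 𝔮 ((u : 𝓞 K) * α₀) =
          Ideal.Quotient.mk 𝔮 (b : 𝓞 K) * Ideal.Quotient.mk 𝔮 β₀ := by
        rw [← map_mul, ← map_mul, hαβ]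
      have e2 := (Ideal.Quotient.eq (I := 𝔮)).mpr (T1_one a)
      have e3 := (Ideal.Quotient.eq (I := 𝔮)).mpr (T1_one b)
      rw [e2, e3, map_one, one_mul, one_mul] at e1
      rw [e1, ← map_mul, ← mul_assoc, Units.inv_mul, one_mul]
  choose cC αα ββ rr hdat using hdata
  have hinj : Set.InjOn (fun p => (cC p, rr p)) (P : Set (Mq 𝔮 × Mq 𝔮)) := by
    intro p hp p' hp' he
    have hp1 : p ∈ P := hp
    have hp1' : p' ∈ P := hp'
    have hc : cC p = cC p' := congrArg Prod.fst he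
    have hr : rr p = rr p' := congrArg Prod.snd he
    obtain ⟨-, u2, u3, u4, u5, u6, u7, u8⟩ := hdat p hp1
    obtain ⟨-, v2, v3, v4, v5, v6, v7, v8⟩ := hdat p' hp1'
    have h1 : αα p * ββ p' - αα p' * ββ p ∈ 𝔮 := by
      rw [← Ideal.Quotient.eq_zero_iff_mem, map_sub, map_mul, map_mul, u8, v8, hr]
      ring
    have h2 := eq_zero_of_bd h1 ((u6.mul v7).sub (v6.mul u7)) (by
      rw [← hd]
      have h6 : (A * A + A * A) ^ d = G * X ^ 2 := by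
        rw [← two_mul, mul_pow, mul_pow, hAd, hG, mul_pow, mul_pow]
        ring
      rw [h6]
      refine lt_of_lt_of_le ?_ hXN
      have : 0 < X ^ 2 := by positivity
      nlinarith)
    have h3 : αα p * ββ p' = αα p' * ββ p := sub_eq_zero.mp h2
    refine hPr p hp1 p' hp1' ?_
    apply Subtype.ext
    rw [Submonoid.coe_mul, Submonoid.coe_mul]
    have h4 : Ideal.span {αα p} * Ideal.span {ββ p'} = Ideal.span {αα p'} * Ideal.span {ββ p} := by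
      rw [Ideal.span_singleton_mul_span_singleton, Ideal.span_singleton_mul_span_singleton, h3]
    rw [u4, v5, v4, u5, hc] at h4
    apply mul_right_cancel₀ (b := 𝔠 (cC p') * 𝔠 (cC p'))
      (mul_ne_zero (h𝔠0 (cC p')) (h𝔠0 (cC p')))
    calc (p.1 : Ideal (𝓞 K)) * (p'.2 : Ideal (𝓞 K)) * (𝔠 (cC p') * 𝔠 (cC p')) =
        (p.1 : Ideal (𝓞 K)) * 𝔠 (cC p') * ((p'.2 : Ideal (𝓞 K)) * 𝔠 (cC p')) := by ring
      _ = _ := by rw [h4]; ring
  have h2 : (P.image (fun p => (cC p, rr p))).card ≤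
      Fintype.card (ClassGroup (𝓞 K)) * Un 𝔮 := by
    have h3 : P.image (fun p => (cC p, rr p)) ⊆
        (Finset.univ : Finset (ClassGroup (𝓞 K))) ×ˢ hUf.toFinset := by
      intro x hx
      obtain ⟨p, hp, rfl⟩ := Finset.mem_image.mp hx
      rw [Finset.mem_product]
      refine ⟨Finset.mem_univ _, ?_⟩
      rw [Set.Finite.mem_toFinset]
      exact (hdat p hp).1
    refine (Finset.card_le_card h3).trans ?_
    rw [Finset.card_product, Finset.card_univ]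
    refine Nat.mul_le_mul_left _ (le_of_eq ?_)
    unfold Un
    rw [← Set.ncard_eq_toFinset_card _ hUf, hU]
  rw [Finset.card_image_of_injOn hinj] at h2
  have h3 : (P.card : ℝ) ≤ Fintype.card (ClassGroup (𝓞 K)) * Un 𝔮 := by exact_mod_cast h2
  refine h3.trans (mul_le_mul_of_nonneg_right ?_ (Nat.cast_nonneg _))
  linarith

/-- few disjoint pairs of small primes in the same ray class -/
theorem matching_count : ∃ C : ℝ, 1 ≤ C ∧ ∀ (𝔮 : Ideal (𝓞 K)) (_ : 𝔮 ≠ ⊥) (htop : 𝔮 ≠ ⊤)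
    (P : Finset (Mq 𝔮 × Mq 𝔮)) (x : ℝ) (j : ℕ), 1 ≤ x →
    C * (x ^ j) ^ 2 ≤ (Ideal.absNorm 𝔮 : ℝ) →
    (∀ p ∈ P, cls (pi1 htop) p.1 = cls (pi1 htop) p.2 ∧ p.1 ≠ p.2 ∧
      Prime (p.1 : Ideal (𝓞 K)) ∧ Prime (p.2 : Ideal (𝓞 K)) ∧
      (Ideal.absNorm (p.1 : Ideal (𝓞 K)) : ℝ) ≤ x ∧
      (Ideal.absNorm (p.2 : Ideal (𝓞 K)) : ℝ) ≤ x) →
    (∀ p ∈ P, ∀ p' ∈ P, p ≠ p' → p.1 ≠ p'.1 ∧ p.1 ≠ p'.2) →
    (P.card.choose j : ℝ) ≤ C * Un 𝔮 := by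
  classical
  obtain ⟨C, hC, h⟩ := ratio_count K
  refine ⟨C, hC, fun 𝔮 hbot htop P x j hx hxN hP hdisj => ?_⟩
  obtain ⟨f, hf⟩ : ∃ f : Finset (Mq 𝔮 × Mq 𝔮) → Mq 𝔮 × Mq 𝔮,
    ∀ A, f A = (∏ p ∈ A, p.1, ∏ p ∈ A, p.2) := ⟨fun A => (∏ p ∈ A, p.1, ∏ p ∈ A, p.2), fun _ => rfl⟩
  have hass : ∀ a b : Mq 𝔮, Prime (a : Ideal (𝓞 K)) → Prime (b : Ideal (𝓞 K)) →
      (a : Ideal (𝓞 K)) ∣ (b : Ideal (𝓞 K)) → a = b := by
    intro a b ha hb hab
    exact Subtype.ext (associated_iff_eq.mp ((ha.dvd_prime_iff_associated hb).mp hab))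
  have hsub : ∀ A ⊆ P, ∀ A' ⊆ P, (f A).1 * (f A').2 = (f A').1 * (f A).2 → A ⊆ A' := by
    intro A hA A' hA' he p hp
    have hpP := hA hp
    obtain ⟨-, q2, q3, q4, -⟩ := hP p hpP
    rw [hf, hf] at he
    have h1 : (p.1 : Ideal (𝓞 K)) ∣ ((∏ p ∈ A', p.1 : Mq 𝔮) : Ideal (𝓞 K)) *
        ((∏ p ∈ A, p.2 : Mq 𝔮) : Ideal (𝓞 K)) := by
      have h2 := congrArg Subtype.val he
      simp only [Submonoid.coe_mul] at h2
      rw [← h2]
      refine Dvd.dvd.mul_right ?_ _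
      rw [Submonoid.coe_finsetProd]
      exact Finset.dvd_prod_of_mem (fun p : Mq 𝔮 × Mq 𝔮 => (p.1 : Ideal (𝓞 K))) hp
    rw [Submonoid.coe_finsetProd, Submonoid.coe_finsetProd] at h1
    rcases q3.dvd_or_dvd h1 with h2 | h2
    · obtain ⟨p', hp', h3⟩ := (q3.dvd_finsetProd_iff _).mp h2
      have h4 := hass _ _ q3 (hP p' (hA' hp')).2.2.1 h3
      by_contra hpA
      have hne : p ≠ p' := fun h => hpA (h ▸ hp')
      exact (hdisj p hpP p' (hA' hp') hne).1 h4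
    · obtain ⟨p', hp', h3⟩ := (q3.dvd_finsetProd_iff _).mp h2
      have h4 := hass _ _ q3 (hP p' (hA hp')).2.2.2.1 h3
      exfalso
      by_cases hne : p = p'
      · rw [← hne] at h4
        exact q2 h4
      · exact (hdisj p hpP p' (hA hp') hne).2 h4
  have hinj : Set.InjOn f ((P.powersetCard j : Finset (Finset (Mq 𝔮 × Mq 𝔮))) :
      Set (Finset (Mq 𝔮 × Mq 𝔮))) := by
    intro A hA A' hA' he
    rw [Finset.mem_coe, Finset.mem_powersetCard] at hA hA'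
    refine Finset.eq_of_subset_of_card_le (hsub A hA.1 A' hA'.1 ?_) (by rw [hA.2, hA'.2])
    rw [he]
  have hbound : ∀ (A : Finset (Mq 𝔮 × Mq 𝔮)) (g : Mq 𝔮 × Mq 𝔮 → Mq 𝔮), A.card = j →
      (∀ p ∈ A, (Ideal.absNorm (g p : Ideal (𝓞 K)) : ℝ) ≤ x) →
      (Ideal.absNorm ((∏ p ∈ A, g p : Mq 𝔮) : Ideal (𝓞 K)) : ℝ) ≤ x ^ j := by
    intro A g hA hg
    rw [Submonoid.coe_finsetProd, map_prod]
    push_cast
    rw [← hA, ← Finset.prod_const]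
    exact Finset.prod_le_prod (fun _ _ => Nat.cast_nonneg _) hg
  have h1 := h 𝔮 hbot htop ((P.powersetCard j).image f) (x ^ j) (one_le_pow₀ hx) hxN (by
    intro p hp
    obtain ⟨A, hA, rfl⟩ := Finset.mem_image.mp hp
    rw [Finset.mem_powersetCard] at hA
    rw [hf]
    refine ⟨?_, hbound A _ hA.2 fun p hp => (hP p (hA.1 hp)).2.2.2.2.1,
      hbound A _ hA.2 fun p hp => (hP p (hA.1 hp)).2.2.2.2.2⟩
    simp only [map_prod]
    exact Finset.prod_congr rfl fun p hp => (hP p (hA.1 hp)).1) (by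
    intro p hp p' hp' he
    obtain ⟨A, hA, rfl⟩ := Finset.mem_image.mp hp
    obtain ⟨A', hA', rfl⟩ := Finset.mem_image.mp hp'
    rw [Finset.mem_powersetCard] at hA hA'
    rw [Finset.eq_of_subset_of_card_le (hsub A hA.1 A' hA'.1 he) (by rw [hA.2, hA'.2])])
  rwa [Finset.card_image_of_injOn hinj, Finset.card_powersetCard] at h1

end

end Pool.Agent.Helper13.LZ
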