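import Pool.Graph.R_seed8.H385R2.GoodD
import Pool.Graph.R_seed8.H385R2.LocalU
import Pool.Graph.R_seed8.H385R2.CutD

/-!
# Zeros of bounded height

Definitions.  The zeros with `T < Im s ≤ 2T`, `T` bounded, of an entire function `F` (a shift in the
vertical direction of an L-function); analytic input at the heights `|Im s| ≤ H`, `H` about the square
root of the logarithm of the conductor.

Adapted by helper13 from the library modules `A856.BH` (owner helper856): the coefficients are bounded by `A Λ(n)`.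
-/

set_option autoImplicit false

open Complex Filter Topology Set MeasureTheory
open H370 (zset mult NN Nd Ns)

namespace Pool.Agent.Helper13.LZ

/-- analytic input about an entire L-function of degree two at the heights `|Im s| ≤ H`: `q0` is the
logarithm of the conductor, `ℒ` is an upper bound for it, `E` bounds the archimedean part of the
logarithmic derivative; `a` is the coefficient sequence of `-F'/F`. -/
structure GoodB (A ℒ E H q0 : ℝ) (F : ℂ → ℂ) (a : ℕ → ℂ) : Prop where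
  hA : 1 ≤ A
  hL : 1 ≤ ℒ
  hE : 1 ≤ E
  hEL : E ≤ ℒ
  hq0 : 0 ≤ q0
  hq1 : q0 ≤ 2 * ℒ
  diff : Differentiable ℂ F
  growth : ∀ s : ℂ, (1 / 16 : ℝ) ≤ s.re → s.re ≤ 4 → |s.im| ≤ H → ‖F s‖ ≤ Real.exp (A * ℒ)
  lower : ∀ t : ℝ, A⁻¹ ≤ ‖F (⟨2, t⟩ : ℂ)‖
  nzr : ∀ s : ℂ, 1 ≤ s.re → F s ≠ 0
  nzl : ∀ s : ℂ, -1 / 4 ≤ s.re → s.re ≤ 0 → F s ≠ 0
  symm : ∀ s : ℂ, 0 < s.re → s.re < 1 →
    analyticOrderAt F (1 - (starRingEnd ℂ) s) = analyticOrderAt F s
  ha : ∀ n, ‖a n‖ ≤ A * ArithmeticFunction.vonMangoldt n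
  ld : ∀ s : ℂ, 1 < s.re → deriv F s / F s = - ∑' n : ℕ, a n * (n : ℂ) ^ (-s)
  left : ∀ s : ℂ, -1 / 4 ≤ s.re → s.re ≤ 1 / 2 → |s.im| ≤ H → F s ≠ 0 →
    ‖deriv F s / F s + ((q0 : ℝ) : ℂ) +
      (starRingEnd ℂ) (deriv F (1 - (starRingEnd ℂ) s) / F (1 - (starRingEnd ℂ) s))‖ ≤ A * E

/-- distance of the ordinate from the interval `[T, 2T]`, outside of it -/
noncomputable def dd (T : ℝ) (s : ℂ) : ℝ := max (T - s.im) (s.im - 2 * T)

/-- the zeros far from `[T, 2T]` and far from the line -/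
def bad (F : ℂ → ℂ) (V1 V2 T κe Λ : ℝ) : Set ℂ :=
  {s | s ∈ zset F V1 V2 ∧ κe ≤ dd T s ∧ (dd T s) ^ 2 ≤ 16 * Λ * |s.re - 1 / 2|}

/-- their number -/
noncomputable def NB (F : ℂ → ℂ) (V1 V2 T κe Λ : ℝ) : ℝ :=
  ∑ᶠ s ∈ bad F V1 V2 T κe Λ, (mult F s : ℝ)

end Pool.Agent.Helper13.LZ
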