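import Pool.Agent.Helper13.LZ.ProdL

/-!
# Zeros of bounded height: the product of all the L-functions, the proportion on the line
(helper13)

Adapted from the library module `N784.CZ.Crw` (helper784).
-/

set_option autoImplicit false
set_option linter.unusedSectionVars false
set_option linter.unusedVariables false
set_option maxHeartbeats 4000000

open NumberField Complex Filter Topology Set

namespace Pool.Agent.Helper13.LZ

open Pool.Agent.Y773 (TPos LI)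
open Pool.Agent.Y773.G (cj cj_cj cj_apply)
open Pool.Agent.Y767 (Mq Cls cls eq_of_LI)
open Pool.Agent.Y773.IQ (ofM' tM LL LL_eq absNorm_pos')
open Pool.Agent.N784.HC
open Pool.Agent.N784.AD (pi1 pi1_coe Un one_le_Un cls_card_le hK T1)
open Pool.Agent.N833.CZ (norm_ofM'_le)
open Pool.Agent.N786 (kc)
open H370 (zset mult NN Nd Ns)
open Pool.Agent.H82R3.EK (cnt cnt_eq_sum cnt_prod NN_eq Ns_le strip line)
open Pool.Agent.W164.RC (cnt_mul)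
open Pool.Agent.N784.CZ

/-- **the proportion on the line** -/
theorem prod_low (h2 : StP2) (hGro : StGro) (hCru : StCru) (K : Type) [Field K] [NumberField K]
    {n : (K →+* ℂ) → ℕ} (hn : CTyp n) (hn1 : ∀ φ, 1 ≤ n φ + n (cj φ)) (hn0 : n ≠ 0) {e : ℝ}
    (he : 0 < e) (hk : kc 1.414 1 + e ≤ 1.3275) (ε : ℝ) (hε : 0 < ε) :
    ∃ δ X₀ C η : ℝ, 0 < δ ∧ 1 ≤ C ∧ 0 < η ∧ η ≤ 1 / 2 ∧
    ∀ (𝔮 : Ideal (𝓞 K)) (_ : 𝔮 ≠ ⊥) (htop : 𝔮 ≠ ⊤), X₀ ≤ (Ideal.absNorm 𝔮 : ℝ) →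
      (Dn n htop).Nonempty → (Un 𝔮 : ℝ) ≤ (Ideal.absNorm 𝔮 : ℝ) ^ δ →
      ∀ L : (Mq 𝔮 →* ℂˣ) → ℂ → ℂ,
      (∀ F ∈ Dn n htop, Differentiable ℂ (L F) ∧ ∀ s : ℂ, 1 < s.re → L F s = LI (ofM' htop F) s) →
      ∀ J : Finset (Mq 𝔮 →* ℂˣ), (∀ F, F ∈ J ↔ F ∈ Dn n htop) →
      ∀ τ : ℝ, C * (1 + Real.sqrt (Real.log (Un 𝔮))) ≤ τ → τ ≤ (Ideal.absNorm 𝔮 : ℝ) ^ η →
        (1 - ε) * (Nat.card (Cls (pi1 htop)) * (2 * τ / Real.pi *
          Real.log (Ideal.absNorm 𝔮 : ℝ))) ≤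
          (cnt (fun s => ∏ F ∈ J, (L F s * cf (L F) s)) (Wc τ) : ℝ) ∧
        0.6725 * (cnt (fun s => ∏ F ∈ J, (L F s * cf (L F) s)) (Wc τ) : ℝ) ≤
          (cnt (fun s => ∏ F ∈ J, (L F s * cf (L F) s)) (Lc τ) : ℝ) := by
  classical
  obtain ⟨B, hB0, hB⟩ := dn0_boundL hGro hCru hn hn0
  obtain ⟨A, hA, hprim⟩ := primF K hn
  obtain ⟨εm, hεm⟩ : ∃ εm : ℝ, εm = min (min (e / 2) (ε / 2)) (1 / 4) := ⟨_, rfl⟩
  have hεm0 : 0 < εm := by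
    rw [hεm]
    exact lt_min (lt_min (by positivity) (by positivity)) (by norm_num)
  have hεm1 : εm ≤ e / 2 := by rw [hεm]; exact (min_le_left _ _).trans (min_le_left _ _)
  have hεm2 : εm ≤ ε / 2 := by rw [hεm]; exact (min_le_left _ _).trans (min_le_right _ _)
  have hεm3 : εm ≤ 1 / 4 := by rw [hεm]; exact min_le_right _ _
  have hπ3 := Real.pi_gt_three
  have hπ4 := Real.pi_lt_four
  have hnc1 : ∀ φ, 1 ≤ nc n φ + nc n (cj φ) := by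
    intro φ
    unfold nc
    exact hn1 (cj φ)
  obtain ⟨δ₁, X₁, C₁, η₁, hδ₁, -, hX₁, hC₁, hη₁, H1⟩ := coreL h2 K n hn hn1 hn0 1.414 εm (by norm_num)
    (by linarith) hεm0
  obtain ⟨δ₂, X₂, C₂, η₂, hδ₂, -, hX₂, hC₂, hη₂, H2⟩ := coreL h2 K (nc n) (CTyp_nc hn) hnc1
    (nc_ne hn0) 1.414 εm (by norm_num) (by linarith) hεm0
  obtain ⟨h₀, hh₀⟩ : ∃ h₀ : ℝ, h₀ = (hK K : ℝ) := ⟨_, rfl⟩
  have hh0 : 0 ≤ h₀ := by rw [hh₀]; exact Nat.cast_nonneg _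
  obtain ⟨Q, hQ⟩ : ∃ Q : ℝ, Q = 16 * h₀ * B / e + 2 * h₀ / ε + 1 := ⟨_, rfl⟩
  have hQ1 : 1 ≤ Q := by
    rw [hQ]
    have h1 : 0 ≤ 16 * h₀ * B / e := by positivity
    have h2 : 0 ≤ 2 * h₀ / ε := by positivity
    linarith
  obtain ⟨η, hη⟩ : ∃ η : ℝ, η = min (min η₁ η₂) 1 / 2 := ⟨_, rfl⟩
  have hη0 : 0 < η := by
    rw [hη]
    have := lt_min (lt_min hη₁ hη₂) one_pos
    linarith
  have hηa : 2 * η ≤ η₁ := by
    rw [hη]
    have := (min_le_left (min η₁ η₂) 1).trans (min_le_left _ _)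
    linarith
  have hηb : 2 * η ≤ η₂ := by
    rw [hη]
    have := (min_le_left (min η₁ η₂) 1).trans (min_le_right _ _)
    linarith
  have hηc : η ≤ 1 / 2 := by
    rw [hη]
    have := min_le_right (min η₁ η₂) 1
    linarith
  refine ⟨min δ₁ δ₂, max (max X₁ X₂) (max (max (Q ^ 4) 3) ((4 : ℝ) ^ (1 / η))), max C₁ C₂, η,
    lt_min hδ₁ hδ₂, le_max_of_le_left hC₁, hη0, hηc, ?_⟩
  intro 𝔮 hbot htop hX hne hU L hL J hJ τ hτ hτη
  obtain ⟨N, hN⟩ : ∃ N : ℝ, N = (Ideal.absNorm 𝔮 : ℝ) := ⟨_, rfl⟩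
  rw [← hN] at hX hU hτη ⊢
  have hXr := (le_max_right _ _).trans hX
  have hN3 : 3 ≤ N := (le_max_right _ _).trans ((le_max_left _ _).trans hXr)
  have hNQ : Q ^ 4 ≤ N := (le_max_left _ _).trans ((le_max_left _ _).trans hXr)
  have hN4' : (4 : ℝ) ^ (1 / η) ≤ N := (le_max_right _ _).trans hXr
  have hN1 : 1 ≤ N := by linarith
  have hN0 : 0 < N := by linarith
  have hN4 : 4 ≤ N ^ η := by
    have h3 := Real.rpow_le_rpow (by positivity) hN4' hη0.le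
    rw [← Real.rpow_mul (by norm_num)] at h3
    have h4 : 1 / η * η = 1 := by field_simp
    rwa [h4, Real.rpow_one] at h3
  have hU1 : (Un 𝔮 : ℝ) ≤ N ^ δ₁ :=
    hU.trans (Real.rpow_le_rpow_of_exponent_le hN1 (min_le_left _ _))
  have hU2 : (Un 𝔮 : ℝ) ≤ N ^ δ₂ :=
    hU.trans (Real.rpow_le_rpow_of_exponent_le hN1 (min_le_right _ _))
  have hsq := Real.sqrt_nonneg (Real.log (Un 𝔮))
  have hτ1 : 1 ≤ τ := by
    have h1 : 1 ≤ max C₁ C₂ := le_max_of_le_left hC₁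
    nlinarith only [h1, hτ, hsq]
  have hτ0 : 0 < τ := by linarith
  -- T is at most the square root of N
  have hTN : τ ≤ N ^ (1 / 2 : ℝ) := hτη.trans (Real.rpow_le_rpow_of_exponent_le hN1 hηc)
  -- the families
  have hX1 : X₁ ≤ N := (le_max_left _ _).trans ((le_max_left _ _).trans hX)
  have hX2 : X₂ ≤ N := (le_max_right _ _).trans ((le_max_left _ _).trans hX)
  obtain ⟨-, hfin, hf1, H1⟩ := H1 𝔮 hbot (by rw [← hN]; exact hX1) (fun _ => hne)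
    (by rw [← hN]; exact hU1)
  obtain ⟨-, -, -, H2⟩ := H2 𝔮 hbot (by rw [← hN]; exact hX2)
    (fun _ => Dn_nc_nonempty htop hne) (by rw [← hN]; exact hU2)
  rw [← hN] at H1 H2
  rw [← hN] at hf1
  obtain ⟨Fs, hFs⟩ : ∃ Fs : Finset (Ideal (𝓞 K) →*₀ ℂ), Fs = hfin.toFinset := ⟨_, rfl⟩
  have hFm : ∀ ψ, ψ ∈ Fs ↔ ψ ∈ FamN n 𝔮 := fun ψ => by rw [hFs, Set.Finite.mem_toFinset]
  have hFc : (FamN n 𝔮).ncard = Fs.card := by rw [hFs, Set.ncard_eq_toFinset_card _ hfin]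
  have hFc' : (FamN (nc n) 𝔮).ncard = (Fs.image cc').card := by
    rw [FamN_cc', Set.ncard_image_of_injective _ cc'_inj, hFc,
      Finset.card_image_of_injective _ cc'_inj]
  have hFci : (Fs.image cc').card = Fs.card := Finset.card_image_of_injective _ cc'_inj
  rw [hFc] at hf1 H1
  rw [hFc'] at H2
  obtain ⟨f, hf⟩ : ∃ f : ℝ, f = (Fs.card : ℝ) := ⟨_, rfl⟩
  have hf0 : 0 ≤ f := by rw [hf]; exact Nat.cast_nonneg _
  have hL' : ∀ ψ ∈ FamN n 𝔮, Differentiable ℂ (LL K ψ) ∧ ∀ s : ℂ, 1 < s.re → LL K ψ s = LI ψ s := by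
    rintro ψ ⟨𝔣, h1, h2, h3⟩
    obtain ⟨-, G, g1, g2, -⟩ := hprim 𝔣 ψ h2 h3
    rw [LL_eq K g1 g2]
    exact ⟨g1, g2⟩
  -- the gap
  have hLne : ∀ ψ ∈ Fs, LL K ψ 2 ≠ 0 := by
    intro ψ hψ
    obtain ⟨g1, g2⟩ := hL' ψ ((hFm ψ).mp hψ)
    rw [g2 2 (by norm_num)]
    exact LI_ne (FamN_norm_le ((hFm ψ).mp hψ)) (by norm_num)
  have hZ : (⋃ ψ ∈ Fs, ({s : ℂ | s ∈ Wc (τ + 1) ∧ LL K ψ s = 0} ∪
      {s : ℂ | s ∈ Wc (τ + 1) ∧ LL K (cc' ψ) s = 0})).Finite := by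
    refine Set.Finite.biUnion Fs.finite_toSet fun ψ hψ => ?_
    obtain ⟨g1, g2⟩ := hL' ψ ((hFm ψ).mp hψ)
    refine Set.Finite.union (zeros_bdd g1 (hLne ψ hψ) Wc_bdd) ?_
    rw [LL_cc' g1 g2]
    refine zeros_bdd (cf_diff g1) (w := 2) ?_ Wc_bdd
    unfold cf
    rw [Ne, map_eq_zero, map_ofNat]
    exact hLne ψ hψ
  obtain ⟨e', he0, he1, hgap⟩ := exists_gap _ hZ τ
  obtain ⟨T, hT⟩ : ∃ T : ℝ, T = 2 * (τ + e') := ⟨_, rfl⟩
  have hτT : 2 * τ < T := by rw [hT]; linarith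
  have hT4 : T ≤ 4 * τ := by rw [hT]; linarith
  have hTη : T ≤ N ^ (2 * η) := by
    have h1 : N ^ (2 * η) = N ^ η * N ^ η := by
      rw [← Real.rpow_add hN0]
      congr 1; ring
    rw [h1]
    refine hT4.trans ?_
    exact mul_le_mul hN4 hτη hτ0.le (by positivity)
  have hC1 : C₁ * (1 + Real.sqrt (Real.log (Un 𝔮))) ≤ T := by
    have h1 : C₁ * (1 + Real.sqrt (Real.log (Un 𝔮))) ≤
        max C₁ C₂ * (1 + Real.sqrt (Real.log (Un 𝔮))) :=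
      mul_le_mul_of_nonneg_right (le_max_left _ _) (by linarith)
    linarith
  have hC2 : C₂ * (1 + Real.sqrt (Real.log (Un 𝔮))) ≤ T := by
    have h1 : C₂ * (1 + Real.sqrt (Real.log (Un 𝔮))) ≤
        max C₁ C₂ * (1 + Real.sqrt (Real.log (Un 𝔮))) :=
      mul_le_mul_of_nonneg_right (le_max_right _ _) (by linarith)
    linarith
  obtain ⟨q1, q2, q3⟩ := H1 T hC1 (hTη.trans (Real.rpow_le_rpow_of_exponent_le hN1 hηa)) Fs
    (fun ψ hψ => (hFm ψ).mp hψ) (by rw [← hf]; linarith only [mul_nonneg hδ₁.le hf0])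
  obtain ⟨r1, r2, r3⟩ := H2 T hC2 (hTη.trans (Real.rpow_le_rpow_of_exponent_le hN1 hηb))
    (Fs.image cc') (fun ψ hψ => by
    obtain ⟨ψ', h1, rfl⟩ := Finset.mem_image.mp hψ
    rw [FamN_cc']
    exact ⟨ψ', (hFm ψ').mp h1, rfl⟩) (by
    rw [hFci]
    rw [← hf]
    linarith only [mul_nonneg hδ₂.le hf0])
  rw [Finset.sum_image (fun a _ b _ h => cc'_inj h), hFci] at r2
  rw [Finset.sum_image (fun a _ b _ h => cc'_inj h),
    Finset.sum_image (fun a _ b _ h => cc'_inj h)] at r3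
  have r1' : ∀ ψ ∈ Fs, (zset (FH K (cc' ψ) T) T (2 * T)).Finite := fun ψ hψ =>
    r1 _ (Finset.mem_image_of_mem _ hψ)
  have hone1 : ∀ ψ ∈ Fs, NN (FH K ψ T) T (2 * T) = cnt (LL K ψ) (Wc τ) ∧
      Ns (FH K ψ T) T (2 * T) ≤ cnt (LL K ψ) (Lc τ) := by
    intro ψ hψ
    refine one_cnt ψ hτT (q1 ψ hψ) ?_
    intro ρ h3 h4 h5 h6
    have h7 : |ρ.im| ≤ τ + e' := by rw [hT] at h6; linarith
    refine hgap ρ ?_ h7
    exact Set.mem_biUnion hψ (Or.inl ⟨⟨h4, h5, by linarith⟩, h3⟩)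
  have hone2 : ∀ ψ ∈ Fs, NN (FH K (cc' ψ) T) T (2 * T) = cnt (LL K (cc' ψ)) (Wc τ) ∧
      Ns (FH K (cc' ψ) T) T (2 * T) ≤ cnt (LL K (cc' ψ)) (Lc τ) := by
    intro ψ hψ
    refine one_cnt (cc' ψ) hτT (r1' ψ hψ) ?_
    intro ρ h3 h4 h5 h6
    have h7 : |ρ.im| ≤ τ + e' := by rw [hT] at h6; linarith
    refine hgap ρ ?_ h7
    exact Set.mem_biUnion hψ (Or.inr ⟨⟨h4, h5, by linarith⟩, h3⟩)
  -- the sums over the family
  obtain ⟨S₁, hS₁⟩ : ∃ S₁ : ℝ, S₁ = ∑ ψ ∈ Fs, (NN (FH K ψ T) T (2 * T) : ℝ) := ⟨_, rfl⟩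
  obtain ⟨S₂, hS₂⟩ : ∃ S₂ : ℝ, S₂ = ∑ ψ ∈ Fs, (NN (FH K (cc' ψ) T) T (2 * T) : ℝ) := ⟨_, rfl⟩
  obtain ⟨ℓ, hℓ⟩ : ∃ ℓ : ℝ, ℓ = Real.log N := ⟨_, rfl⟩
  rw [← hS₁] at q2 q3
  rw [← hS₂] at r2 r3
  rw [← hℓ, ← hf] at q2 r2
  rw [← hf] at hf1
  have hℓ1 : 1 ≤ ℓ := by
    rw [hℓ, Real.le_log_iff_exp_le (by linarith)]
    have h1 := Real.exp_one_lt_d9
    linarith
  obtain ⟨G, hG⟩ : ∃ G : ℂ → ℂ, G = fun s => ∏ F ∈ J, (L F s * cf (L F) s) := ⟨_, rfl⟩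
  have hp1 := prod_cntL hbot htop L hL hL' J hJ Fs hFm (T := τ) (W := Wc τ) le_rfl
  have hp2 := prod_cntL hbot htop L hL hL' J hJ Fs hFm (T := τ) (W := Lc τ) (Lc_sub τ)
  rw [← hG] at hp1 hp2 ⊢
  obtain ⟨hlow, hup⟩ := hp1
  obtain ⟨hlin, -⟩ := hp2
  -- in real numbers
  have e1 : ((∑ ψ ∈ Fs, (cnt (LL K ψ) (Wc τ) +
      cnt (LL K (cc' ψ)) (Wc τ)) : ℕ) : ℝ) = S₁ + S₂ := by
    push_cast
    rw [Finset.sum_add_distrib, hS₁, hS₂]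
    congr 1
    · exact Finset.sum_congr rfl fun ψ hψ => by rw [(hone1 ψ hψ).1]
    · exact Finset.sum_congr rfl fun ψ hψ => by rw [(hone2 ψ hψ).1]
  have hlowR : S₁ + S₂ ≤ (cnt G (Wc τ) : ℝ) := by
    rw [← e1]
    exact_mod_cast hlow
  have hJ0 : (J.filter (fun F => F ∈ Dn0 n 𝔮)).card ≤ hK K := by
    refine le_trans ?_ (Dn0_card (n := n) hbot htop)
    rw [← Set.ncard_coe_finset]
    refine Set.ncard_le_ncard (fun F hF => ?_)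
      ((Dn_card_le (n := n) hbot htop).1.subset (Dn0_sub htop))
    rw [Finset.mem_coe, Finset.mem_filter] at hF
    exact hF.2
  have hupR : (cnt G (Wc τ) : ℝ) ≤ S₁ + S₂ + h₀ * (2 * (B * τ ^ 2)) := by
    have h1 : (cnt G (Wc τ) : ℝ) ≤ ((∑ ψ ∈ Fs, (cnt (LL K ψ) (Wc τ) +
      cnt (LL K (cc' ψ)) (Wc τ)) : ℕ) : ℝ) +
      ((∑ F ∈ J.filter (fun F => F ∈ Dn0 n 𝔮), (cnt (L F) (Wc τ) +
        cnt (cf (L F)) (Wc τ)) : ℕ) : ℝ) := by exact_mod_cast hup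
    rw [e1] at h1
    refine h1.trans (add_le_add le_rfl ?_)
    push_cast
    calc ∑ F ∈ J.filter (fun F => F ∈ Dn0 n 𝔮), ((cnt (L F) (Wc τ) : ℝ) +
        (cnt (cf (L F)) (Wc τ) : ℝ))
        ≤ ∑ F ∈ J.filter (fun F => F ∈ Dn0 n 𝔮), (2 * (B * τ ^ 2)) := by
          refine Finset.sum_le_sum fun F hF => ?_
          rw [Finset.mem_filter] at hF
          obtain ⟨k1, k2⟩ := hL F ((hJ F).mp hF.1)
          obtain ⟨k3, k4⟩ := hB 𝔮 hbot htop F hF.2 (L F) k1 k2 τ hτ1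
          linarith
      _ = ((J.filter (fun F => F ∈ Dn0 n 𝔮)).card : ℝ) * (2 * (B * τ ^ 2)) := by
          rw [Finset.sum_const, nsmul_eq_mul]
      _ ≤ h₀ * (2 * (B * τ ^ 2)) := by
          refine mul_le_mul_of_nonneg_right ?_ (by positivity)
          rw [hh₀]
          exact_mod_cast hJ0
  have hlinR : (0.6725 + e / 2) * (S₁ + S₂) ≤ (cnt G (Lc τ) : ℝ) := by
    have h1 : ((∑ ψ ∈ Fs, (cnt (LL K ψ) (Lc τ) +
      cnt (LL K (cc' ψ)) (Lc τ)) : ℕ) : ℝ) ≤ (cnt G (Lc τ) : ℝ) := by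
      exact_mod_cast hlin
    refine le_trans ?_ h1
    push_cast
    rw [Finset.sum_add_distrib]
    have h2 : ∑ ψ ∈ Fs, (Ns (FH K ψ T) T (2 * T) : ℝ) ≤
        ∑ ψ ∈ Fs, (cnt (LL K ψ) (Lc τ) : ℝ) :=
      Finset.sum_le_sum fun ψ hψ => by exact_mod_cast (hone1 ψ hψ).2
    have h3 : ∑ ψ ∈ Fs, (Ns (FH K (cc' ψ) T) T (2 * T) : ℝ) ≤
        ∑ ψ ∈ Fs, (cnt (LL K (cc' ψ)) (Lc τ) : ℝ) :=
      Finset.sum_le_sum fun ψ hψ => by exact_mod_cast (hone2 ψ hψ).2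
    have hS₁0 : 0 ≤ S₁ := by rw [hS₁]; exact Finset.sum_nonneg fun _ _ => Nat.cast_nonneg _
    have hS₂0 : 0 ≤ S₂ := by rw [hS₂]; exact Finset.sum_nonneg fun _ _ => Nat.cast_nonneg _
    have h4 : 0.6725 + e / 2 ≤ 2 - kc 1.414 1 - εm := by linarith
    have h5 : (0.6725 + e / 2) * S₁ ≤ ∑ ψ ∈ Fs, (Ns (FH K ψ T) T (2 * T) : ℝ) :=
      (mul_le_mul_of_nonneg_right h4 hS₁0).trans q3
    have h6 : (0.6725 + e / 2) * S₂ ≤ ∑ ψ ∈ Fs, (Ns (FH K (cc' ψ) T) T (2 * T) : ℝ) :=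
      (mul_le_mul_of_nonneg_right h4 hS₂0).trans r3
    linarith
  -- numbers
  have hNq : 0 < N ^ (1 / 4 : ℝ) := Real.rpow_pos_of_pos hN0 _
  have hQN : Q ≤ N ^ (1 / 4 : ℝ) := by
    have h1 := Real.rpow_le_rpow (by positivity) hNQ (by norm_num : (0 : ℝ) ≤ 1 / 4)
    rw [← Real.rpow_natCast, ← Real.rpow_mul (by linarith)] at h1
    norm_num at h1
    exact h1
  have hf34 : N ^ (3 / 4 : ℝ) ≤ f :=
    (Real.rpow_le_rpow_of_exponent_le hN1 (by linarith)).trans hf1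
  have e34 : N ^ (3 / 4 : ℝ) = N ^ (1 / 4 : ℝ) * N ^ (1 / 2 : ℝ) := by
    rw [← Real.rpow_add hN0]
    norm_num
  have hNh : 1 ≤ N ^ (1 / 2 : ℝ) := Real.one_le_rpow hN1 (by norm_num)
  have hSS : (1 - εm) * (f * (2 * τ / Real.pi * ℓ)) ≤ S₁ + S₂ := by
    have h1 : (1 - εm) * (f * (2 * τ / Real.pi * ℓ)) =
        (1 - εm) * (f * (2 * τ / (2 * Real.pi) * ℓ)) + (1 - εm) * (f * (2 * τ / (2 * Real.pi) * ℓ)) := by
      field_simp
      ring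
    have h2 : (1 - εm) * (f * (2 * τ / (2 * Real.pi) * ℓ)) ≤
        (1 - εm) * (f * (T / (2 * Real.pi) * ℓ)) := by
      refine mul_le_mul_of_nonneg_left ?_ (by linarith)
      refine mul_le_mul_of_nonneg_left ?_ hf0
      refine mul_le_mul_of_nonneg_right ?_ (by linarith)
      exact div_le_div_of_nonneg_right hτT.le (by positivity)
    rw [h1]
    linarith
  have hTpi : τ / 4 ≤ 2 * τ / Real.pi * ℓ := by
    have h1 : 2 * τ / 4 ≤ 2 * τ / Real.pi :=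
      div_le_div_of_nonneg_left (by linarith) Real.pi_pos hπ4.le
    have h2 : 0 ≤ 2 * τ / Real.pi := by positivity
    nlinarith only [h1, h2, hℓ1, hτ0]
  have hSbig : N ^ (3 / 4 : ℝ) * τ * (3 / 16) ≤ S₁ + S₂ := by
    refine le_trans ?_ hSS
    have h1 : N ^ (3 / 4 : ℝ) * (τ / 4) ≤ f * (2 * τ / Real.pi * ℓ) :=
      mul_le_mul hf34 hTpi (by positivity) hf0
    have h2 : 3 / 4 ≤ 1 - εm := by linarith
    have h3 : 0 ≤ f * (2 * τ / Real.pi * ℓ) := le_trans (by positivity) h1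
    have h5 : 3 / 4 * (f * (2 * τ / Real.pi * ℓ)) ≤ (1 - εm) * (f * (2 * τ / Real.pi * ℓ)) :=
      mul_le_mul_of_nonneg_right h2 h3
    linarith only [h1, h5]
  refine ⟨?_, ?_⟩
  · -- the number of the zeros
    refine le_trans ?_ hlowR
    refine le_trans ?_ hSS
    have hcls : (Nat.card (Cls (pi1 htop)) : ℝ) ≤ h₀ + f := by
      rw [hh₀, hf, ← hFc]
      exact_mod_cast cls_le_add hbot htop hne
    have h1 : 2 * h₀ / ε ≤ f := by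
      have h2 : 2 * h₀ / ε ≤ Q := by
        rw [hQ]
        have : 0 ≤ 16 * h₀ * B / e := by positivity
        linarith
      refine h2.trans (hQN.trans (le_trans ?_ hf34))
      rw [e34]
      exact le_mul_of_one_le_right hNq.le hNh
    have h3 : h₀ ≤ ε / 2 * f := by
      rw [div_le_iff₀ hε] at h1
      linarith
    have h4 : 0 ≤ 2 * τ / Real.pi * ℓ := by linarith
    by_cases hε1 : 1 ≤ ε
    · have h5 : (1 - ε) * (Nat.card (Cls (pi1 htop)) * (2 * τ / Real.pi * ℓ)) ≤ 0 :=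
        mul_nonpos_of_nonpos_of_nonneg (by linarith) (by positivity)
      have h6 : 0 ≤ (1 - εm) * (f * (2 * τ / Real.pi * ℓ)) := by
        have : 0 ≤ 1 - εm := by linarith
        positivity
      rw [← hℓ]
      linarith
    · push Not at hε1
      rw [← hℓ]
      have h5 : (1 - ε) * (Nat.card (Cls (pi1 htop)) : ℝ) ≤ (1 - εm) * f := by
        calc (1 - ε) * (Nat.card (Cls (pi1 htop)) : ℝ) ≤ (1 - ε) * (h₀ + f) :=
              mul_le_mul_of_nonneg_left hcls (by linarith)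
          _ ≤ (1 - ε) * ((1 + ε / 2) * f) := by
              refine mul_le_mul_of_nonneg_left ?_ (by linarith)
              linarith
          _ ≤ (1 - εm) * f := by
              have h7 : (1 - ε) * (1 + ε / 2) ≤ 1 - εm := by nlinarith only [hεm2, hε, sq_nonneg ε]
              have h8 := mul_le_mul_of_nonneg_right h7 hf0
              linarith only [h8]
      calc (1 - ε) * (Nat.card (Cls (pi1 htop)) * (2 * τ / Real.pi * ℓ))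
          = ((1 - ε) * (Nat.card (Cls (pi1 htop)) : ℝ)) * (2 * τ / Real.pi * ℓ) := by ring
        _ ≤ ((1 - εm) * f) * (2 * τ / Real.pi * ℓ) := mul_le_mul_of_nonneg_right h5 h4
        _ = _ := by ring
  · refine le_trans ?_ hlinR
    have h1 : 0.6725 * (cnt G (Wc τ) : ℝ) ≤
        0.6725 * (S₁ + S₂ + h₀ * (2 * (B * τ ^ 2))) :=
      mul_le_mul_of_nonneg_left hupR (by norm_num)
    refine h1.trans ?_
    have h2 : 16 * h₀ * B / e ≤ N ^ (1 / 4 : ℝ) := by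
      refine le_trans ?_ hQN
      rw [hQ]
      have : 0 ≤ 2 * h₀ / ε := by positivity
      linarith
    rw [div_le_iff₀ he] at h2
    have h3 : τ ^ 2 ≤ N ^ (1 / 2 : ℝ) * τ := by
      rw [pow_two]
      exact mul_le_mul_of_nonneg_right hTN hτ0.le
    have h4 : h₀ * B * τ ^ 2 ≤ h₀ * B * (N ^ (1 / 2 : ℝ) * τ) :=
      mul_le_mul_of_nonneg_left h3 (by positivity)
    have h5 : 16 * h₀ * B * (N ^ (1 / 2 : ℝ) * τ) ≤
        N ^ (1 / 4 : ℝ) * e * (N ^ (1 / 2 : ℝ) * τ) :=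
      mul_le_mul_of_nonneg_right h2 (by positivity)
    have h6 : e * (N ^ (3 / 4 : ℝ) * τ * (3 / 16)) ≤ e * (S₁ + S₂) :=
      mul_le_mul_of_nonneg_left hSbig he.le
    rw [e34] at h6
    have h7 : N ^ (1 / 4 : ℝ) * e * (N ^ (1 / 2 : ℝ) * τ) * (3 / 16) ≤ e * (S₁ + S₂) := by
      refine le_trans (le_of_eq ?_) h6
      ring
    have h8 : 16 * (h₀ * B * τ ^ 2) ≤ N ^ (1 / 4 : ℝ) * e * (N ^ (1 / 2 : ℝ) * τ) := by
      refine le_trans ?_ h5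
      linarith
    have h9 : 0.6725 * (S₁ + S₂ + h₀ * (2 * (B * τ ^ 2))) =
        0.6725 * (S₁ + S₂) + 1.345 * (h₀ * B * τ ^ 2) := by ring
    have h10 : (0.6725 + e / 2) * (S₁ + S₂) = 0.6725 * (S₁ + S₂) + e * (S₁ + S₂) / 2 := by ring
    rw [h9, h10]
    have h11 : 0 ≤ h₀ * B * τ ^ 2 := by positivity
    linarith

end Pool.Agent.Helper13.LZ
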