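import Pool.Agent.Helper13.LZ.ProdM

/-!
# The zeros with `|Im s| ≤ T` of the product of all the L-functions, all ranges of `T` (helper13)
-/

set_option autoImplicit false
set_option linter.unusedSectionVars false
set_option linter.unusedVariables false
set_option maxHeartbeats 4000000

open NumberField Complex Filter Topology Set

namespace Pool.Agent.Helper13.LZ

open Pool.Agent.Y773 (TPos LI)
open Pool.Agent.Y773.G (cj cj_cj cj_apply)
open Pool.Agent.Y767 (Mq Cls cls eq_of_LI)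
open Pool.Agent.Y773.IQ (ofM' tM LL LL_eq absNorm_pos')
open Pool.Agent.N784.HC
open Pool.Agent.N784.AD (pi1 pi1_coe Un one_le_Un cls_card_le hK T1 exp_dom)
open Pool.Agent.N833.CZ (norm_ofM'_le)
open Pool.Agent.N786 (kc)
open H370 (zset mult NN Nd Ns)
open Pool.Agent.H82R3.EK (cnt cnt_eq_sum cnt_prod NN_eq Ns_le strip line)
open Pool.Agent.W164.RC (cnt_mul)
open Pool.Agent.N784.CZ

lemma cnt_union {f : ℂ → ℂ} {V W : Set ℂ} (hd : Disjoint V W)
    (h1 : {s : ℂ | s ∈ V ∧ f s = 0}.Finite) (h2 : {s : ℂ | s ∈ W ∧ f s = 0}.Finite) :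
    cnt f (V ∪ W) = cnt f V + cnt f W := by
  unfold cnt
  have hset : {s : ℂ | s ∈ V ∪ W ∧ f s = 0} =
      {s : ℂ | s ∈ V ∧ f s = 0} ∪ {s : ℂ | s ∈ W ∧ f s = 0} := by
    ext s
    constructor
    · rintro ⟨h | h, h'⟩
      · exact Or.inl ⟨h, h'⟩
      · exact Or.inr ⟨h, h'⟩
    · rintro (⟨h, h'⟩ | ⟨h, h'⟩)
      · exact ⟨Or.inl h, h'⟩
      · exact ⟨Or.inr h, h'⟩
  rw [hset]
  refine finsum_mem_union ?_ h1 h2
  exact hd.mono (fun s hs => hs.1) (fun s hs => hs.1)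

/-- the reflected set -/
def cjs (W : Set ℂ) : Set ℂ := {s : ℂ | (starRingEnd ℂ) s ∈ W}

lemma Wc_two {τ : ℝ} (hτ : 0 < τ) :
    Wc (2 * τ) = Wc τ ∪ (strip τ (2 * τ) ∪ cjs (strip τ (2 * τ))) := by
  ext s
  constructor
  · rintro ⟨a, b, c⟩
    by_cases h : |s.im| ≤ τ
    · exact Or.inl ⟨a, b, h⟩
    · push Not at h
      right
      rcases lt_or_ge s.im 0 with h0 | h0
      · right
        rw [abs_of_neg h0] at h c
        refine ⟨by rw [Complex.conj_re]; exact a, by rw [Complex.conj_re]; exact b,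
          by rw [Complex.conj_im]; exact h, by rw [Complex.conj_im]; exact c⟩
      · left
        rw [abs_of_nonneg h0] at h c
        exact ⟨a, b, h, c⟩
  · rintro (⟨a, b, c⟩ | ⟨a, b, c, d⟩ | ⟨a, b, c, d⟩)
    · exact ⟨a, b, by linarith⟩
    · exact ⟨a, b, by rw [abs_of_pos (by linarith)]; exact d⟩
    · rw [Complex.conj_re] at a b
      rw [Complex.conj_im] at c d
      exact ⟨a, b, by rw [abs_of_neg (by linarith)]; exact d⟩

lemma Lc_two {τ : ℝ} (hτ : 0 < τ) :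
    Lc (2 * τ) = Lc τ ∪ (line τ (2 * τ) ∪ cjs (line τ (2 * τ))) := by
  ext s
  constructor
  · rintro ⟨a, c⟩
    by_cases h : |s.im| ≤ τ
    · exact Or.inl ⟨a, h⟩
    · push Not at h
      right
      rcases lt_or_ge s.im 0 with h0 | h0
      · right
        rw [abs_of_neg h0] at h c
        refine ⟨by rw [Complex.conj_re]; exact a,
          by rw [Complex.conj_im]; exact h, by rw [Complex.conj_im]; exact c⟩
      · left
        rw [abs_of_nonneg h0] at h c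
        exact ⟨a, h, c⟩
  · rintro (⟨a, c⟩ | ⟨a, c, d⟩ | ⟨a, c, d⟩)
    · exact ⟨a, by linarith⟩
    · exact ⟨a, by rw [abs_of_pos (by linarith)]; exact d⟩
    · rw [Complex.conj_re] at a
      rw [Complex.conj_im] at c d
      exact ⟨a, by rw [abs_of_neg (by linarith)]; exact d⟩

/-- doubling, for a function with real values on the real line -/
lemma cnt_two {f : ℂ → ℂ} (hf : Differentiable ℂ f) {w : ℂ} (hw : f w ≠ 0) (hc : cf f = f)
    {τ : ℝ} (hτ : 0 < τ) :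
    cnt f (Wc (2 * τ)) = cnt f (Wc τ) + 2 * cnt f (strip τ (2 * τ)) ∧
    cnt f (Lc (2 * τ)) = cnt f (Lc τ) + 2 * cnt f (line τ (2 * τ)) := by
  have hmir : ∀ W : Set ℂ, cnt f (cjs W) = cnt f W := by
    intro W
    have h1 := cnt_cf hf W
    rw [hc] at h1
    exact h1.symm
  have hb : ∀ W : Set ℂ, W ⊆ Wc (2 * τ) → {s : ℂ | s ∈ W ∧ f s = 0}.Finite := fun W hW =>
    zeros_bdd hf hw (R := 1 + |2 * τ|) fun s hs => Wc_bdd s (hW hs)
  have hW := Wc_two hτ
  have hL := Lc_two hτ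
  have hLW := Lc_sub (2 * τ)
  constructor
  · have s1 : Wc τ ⊆ Wc (2 * τ) := by rw [hW]; exact Set.subset_union_left
    have s2 : strip τ (2 * τ) ⊆ Wc (2 * τ) := by
      rw [hW]; exact Set.subset_union_left.trans Set.subset_union_right
    have s3 : cjs (strip τ (2 * τ)) ⊆ Wc (2 * τ) := by
      rw [hW]; exact Set.subset_union_right.trans Set.subset_union_right
    rw [hW, cnt_union ?_ (hb _ s1) (hb _ (Set.union_subset s2 s3)), cnt_union ?_ (hb _ s2) (hb _ s3),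
      hmir]
    · ring
    · rw [Set.disjoint_left]
      rintro s ⟨a, b, c, d⟩ ⟨a', b', c', d'⟩
      rw [Complex.conj_im] at c' d'
      linarith
    · rw [Set.disjoint_left]
      rintro s ⟨a, b, c⟩ (⟨a', b', c', d'⟩ | ⟨a', b', c', d'⟩)
      · have := le_abs_self s.im
        linarith
      · rw [Complex.conj_im] at c' d'
        have := neg_abs_le s.im
        linarith
  · have s1 : Lc τ ⊆ Wc (2 * τ) := by
      refine Set.Subset.trans ?_ hLW
      rw [hL]; exact Set.subset_union_left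
    have s2 : line τ (2 * τ) ⊆ Wc (2 * τ) := by
      refine Set.Subset.trans ?_ hLW
      rw [hL]; exact Set.subset_union_left.trans Set.subset_union_right
    have s3 : cjs (line τ (2 * τ)) ⊆ Wc (2 * τ) := by
      refine Set.Subset.trans ?_ hLW
      rw [hL]; exact Set.subset_union_right.trans Set.subset_union_right
    rw [hL, cnt_union ?_ (hb _ s1) (hb _ (Set.union_subset s2 s3)), cnt_union ?_ (hb _ s2) (hb _ s3),
      hmir]
    · ring
    · rw [Set.disjoint_left]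
      rintro s ⟨a, c, d⟩ ⟨a', c', d'⟩
      rw [Complex.conj_im] at c' d'
      linarith
    · rw [Set.disjoint_left]
      rintro s ⟨a, c⟩ (⟨a', c', d'⟩ | ⟨a', c', d'⟩)
      · have := le_abs_self s.im
        linarith
      · rw [Complex.conj_im] at c' d'
        have := neg_abs_le s.im
        linarith

lemma cf_prod {ι : Type*} (J : Finset ι) (L : ι → ℂ → ℂ) :
    cf (fun s => ∏ F ∈ J, (L F s * cf (L F) s)) = fun s => ∏ F ∈ J, (L F s * cf (L F) s) := by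
  funext s
  show (starRingEnd ℂ) (∏ F ∈ J, (L F ((starRingEnd ℂ) s) * cf (L F) ((starRingEnd ℂ) s))) = _
  rw [map_prod]
  refine Finset.prod_congr rfl fun F _ => ?_
  rw [map_mul]
  have e1 : (starRingEnd ℂ) (cf (L F) ((starRingEnd ℂ) s)) = L F s := by
    unfold cf
    rw [Complex.conj_conj, Complex.conj_conj]
  rw [e1]
  have e2 : (starRingEnd ℂ) (L F ((starRingEnd ℂ) s)) = cf (L F) s := rfl
  rw [e2, mul_comm]

/-- the step of the induction -/
lemma step_aux {c x l d l2 W W' S ε : ℝ} (hc : 0 ≤ c) (hx : 0 ≤ x) (hl : 0 ≤ l) (hd : 0 ≤ d)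
    (hε : 0 ≤ ε) (hε1 : ε ≤ 1) (hl2 : l2 ≤ 1)
    (h1 : (1 - ε / 2) * (c * (2 * x * (l - 2 * d))) ≤ W)
    (h2 : (1 - ε / 4) * (c * (x * l)) ≤ S) (h3 : W' = W + 2 * S) :
    (1 - ε / 2) * (c * (2 * (2 * x) * ((l + d * l2) - 2 * d))) ≤ W' := by
  rw [h3]
  have hcx : 0 ≤ c * x := mul_nonneg hc hx
  have hcxl : 0 ≤ c * x * l := mul_nonneg hcx hl
  have h4 : (1 - ε / 2) * (c * (x * l)) ≤ S := by
    refine le_trans ?_ h2
    refine mul_le_mul_of_nonneg_right (by linarith) (by positivity)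
  have h5 : 0 ≤ (1 - ε / 2) * (c * x * (d * (1 - l2))) := by
    have : 0 ≤ 1 - l2 := by linarith
    have : 0 ≤ 1 - ε / 2 := by linarith
    positivity
  have h6 : (1 - ε / 2) * (c * (2 * (2 * x) * ((l + d * l2) - 2 * d))) =
      (1 - ε / 2) * (c * (2 * x * (l - 2 * d))) + 2 * ((1 - ε / 2) * (c * (x * l))) -
      4 * ((1 - ε / 2) * (c * x * (d * (1 - l2)))) := by ring
  rw [h6]
  linarith

/-- **the zeros with `|Im s| ≤ T`, for all `T`** -/
theorem prod_all (h2 : StP2) (hGro : StGro) (hCru : StCru) (K : Type) [Field K] [NumberField K]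
    {n : (K →+* ℂ) → ℕ} (hn : CTyp n) (hn1 : ∀ φ, 1 ≤ n φ + n (cj φ)) (hn0 : n ≠ 0) {a e e₁ a₂ : ℝ}
    (ha1 : a < 1) (he : 0 < e) (hk : kc 1.414 (1 - a) + e ≤ 1.3275) (h2a : a₂ ≤ a) (h23 : a₂ ≤ 1 / 3)
    (he1 : 0 < e₁) (hk1 : kc 1.414 1 + e₁ ≤ 1.3275) (ε : ℝ) (hε : 0 < ε) (hε1 : ε ≤ 1) :
    ∃ δ X₀ C : ℝ, 0 < δ ∧ 1 ≤ C ∧
    ∀ (𝔮 : Ideal (𝓞 K)) (_ : 𝔮 ≠ ⊥) (htop : 𝔮 ≠ ⊤), X₀ ≤ (Ideal.absNorm 𝔮 : ℝ) →
      (Dn n htop).Nonempty → (Un 𝔮 : ℝ) ≤ (Ideal.absNorm 𝔮 : ℝ) ^ δ →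
      ∀ L : (Mq 𝔮 →* ℂˣ) → ℂ → ℂ,
      (∀ F ∈ Dn n htop, Differentiable ℂ (L F) ∧ ∀ s : ℂ, 1 < s.re → L F s = LI (ofM' htop F) s) →
      ∀ J : Finset (Mq 𝔮 →* ℂˣ), (∀ F, F ∈ J ↔ F ∈ Dn n htop) →
      ∀ τ : ℝ, C * (1 + Real.sqrt (Real.log (Un 𝔮))) ≤ τ →
        ((Ideal.absNorm 𝔮 : ℝ) * τ ^ Module.finrank ℚ K) ^ (1 - a₂) ≤ (Ideal.absNorm 𝔮 : ℝ) →
        (1 - ε) * (Nat.card (Cls (pi1 htop)) * (2 * τ / Real.pi *
          Real.log ((Ideal.absNorm 𝔮 : ℝ) * τ ^ Module.finrank ℚ K))) ≤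
          (cnt (fun s => ∏ F ∈ J, (L F s * cf (L F) s)) (Wc τ) : ℝ) ∧
        0.6725 * (cnt (fun s => ∏ F ∈ J, (L F s * cf (L F) s)) (Wc τ) : ℝ) ≤
          (cnt (fun s => ∏ F ∈ J, (L F s * cf (L F) s)) (Lc τ) : ℝ) := by
  classical
  obtain ⟨d, hd⟩ : ∃ d : ℕ, d = Module.finrank ℚ K := ⟨_, rfl⟩
  have hd1 : 1 ≤ d := by rw [hd]; exact Module.finrank_pos
  have hdR : (1 : ℝ) ≤ d := by exact_mod_cast hd1
  have hd0 : (0 : ℝ) < d := by linarith
  obtain ⟨δ₁, X₁, C₁, η₁, hδ₁, hC₁, hη₁, hη₁', H1⟩ := prod_low h2 hGro hCru K hn hn1 hn0 he1 hk1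
    (ε / 4) (by positivity)
  obtain ⟨ηs, hηs⟩ : ∃ ηs : ℝ, ηs = min η₁ (ε / (4 * d)) := ⟨_, rfl⟩
  have hηs0 : 0 < ηs := by rw [hηs]; exact lt_min hη₁ (by positivity)
  have hηs1 : ηs ≤ η₁ := by rw [hηs]; exact min_le_left _ _
  have hηs2 : d * ηs ≤ ε / 4 := by
    have h1 : ηs ≤ ε / (4 * d) := by rw [hηs]; exact min_le_right _ _
    rw [le_div_iff₀ (by positivity)] at h1
    linarith
  obtain ⟨δ₂, X₂, hδ₂, H2⟩ := prod_core hGro hCru K hn hn0 ha1 he hk h2a h23 (ε / 4) (ηs / 2)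
    (by positivity) (by positivity)
  obtain ⟨x3, hx3, hx3'⟩ := exp_dom (ηs / 2) (2 * C₁) (by positivity)
  refine ⟨min (min δ₁ δ₂) 1, max (max X₁ X₂) (Real.exp (x3 + 8 * d / ε)), C₁,
    lt_min (lt_min hδ₁ hδ₂) one_pos, hC₁, ?_⟩
  intro 𝔮 hbot htop hX hne hU L hL J hJ τ hτ hτh
  obtain ⟨N, hN⟩ : ∃ N : ℝ, N = (Ideal.absNorm 𝔮 : ℝ) := ⟨_, rfl⟩
  rw [← hN] at hX hU hτh ⊢
  have hX1 : X₁ ≤ N := (le_max_left _ _).trans ((le_max_left _ _).trans hX)
  have hX2 : X₂ ≤ N := (le_max_right _ _).trans ((le_max_left _ _).trans hX)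
  have hX3 : Real.exp (x3 + 8 * d / ε) ≤ N := (le_max_right _ _).trans hX
  have hN0 : 0 < N := lt_of_lt_of_le (Real.exp_pos _) hX3
  have hℓN : x3 + 8 * d / ε ≤ Real.log N := by
    rw [Real.le_log_iff_exp_le hN0]
    exact hX3
  have hde : 0 < 8 * d / ε := by positivity
  have hℓ1 : x3 ≤ Real.log N := by linarith
  have hℓ2 : 8 * d / ε ≤ Real.log N := by linarith
  have hℓ0 : 1 ≤ Real.log N := by linarith
  have hN1 : 1 ≤ N := by
    rw [← Real.exp_log hN0]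
    exact Real.one_le_exp (by linarith)
  have hU1 : (Un 𝔮 : ℝ) ≤ N ^ δ₁ := hU.trans (Real.rpow_le_rpow_of_exponent_le hN1
    ((min_le_left _ _).trans (min_le_left _ _)))
  have hU2 : (Un 𝔮 : ℝ) ≤ N ^ δ₂ := hU.trans (Real.rpow_le_rpow_of_exponent_le hN1
    ((min_le_left _ _).trans (min_le_right _ _)))
  have hU3 : (Un 𝔮 : ℝ) ≤ N ^ (1 : ℝ) := hU.trans (Real.rpow_le_rpow_of_exponent_le hN1
    (min_le_right _ _))
  rw [Real.rpow_one] at hU3
  have hUp : (0 : ℝ) < Un 𝔮 := by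
    have := one_le_Un hbot
    exact_mod_cast this
  have hlU : Real.log (Un 𝔮) ≤ Real.log N := Real.log_le_log hUp hU3
  have hsq := Real.sqrt_nonneg (Real.log (Un 𝔮))
  -- the lower limit is small
  have hCs : 2 * (C₁ * (1 + Real.sqrt (Real.log (Un 𝔮)))) ≤ N ^ (ηs / 2) := by
    have h1 := hx3' _ hℓ1
    have h2 : Real.exp (ηs / 2 * Real.log N) = N ^ (ηs / 2) := by
      rw [Real.rpow_def_of_pos hN0]
      congr 1; ring
    rw [h2] at h1
    refine le_trans ?_ h1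
    have h3 : Real.sqrt (Real.log (Un 𝔮)) ≤ Real.log N := by
      refine (Real.sqrt_le_sqrt hlU).trans ?_
      rw [Real.sqrt_le_left (by linarith)]
      nlinarith only [hℓ0]
    have h4 : 1 + Real.sqrt (Real.log (Un 𝔮)) ≤ (Real.log N + 1) ^ 2 := by
      nlinarith only [h3, hℓ0]
    calc 2 * (C₁ * (1 + Real.sqrt (Real.log (Un 𝔮)))) = 2 * C₁ * (1 + Real.sqrt (Real.log (Un 𝔮))) := by
          ring
      _ ≤ 2 * C₁ * (Real.log N + 1) ^ 2 := mul_le_mul_of_nonneg_left h4 (by positivity)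
  have hNs2 : 2 ≤ N ^ (ηs / 2) := by
    refine le_trans ?_ hCs
    nlinarith only [hC₁, hsq]
  have hNss : N ^ ηs = N ^ (ηs / 2) * N ^ (ηs / 2) := by
    rw [← Real.rpow_add hN0]
    congr 1; ring
  have hNs0 : 0 < N ^ (ηs / 2) := Real.rpow_pos_of_pos hN0 _
  -- the function
  obtain ⟨G, hG⟩ : ∃ G : ℂ → ℂ, G = fun s => ∏ F ∈ J, (L F s * cf (L F) s) := ⟨_, rfl⟩
  have hGd : Differentiable ℂ G := by
    rw [hG]
    exact Differentiable.fun_finsetProd fun F hF =>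
      (hL F ((hJ F).mp hF)).1.mul (cf_diff (hL F ((hJ F).mp hF)).1)
  have hG2 : G 2 ≠ 0 := by
    rw [hG]
    simp only
    rw [Finset.prod_ne_zero_iff]
    intro F hF
    have hF' := (hJ F).mp hF
    have h3 : L F 2 ≠ 0 := by
      rw [(hL F hF').2 2 (by norm_num)]
      exact LI_ne (norm_ofM'_le hbot htop hF') (by norm_num)
    refine mul_ne_zero h3 ?_
    unfold cf
    rw [Ne, map_eq_zero, map_ofNat]
    exact h3
  have hGc : cf G = G := by rw [hG]; exact cf_prod J L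
  have K1 := H1 𝔮 hbot htop (by rw [← hN]; exact hX1) hne (by rw [← hN]; exact hU1) L hL J hJ
  have K2 := H2 𝔮 hbot htop (by rw [← hN]; exact hX2) hne (by rw [← hN]; exact hU2) L hL J hJ
  rw [← hG, ← hN] at K1
  rw [← hG, ← hN, ← hd] at K2
  rw [← hG, ← hd]
  rw [← hd] at hτh
  clear H1 H2
  obtain ⟨c, hc⟩ : ∃ c : ℝ, c = (Nat.card (Cls (pi1 htop)) : ℝ) / Real.pi := ⟨_, rfl⟩
  have hc0 : 0 ≤ c := by rw [hc]; positivity
  obtain ⟨U, hUd⟩ : ∃ U : ℝ, U = C₁ * (1 + Real.sqrt (Real.log (Un 𝔮))) := ⟨_, rfl⟩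
  have hU1' : 1 ≤ U := by rw [hUd]; nlinarith only [hC₁, hsq]
  rw [← hUd] at hτ hCs K1
  have hℓpos : ∀ x : ℝ, 1 ≤ x → Real.log (N * x ^ d) = Real.log N + d * Real.log x := by
    intro x hx
    have hx0 : 0 < x := by linarith
    rw [Real.log_mul hN0.ne' (pow_pos hx0 _).ne', Real.log_pow]
  -- small `τ`
  have hsmall : ∀ x : ℝ, U ≤ x → x ≤ N ^ ηs →
      (1 - ε / 2) * (c * (2 * x * (Real.log (N * x ^ d) - 2 * d))) ≤ (cnt G (Wc x) : ℝ) ∧
      0.6725 * (cnt G (Wc x) : ℝ) ≤ (cnt G (Lc x) : ℝ) := by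
    intro x hx1 hx2
    obtain ⟨k1, k2⟩ := K1 x hx1 (hx2.trans (Real.rpow_le_rpow_of_exponent_le hN1 hηs1))
    refine ⟨le_trans ?_ k1, k2⟩
    have hx0 : 1 ≤ x := hU1'.trans hx1
    have hlx : Real.log x ≤ ηs * Real.log N := by
      have := Real.log_le_log (by linarith) hx2
      rwa [Real.log_rpow hN0] at this
    have e1 : (1 - ε / 4) * (Nat.card (Cls (pi1 htop)) * (2 * x / Real.pi * Real.log N)) =
        (1 - ε / 4) * Real.log N * (c * (2 * x)) := by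
      rw [hc]; ring
    have e2 : (1 - ε / 2) * (c * (2 * x * (Real.log (N * x ^ d) - 2 * d))) =
        (1 - ε / 2) * (Real.log (N * x ^ d) - 2 * d) * (c * (2 * x)) := by ring
    rw [e1, e2, hℓpos x hx0]
    refine mul_le_mul_of_nonneg_right ?_ (by positivity)
    have e3 : (d : ℝ) * Real.log x ≤ ε / 4 * Real.log N := by
      calc (d : ℝ) * Real.log x ≤ d * (ηs * Real.log N) := mul_le_mul_of_nonneg_left hlx hd0.le
        _ = (d * ηs) * Real.log N := by ring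
        _ ≤ ε / 4 * Real.log N := mul_le_mul_of_nonneg_right hηs2 (by linarith)
    have e4 : (1 - ε / 2) * (Real.log N + d * Real.log x - 2 * d) ≤
        (1 - ε / 2) * ((1 + ε / 4) * Real.log N) := by
      refine mul_le_mul_of_nonneg_left ?_ (by linarith)
      linarith
    refine e4.trans ?_
    have e5 : 0 ≤ ε ^ 2 / 8 * Real.log N := by positivity
    linarith
  -- induction
  have hind : ∀ k : ℕ, ∀ x : ℝ, U ≤ x → x ≤ 2 ^ k * N ^ ηs → (N * x ^ d) ^ (1 - a₂) ≤ N →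
      (1 - ε / 2) * (c * (2 * x * (Real.log (N * x ^ d) - 2 * d))) ≤ (cnt G (Wc x) : ℝ) ∧
      0.6725 * (cnt G (Wc x) : ℝ) ≤ (cnt G (Lc x) : ℝ) := by
    intro k
    induction k with
    | zero =>
      intro x hx1 hx2 _
      rw [pow_zero, one_mul] at hx2
      exact hsmall x hx1 hx2
    | succ k ih =>
      intro x hx1 hx2 hx3
      by_cases hxs : x ≤ N ^ ηs
      · exact hsmall x hx1 hxs
      · push Not at hxs
        obtain ⟨y, hy⟩ : ∃ y : ℝ, y = x / 2 := ⟨_, rfl⟩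
        have hxy : x = 2 * y := by rw [hy]; ring
        have hy1 : N ^ (ηs / 2) ≤ y := by
          rw [hNss, hxy] at hxs
          nlinarith only [hxs, hNs2, hNs0]
        have hy0 : 1 ≤ y := by linarith
        have hyU : U ≤ y := by linarith
        have hy2 : y ≤ 2 ^ k * N ^ ηs := by
          rw [hxy, pow_succ] at hx2
          linarith
        have hN' : 0 < N * y ^ d := by positivity
        have hy3 : (N * y ^ d) ^ (1 - a₂) ≤ N := by
          refine le_trans ?_ hx3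
          refine Real.rpow_le_rpow hN'.le ?_ (by linarith)
          refine mul_le_mul_of_nonneg_left ?_ hN0.le
          exact pow_le_pow_left₀ (by linarith) (by linarith) d
        obtain ⟨i1, i2⟩ := ih y hyU hy2 hy3
        obtain ⟨-, j1, j2⟩ := K2 y hy1 hy3
        obtain ⟨t1, t2⟩ := cnt_two hGd hG2 hGc (τ := y) (by linarith)
        have t1' : (cnt G (Wc (2 * y)) : ℝ) = cnt G (Wc y) + 2 * cnt G (strip y (2 * y)) := by
          exact_mod_cast t1
        have t2' : (cnt G (Lc (2 * y)) : ℝ) = cnt G (Lc y) + 2 * cnt G (line y (2 * y)) := by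
          exact_mod_cast t2
        rw [hxy]
        refine ⟨?_, ?_⟩
        · have e1 : Real.log (N * (2 * y) ^ d) = Real.log (N * y ^ d) + d * Real.log 2 := by
            rw [hℓpos _ (by linarith), hℓpos _ hy0, Real.log_mul (by norm_num) (by linarith)]
            ring
          rw [e1]
          refine step_aux hc0 (by linarith) ?_ hd0.le hε.le hε1 ?_ i1 ?_ t1'
          · rw [hℓpos _ hy0]
            have := Real.log_nonneg hy0
            positivity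
          · have := Real.log_two_lt_d9
            linarith
          · refine le_trans (le_of_eq ?_) j1
            rw [hc]; ring
        · rw [t1', t2']
          linarith
  obtain ⟨k, hk'⟩ := pow_unbounded_of_one_lt τ (show (1 : ℝ) < 2 by norm_num)
  have hNηs : 1 ≤ N ^ ηs := Real.one_le_rpow hN1 hηs0.le
  have hτk : τ ≤ 2 ^ k * N ^ ηs :=
    hk'.le.trans (le_mul_of_one_le_right (by positivity) hNηs)
  obtain ⟨m1, m2⟩ := hind k τ hτ hτk hτh
  refine ⟨le_trans ?_ m1, m2⟩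
  have hτ1 : 1 ≤ τ := hU1'.trans hτ
  have e1 : (1 - ε) * (Nat.card (Cls (pi1 htop)) * (2 * τ / Real.pi * Real.log (N * τ ^ d))) =
      (1 - ε) * Real.log (N * τ ^ d) * (c * (2 * τ)) := by
    rw [hc]; ring
  have e2 : (1 - ε / 2) * (c * (2 * τ * (Real.log (N * τ ^ d) - 2 * d))) =
      (1 - ε / 2) * (Real.log (N * τ ^ d) - 2 * d) * (c * (2 * τ)) := by ring
  rw [e1, e2]
  refine mul_le_mul_of_nonneg_right ?_ (by positivity)
  have e3 : 8 * d / ε ≤ Real.log (N * τ ^ d) := by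
    rw [hℓpos τ hτ1]
    have := Real.log_nonneg hτ1
    have : 0 ≤ (d : ℝ) * Real.log τ := by positivity
    linarith
  rw [div_le_iff₀ hε] at e3
  nlinarith only [e3, hε, hd0]

end Pool.Agent.Helper13.LZ
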