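import Pool.Agent.Helper13.LZ.Coin
import Pool.Graph.R_pool_sql_team_seeded_63374d34.N784.HC.LsgN
import Pool.Graph.R_pool_sql_team_seeded_63374d34.N784.AD.Msp

/-! # The pairs of small primes in the same ray class (helper13) -/

set_option autoImplicit false
set_option linter.unusedSectionVars false

open NumberField Module

namespace Pool.Agent.Helper13.LZ

open Pool.Agent.Y773 (TPos cc)
open Pool.Agent.Y767 (Mq Mq_cop Mq_ne_bot Mq_cancel isUnit_mk Cls cls cls_eq cK)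
open Pool.Agent.Y773.IQ (ne_zero_of_cop absNorm_pos')
open Pool.Agent.N784.AD

section

variable (K : Type) [Field K] [NumberField K]

/-- a crude bound for the number of ideals -/
theorem ideals_le : ∃ C : ℝ, 1 ≤ C ∧ ∀ (𝔮 : Ideal (𝓞 K)) (_ : 𝔮 ≠ ⊤) (S : Finset (Mq 𝔮)) (x : ℝ),
    1 ≤ x → (∀ a ∈ S, (Ideal.absNorm (a : Ideal (𝓞 K)) : ℝ) ≤ x) → (S.card : ℝ) ≤ C * x := by
  classical
  obtain ⟨C1, hC1, hbal⟩ := balanced K
  obtain ⟨C3, hC3, hbox⟩ := box_count K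
  obtain ⟨𝔠, M, hM, h𝔠0, h𝔠M, h𝔠⟩ := exists_cc K
  obtain ⟨d, hd⟩ : ∃ d : ℕ, d = finrank ℚ K := ⟨_, rfl⟩
  have hd0 : 0 < d := by rw [hd]; exact finrank_pos
  have hdr : (0 : ℝ) < d := by exact_mod_cast hd0
  rw [← hd] at hbal hbox
  have hhK : (1 : ℝ) ≤ Fintype.card (ClassGroup (𝓞 K)) := by
    exact_mod_cast Fintype.card_pos
  obtain ⟨G, hG⟩ : ∃ G : ℝ, G = C1 ^ d * M := ⟨_, rfl⟩
  have hG0 : 0 ≤ G := by rw [hG]; positivity
  refine ⟨Fintype.card (ClassGroup (𝓞 K)) * (C3 * (1 + G)),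
    one_le_mul_of_one_le_of_one_le hhK (one_le_mul_of_one_le_of_one_le hC3 (by linarith)), ?_⟩
  intro 𝔮 htop S x hx hS
  obtain ⟨A, hA⟩ : ∃ A : ℝ, A = C1 * (x * M) ^ (1 / (d : ℝ)) := ⟨_, rfl⟩
  have hA0 : 0 ≤ A := by rw [hA]; positivity
  have hroot : ∀ z : ℝ, 0 ≤ z → (z ^ (1 / (d : ℝ))) ^ d = z := by
    intro z hz
    rw [← Real.rpow_natCast, ← Real.rpow_mul hz, one_div_mul_cancel hdr.ne', Real.rpow_one]
  have hAd : A ^ d = G * x := by rw [hA, mul_pow, hroot _ (by positivity), hG]; ring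
  have hdata : ∀ a : Mq 𝔮, ∃ (C : ClassGroup (𝓞 K)) (α : 𝓞 K), a ∈ S →
      Ideal.span {α} = (a : Ideal (𝓞 K)) * 𝔠 C ∧ Bd α A := by
    intro a
    by_cases ha : a ∈ S
    swap
    · exact ⟨1, 0, fun h => absurd h ha⟩
    obtain ⟨C, α₀, hα0, hα⟩ := h𝔠 _ (Mq_ne_bot htop a)
    obtain ⟨u, hu⟩ := hbal α₀ hα0
    refine ⟨C, (u : 𝓞 K) * α₀, fun _ => ⟨?_, hu.mono ?_⟩⟩
    · rw [← hα, Ideal.span_singleton_mul_left_unit u.isUnit]
    · rw [hA]
      refine mul_le_mul_of_nonneg_left (Real.rpow_le_rpow (Nat.cast_nonneg _) ?_ (by positivity))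
        (by linarith)
      rw [absNorm_gen hα]
      exact mul_le_mul (hS a ha) (h𝔠M C) (Nat.cast_nonneg _) (by positivity)
  choose cC αα hdat using hdata
  have h1 := Finset.card_le_mul_card_image (f := cC) S ⌊C3 * (1 + G) * x⌋₊ (by
    intro key hkey
    apply Nat.le_floor
    have hinj : Set.InjOn αα ((S.filter (fun a => cC a = key) : Finset (Mq 𝔮)) : Set (Mq 𝔮)) := by
      intro a ha b hb he
      rw [Finset.mem_coe, Finset.mem_filter] at ha hb
      obtain ⟨g1, -⟩ := hdat a ha.1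
      obtain ⟨g2, -⟩ := hdat b hb.1
      apply Subtype.ext
      apply mul_right_cancel₀ (b := 𝔠 key) (h𝔠0 _)
      have g1' : Ideal.span {αα a} = (a : Ideal (𝓞 K)) * 𝔠 key := by rw [g1, ha.2]
      have g2' : Ideal.span {αα b} = (b : Ideal (𝓞 K)) * 𝔠 key := by rw [g2, hb.2]
      rw [← g1', ← g2', he]
    have h2 := hbox (⊤ : Ideal (𝓞 K)) (by
      intro h
      have := Ideal.absNorm_top (S := 𝓞 K)
      rw [h, Ideal.absNorm_bot] at this
      exact zero_ne_one this) A hA0 ((S.filter (fun a => cC a = key)).image αα) (by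
      intro z hz
      obtain ⟨a, ha, rfl⟩ := Finset.mem_image.mp hz
      exact ⟨Submodule.mem_top, (hdat a (Finset.mem_filter.mp ha).1).2⟩)
    rw [Finset.card_image_of_injOn hinj, Ideal.absNorm_top, Nat.cast_one, div_one, hAd] at h2
    refine h2.trans ?_
    rw [mul_assoc]
    refine mul_le_mul_of_nonneg_left ?_ (by linarith)
    nlinarith)
  have h2 : (S.image cC).card ≤ Fintype.card (ClassGroup (𝓞 K)) := Finset.card_le_univ _
  have h3 : (S.card : ℝ) ≤ (⌊C3 * (1 + G) * x⌋₊ : ℝ) * ((S.image cC).card : ℝ) := by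
    exact_mod_cast h1
  have h4 : ((S.image cC).card : ℝ) ≤ Fintype.card (ClassGroup (𝓞 K)) := by exact_mod_cast h2
  refine h3.trans ((mul_le_mul (Nat.floor_le (by positivity)) h4 (Nat.cast_nonneg _)
    (by positivity)).trans (le_of_eq (by ring)))

/-- a maximal set of disjoint pairs -/
theorem pairs_small : ∃ C : ℝ, 1 ≤ C ∧ ∀ (𝔮 : Ideal (𝓞 K)) (_ : 𝔮 ≠ ⊥) (htop : 𝔮 ≠ ⊤)
    (S : Finset (Mq 𝔮)) (x : ℝ) (j : ℕ), 1 ≤ x → C * (x ^ j) ^ 2 ≤ (Ideal.absNorm 𝔮 : ℝ) →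
    (∀ a ∈ S, Prime (a : Ideal (𝓞 K)) ∧ (Ideal.absNorm (a : Ideal (𝓞 K)) : ℝ) ≤ x) →
    ∃ m : ℕ, ((prs htop S).card : ℝ) ≤ 12 * (m : ℝ) ^ 2 ∧ (m.choose j : ℝ) ≤ C * Un 𝔮 := by
  classical
  obtain ⟨C, hC, hmc⟩ := matching_count K
  refine ⟨C, hC, fun 𝔮 hbot htop S x j hx hxN hS => ?_⟩
  have hprs : ∀ p : Mq 𝔮 × Mq 𝔮, p ∈ prs htop S ↔ (p.1 ∈ S ∧ p.2 ∈ S) ∧
      (p.1 ≠ p.2 ∧ cls (pi1 htop) p.1 = cls (pi1 htop) p.2) := by
    intro p
    unfold prs
    rw [Finset.mem_filter, Finset.mem_product]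
  obtain ⟨𝓜, h𝓜⟩ : ∃ 𝓜 : Finset (Finset (Mq 𝔮 × Mq 𝔮)), 𝓜 = (prs htop S).powerset.filter
    (fun M => ∀ p ∈ M, ∀ p' ∈ M, p ≠ p' → p.1 ≠ p'.1 ∧ p.1 ≠ p'.2 ∧ p.2 ≠ p'.1 ∧ p.2 ≠ p'.2) :=
    ⟨_, rfl⟩
  have h𝓜0 : (∅ : Finset (Mq 𝔮 × Mq 𝔮)) ∈ 𝓜 := by
    rw [h𝓜, Finset.mem_filter]
    exact ⟨Finset.empty_mem_powerset _, fun p hp => absurd hp (Finset.notMem_empty p)⟩
  obtain ⟨M, hM, hmax⟩ := Finset.exists_max_image 𝓜 (fun M => M.card) ⟨_, h𝓜0⟩
  rw [h𝓜, Finset.mem_filter, Finset.mem_powerset] at hM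
  obtain ⟨hMs, hMd⟩ := hM
  obtain ⟨V, hV⟩ : ∃ V : Finset (Mq 𝔮), V = M.image Prod.fst ∪ M.image Prod.snd := ⟨_, rfl⟩
  have hVc : V.card ≤ 2 * M.card := by
    rw [hV]
    refine (Finset.card_union_le _ _).trans ?_
    have h1 := Finset.card_image_le (s := M) (f := Prod.fst)
    have h2 := Finset.card_image_le (s := M) (f := Prod.snd)
    omega
  have hVm : ∀ p ∈ M, p.1 ∈ V ∧ p.2 ∈ V := by
    intro p hp
    rw [hV]
    exact ⟨Finset.mem_union_left _ (Finset.mem_image_of_mem _ hp),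
      Finset.mem_union_right _ (Finset.mem_image_of_mem _ hp)⟩
  have hcov : ∀ p ∈ prs htop S, p.1 ∈ V ∨ p.2 ∈ V := by
    intro p hp
    by_contra hcon
    rw [not_or] at hcon
    have hpM : p ∉ M := fun h => hcon.1 (hVm p h).1
    have hne : p.1 ≠ p.2 := ((hprs p).mp hp).2.1
    have h1 : insert p M ∈ 𝓜 := by
      rw [h𝓜, Finset.mem_filter, Finset.mem_powerset]
      refine ⟨Finset.insert_subset hp hMs, ?_⟩
      intro a ha b hb hab
      rw [Finset.mem_insert] at ha hb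
      rcases ha with ha | ha <;> rcases hb with hb | hb
      · exact absurd (ha.trans hb.symm) hab
      · obtain ⟨v1, v2⟩ := hVm b hb
        rw [ha]
        exact ⟨fun h => hcon.1 (h ▸ v1), fun h => hcon.1 (h ▸ v2), fun h => hcon.2 (h ▸ v1),
          fun h => hcon.2 (h ▸ v2)⟩
      · obtain ⟨v1, v2⟩ := hVm a ha
        rw [hb]
        exact ⟨fun h => hcon.1 (h ▸ v1), fun h => hcon.2 (h ▸ v1), fun h => hcon.1 (h ▸ v2),
          fun h => hcon.2 (h ▸ v2)⟩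
      · exact hMd a ha b hb hab
    have h2 := hmax _ h1
    simp only [Finset.card_insert_of_notMem hpM] at h2
    omega
  -- the pairs with first entry in `V`
  have hone : ∀ (f g : Mq 𝔮 × Mq 𝔮 → Mq 𝔮), (∀ p p' : Mq 𝔮 × Mq 𝔮, f p = f p' → g p = g p' → p = p') →
      (∀ p ∈ prs htop S, f p ∈ S ∧ g p ∈ S ∧ cls (pi1 htop) (f p) = cls (pi1 htop) (g p)) →
      ((prs htop S).filter (fun p => f p ∈ V)).card ≤ V.card * V.card + V.card := by
    intro f g hfg hfs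
    have h1 : (prs htop S).filter (fun p => f p ∈ V) =
        ((prs htop S).filter (fun p => f p ∈ V ∧ g p ∈ V)) ∪
        ((prs htop S).filter (fun p => f p ∈ V ∧ g p ∉ V)) := by
      ext p
      simp only [Finset.mem_filter, Finset.mem_union]
      tauto
    rw [h1]
    refine (Finset.card_union_le _ _).trans (add_le_add ?_ ?_)
    · rw [← Finset.card_product]
      refine Finset.card_le_card_of_injOn (fun p => (f p, g p)) ?_ ?_
      · intro p hp
        have h2 := (Finset.mem_filter.mp (Finset.mem_coe.mp hp)).2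
        exact Finset.mem_coe.mpr (Finset.mem_product.mpr h2)
      · intro p _ p' _ he
        exact hfg p p' (congrArg Prod.fst he) (congrArg Prod.snd he)
    · refine Finset.card_le_card_of_injOn f ?_ ?_
      · intro p hp
        exact Finset.mem_coe.mpr (Finset.mem_filter.mp (Finset.mem_coe.mp hp)).2.1
      · intro p hp p' hp' he
        obtain ⟨q1, q2, q3⟩ := Finset.mem_filter.mp (Finset.mem_coe.mp hp)
        obtain ⟨q1', q2', q3'⟩ := Finset.mem_filter.mp (Finset.mem_coe.mp hp')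
        refine hfg p p' he ?_
        by_contra hne
        obtain ⟨-, w1, w2⟩ := hfs p q1
        obtain ⟨-, w1', w2'⟩ := hfs p' q1'
        have h3 : ((g p, g p') : Mq 𝔮 × Mq 𝔮) ∈ prs htop S := by
          rw [hprs]
          refine ⟨⟨w1, w1'⟩, hne, ?_⟩
          rw [← w2, ← w2', he]
        rcases hcov _ h3 with h4 | h4
        · exact q3 h4
        · exact q3' h4
  have h1 := hone Prod.fst Prod.snd (fun p p' h1 h2 => Prod.ext h1 h2) (fun p hp => by
    obtain ⟨⟨a1, a2⟩, -, a3⟩ := (hprs p).mp hp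
    exact ⟨a1, a2, a3⟩)
  have h2 := hone Prod.snd Prod.fst (fun p p' h1 h2 => Prod.ext h2 h1) (fun p hp => by
    obtain ⟨⟨a1, a2⟩, -, a3⟩ := (hprs p).mp hp
    exact ⟨a2, a1, a3.symm⟩)
  have h3 : (prs htop S).card ≤ 2 * (V.card * V.card + V.card) := by
    have h4 : prs htop S ⊆ ((prs htop S).filter (fun p => p.1 ∈ V)) ∪
        ((prs htop S).filter (fun p => p.2 ∈ V)) := by
      intro p hp
      rw [Finset.mem_union, Finset.mem_filter, Finset.mem_filter]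
      rcases hcov p hp with h | h
      · exact Or.inl ⟨hp, h⟩
      · exact Or.inr ⟨hp, h⟩
    have h5 := (Finset.card_le_card h4).trans (Finset.card_union_le _ _)
    omega
  refine ⟨M.card, ?_, ?_⟩
  · have h4 : (prs htop S).card ≤ 12 * M.card ^ 2 := by
      rcases Nat.eq_zero_or_pos M.card with h0 | h0
      · have : V.card = 0 := by omega
        rw [this] at h3
        omega
      · have h5 : V.card * V.card ≤ (2 * M.card) * (2 * M.card) := Nat.mul_le_mul hVc hVc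
        have h6 : M.card * 1 ≤ M.card * M.card := Nat.mul_le_mul_left _ h0
        nlinarith
    exact_mod_cast h4
  · refine hmc 𝔮 hbot htop M x j hx hxN (fun p hp => ?_) (fun p hp p' hp' hne => ?_)
    · obtain ⟨⟨a1, a2⟩, a3, a4⟩ := (hprs p).mp (hMs hp)
      exact ⟨a4, a3, (hS _ a1).1, (hS _ a2).1, (hS _ a1).2, (hS _ a2).2⟩
    · obtain ⟨b1, b2, -⟩ := hMd p hp p' hp' hne
      exact ⟨b1, b2⟩

end

/-- the size of a set with few subsets -/
lemma choose_bound {m j : ℕ} {V : ℝ} (hj : 1 ≤ j) (hV : 1 ≤ V) (h : (m.choose j : ℝ) ≤ V) :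
    (m : ℝ) ≤ j * (1 + V ^ (1 / (j : ℝ))) := by
  have hj0 : (0 : ℝ) < j := by exact_mod_cast hj
  have hV0 : 0 ≤ V ^ (1 / (j : ℝ)) := by positivity
  rcases le_or_gt m j with hm | hm
  · have : (m : ℝ) ≤ j := by exact_mod_cast hm
    nlinarith
  · have h1 := Nat.pow_le_choose (α := ℝ) j m
    have h2 : (((m + 1 - j : ℕ) : ℝ)) ^ j ≤ (j : ℝ) ^ j * V := by
      rw [div_le_iff₀ (by exact_mod_cast Nat.factorial_pos j)] at h1
      refine h1.trans ?_
      have h3 : ((j.factorial : ℕ) : ℝ) ≤ (j : ℝ) ^ j := by exact_mod_cast Nat.factorial_le_pow j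
      rw [mul_comm]
      exact mul_le_mul h3 h (Nat.cast_nonneg _) (by positivity)
    have h3 : (((m + 1 - j : ℕ) : ℝ)) ≤ j * V ^ (1 / (j : ℝ)) := by
      refine le_of_pow_le_pow_left₀ (n := j) (by omega) (by positivity) ?_
      rw [mul_pow, ← Real.rpow_natCast (V ^ (1 / (j : ℝ))), ← Real.rpow_mul (by linarith),
        one_div_mul_cancel hj0.ne', Real.rpow_one]
      exact h2
    have h4 : ((m + 1 - j : ℕ) : ℝ) = m + 1 - j := by
      rw [Nat.cast_sub (by omega)]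
      push_cast
      ring
    rw [h4] at h3
    linarith

end Pool.Agent.Helper13.LZ
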